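import Pool.Agent.H322R2.RedC

set_option autoImplicit false
set_option linter.unusedSectionVars false
set_option maxHeartbeats 400000

/-! A curve over the rationals that is irreducible over the rationals and has a nonsingular rational
point at the origin is absolutely irreducible. -/

open Finset

namespace Pool.Agent.R414.DN

open MvPolynomial

variable {QB : Type} [Field QB] [Algebra ℚ QB] [IsAlgClosure ℚ QB]

lemma coeff_fixed (P : MvPolynomial (Fin 2) QB)
    (h : ∀ σ : QB ≃ₐ[ℚ] QB, MvPolynomial.map (σ : QB →+* QB) P = P) :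
    ∃ Q : MvPolynomial (Fin 2) ℚ, MvPolynomial.map (algebraMap ℚ QB) Q = P := by
  have h1 : P ∈ Set.range (MvPolynomial.map (σ := Fin 2) (algebraMap ℚ QB)) := by
    rw [MvPolynomial.mem_range_map_iff_coeffs_subset]
    intro c hc
    rw [mem_coe, MvPolynomial.mem_coeffs_iff] at hc
    obtain ⟨m, -, rfl⟩ := hc
    have hgal : IsGalois ℚ QB := IsAlgClosure.isGalois ℚ QB
    rw [InfiniteGalois.mem_range_algebraMap_iff_fixed]
    intro σ
    have h2 := congrArg (fun Q => MvPolynomial.coeff m Q) (h σ)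
    simp only [MvPolynomial.coeff_map] at h2
    exact h2
  exact h1

omit [IsAlgClosure ℚ QB] in
lemma map_fix (σ : QB ≃ₐ[ℚ] QB) (F : MvPolynomial (Fin 2) ℚ) :
    MvPolynomial.map (σ : QB →+* QB) (MvPolynomial.map (algebraMap ℚ QB) F) =
      MvPolynomial.map (algebraMap ℚ QB) F := by
  have h : ((σ : QB →+* QB).comp (algebraMap ℚ QB)) = algebraMap ℚ QB := Subsingleton.elim _ _
  rw [MvPolynomial.map_map, h]

/-- value and partial derivative at the origin -/
lemma two_factors {K : Type} [Field K] {P Q R : MvPolynomial (Fin 2) K} {i : Fin 2}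
    (hP : constantCoeff P = 0) (hQ : constantCoeff Q = 0) :
    constantCoeff (pderiv i (P * Q * R)) = 0 := by
  simp only [Derivation.leibniz, smul_eq_mul, map_add, map_mul, hP, hQ, zero_mul, mul_zero,
    add_zero]

variable (QB) in
theorem abs_irr {F : MvPolynomial (Fin 2) ℚ} (hF : Irreducible F) (h0 : constantCoeff F = 0)
    {i : Fin 2} (h1 : constantCoeff (pderiv i F) ≠ 0) :
    Irreducible (MvPolynomial.map (algebraMap ℚ QB) F) := by
  classical
  have hinj : Function.Injective (MvPolynomial.map (σ := Fin 2) (algebraMap ℚ QB)) :=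
    MvPolynomial.map_injective _ (algebraMap ℚ QB).injective
  obtain ⟨FK, hFK⟩ : ∃ FK, FK = MvPolynomial.map (algebraMap ℚ QB) F := ⟨_, rfl⟩
  rw [← hFK]
  have hFK0 : FK ≠ 0 := by
    rw [hFK]
    exact (map_ne_zero_iff _ hinj).2 hF.ne_zero
  have hc : constantCoeff FK = 0 := by
    rw [hFK, constantCoeff_map, h0, map_zero]
  have hd : constantCoeff (pderiv i FK) ≠ 0 := by
    rw [hFK, MvPolynomial.pderiv_map, constantCoeff_map]
    intro h
    exact h1 ((map_eq_zero _).1 h)
  -- an irreducible factor through the origin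
  obtain ⟨P, hP, hPF, hP0⟩ : ∃ P, Prime P ∧ P ∣ FK ∧ constantCoeff P = 0 := by
    obtain ⟨s, hs, hsF⟩ := UniqueFactorizationMonoid.exists_prime_factors FK hFK0
    obtain ⟨u, hu⟩ := hsF
    have h2 : constantCoeff s.prod = 0 := by
      have h3 := hc
      rw [← hu, map_mul] at h3
      rcases mul_eq_zero.1 h3 with h4 | h4
      · exact h4
      · exfalso
        exact (u.isUnit.map constantCoeff).ne_zero h4
    rw [map_multiset_prod, Multiset.prod_eq_zero_iff, Multiset.mem_map] at h2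
    obtain ⟨P, hPs, hP0⟩ := h2
    exact ⟨P, hs P hPs, (Multiset.dvd_prod hPs).trans ⟨u, hu.symm⟩, hP0⟩
  -- conjugates
  have hconj : ∀ σ : QB ≃ₐ[ℚ] QB, ∃ c : QB, c ≠ 0 ∧
      MvPolynomial.map (σ : QB →+* QB) P = C c * P := by
    intro σ
    have hfix : MvPolynomial.map (σ : QB →+* QB) FK = FK := by rw [hFK, map_fix]
    obtain ⟨P', hP'⟩ : ∃ P', P' = MvPolynomial.map (σ : QB →+* QB) P := ⟨_, rfl⟩
    have hprime : Prime P' := by
      have h2 := (MulEquiv.prime_iff (MvPolynomial.mapEquiv (Fin 2) (σ : QB ≃+* QB))).2 hP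
      rw [hP']
      exact h2
    have hdvd : P' ∣ FK := by
      rw [← hfix, hP']
      exact map_dvd _ hPF
    have hP'0 : constantCoeff P' = 0 := by
      rw [hP', constantCoeff_map, hP0, map_zero]
    rw [← hP']
    by_cases hass : P' ∣ P
    · have h2 : Associated P' P := hprime.associated_of_dvd hP hass
      obtain ⟨u, hu⟩ := h2.symm
      obtain ⟨c, hc1, hc2⟩ := MvPolynomial.isUnit_iff_eq_C_of_isReduced.1 u.isUnit
      refine ⟨c, hc1.ne_zero, ?_⟩
      rw [← hu, hc2, mul_comm]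
    · exfalso
      obtain ⟨R, hR⟩ := hPF
      rw [hR] at hdvd
      rcases hprime.dvd_or_dvd hdvd with h2 | h2
      · exact hass h2
      · obtain ⟨R', rfl⟩ := h2
        apply hd
        rw [hR, ← mul_assoc]
        exact two_factors hP0 hP'0
  -- a normalised factor has rational coefficients
  obtain ⟨m₀, hm₀⟩ := MvPolynomial.ne_zero_iff.1 hP.ne_zero
  obtain ⟨P1, hP1⟩ : ∃ P1, P1 = C (P.coeff m₀)⁻¹ * P := ⟨_, rfl⟩
  have hunit : IsUnit (C (P.coeff m₀)⁻¹ : MvPolynomial (Fin 2) QB) :=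
    (Ne.isUnit (inv_ne_zero hm₀)).map C
  have hP1irr : Irreducible P1 := by
    rw [hP1]
    exact (irreducible_isUnit_mul hunit).2 hP.irreducible
  have hP1F : P1 ∣ FK := by
    rw [hP1]
    exact (hunit.mul_left_dvd).2 hPF
  have hP1fix : ∀ σ : QB ≃ₐ[ℚ] QB, MvPolynomial.map (σ : QB →+* QB) P1 = P1 := by
    intro σ
    obtain ⟨c, hc0, hcP⟩ := hconj σ
    have h2 : σ (P.coeff m₀) = c * P.coeff m₀ := by
      have h3 := congrArg (fun Q => MvPolynomial.coeff m₀ Q) hcP
      simp only [MvPolynomial.coeff_map, MvPolynomial.coeff_C_mul] at h3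
      exact h3
    rw [hP1, map_mul, hcP, MvPolynomial.map_C, ← mul_assoc, ← C_mul]
    congr 2
    have h3 : (σ : QB →+* QB) (P.coeff m₀)⁻¹ = (σ (P.coeff m₀))⁻¹ := map_inv₀ σ _
    rw [h3, h2, mul_inv]
    field_simp
  obtain ⟨Q, hQ⟩ := coeff_fixed P1 hP1fix
  obtain ⟨R, hR⟩ := hP1F
  have hRfix : ∀ σ : QB ≃ₐ[ℚ] QB, MvPolynomial.map (σ : QB →+* QB) R = R := by
    intro σ
    have hfix : MvPolynomial.map (σ : QB →+* QB) FK = FK := by rw [hFK, map_fix]
    rw [hR, map_mul, hP1fix σ] at hfix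
    exact mul_left_cancel₀ hP1irr.ne_zero hfix
  obtain ⟨R', hR'⟩ := coeff_fixed R hRfix
  have hfac : F = Q * R' := by
    apply hinj
    rw [map_mul, hQ, hR', ← hFK, hR]
  rcases hF.isUnit_or_isUnit hfac with hu | hu
  · exfalso
    apply hP1irr.not_isUnit
    rw [← hQ]
    exact hu.map _
  · rw [hR]
    apply (irreducible_mul_isUnit ?_).2 hP1irr
    rw [← hR']
    exact hu.map _

end Pool.Agent.R414.DN
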