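import Pool.Agent.R414.DN.Poly

set_option autoImplicit false
set_option linter.unusedSectionVars false

/-! Curves with a small integer point. -/

open Finset

namespace Pool.Agent.R414.DN

lemma MM_pos (d : ℕ) : d + 1 ≤ MM d := by
  rw [MM_eq, Nat.le_div_iff_mul_le two_pos]
  nlinarith

lemma card_zero_at_zero (d H : ℕ) :
    ((ibox ↥(I d) H).filter fun a => Fv (co a) d 0 0 = 0).card ≤ (2 * H + 1) ^ (MM d - 1) := by
  classical
  have h := card_fiber (H := H) (S := (ibox ↥(I d) H).filter fun a => Fv (co a) d 0 0 = 0)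
    (filter_subset _ _) {ip d 0 (Nat.zero_le _)} 1 ?_
  · rw [card_singleton, one_mul] at h
    exact h
  intro b T hT hTb
  rw [card_le_one]
  intro a haT a' haT'
  have ha := mem_filter.1 (hT haT)
  have ha' := mem_filter.1 (hT haT')
  have key : ∀ a : Cf d, Fv (co a) d 0 0 = co a 0 0 := by
    intro a
    unfold Fv
    rw [sum_eq_single_of_mem 0 (mem_range.2 (Nat.succ_pos d))]
    · simp
    · intro k _ hk
      apply sum_eq_zero
      intro i hi
      rw [mem_range] at hi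
      rcases Nat.eq_zero_or_pos i with h0 | h0
      · rw [h0, Nat.sub_zero, zero_pow hk, mul_zero, mul_zero]
      · rw [zero_pow h0.ne', zero_mul, mul_zero]
  ext p
  by_cases hp : p = ip d 0 (Nat.zero_le _)
  · have h1 := ha.2
    have h2 := ha'.2
    rw [key, co_of_mem _ (ip d 0 (Nat.zero_le _)).2] at h1 h2
    rw [hp]
    exact h1.trans h2.symm
  · have hp' : p ∉ ({ip d 0 (Nat.zero_le _)} : Finset ↥(I d)) := by
      rw [mem_singleton]; exact hp
    rw [hTb a haT p hp', hTb a' haT' p hp']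

/-- integer points on the boundary of a square -/
noncomputable def shell (Y : ℕ) : Finset (ℤ × ℤ) :=
  (Icc (-(Y : ℤ)) Y ×ˢ Icc (-(Y : ℤ)) Y).filter fun P => max P.1.natAbs P.2.natAbs = Y

lemma card_shell (Y : ℕ) : (shell Y).card ≤ 4 * (2 * Y + 1) := by
  have hsub : shell Y ⊆ (({(Y : ℤ), -(Y : ℤ)} : Finset ℤ) ×ˢ Icc (-(Y : ℤ)) Y) ∪
      (Icc (-(Y : ℤ)) Y ×ˢ ({(Y : ℤ), -(Y : ℤ)} : Finset ℤ)) := by
    rintro ⟨x, y⟩ h
    unfold shell at h
    simp only [mem_filter, mem_product, mem_Icc] at h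
    simp only [mem_union, mem_product, mem_insert, mem_singleton, mem_Icc]
    omega
  refine (card_le_card hsub).trans ((card_union_le _ _).trans ?_)
  rw [card_product, card_product, card_Icc_H]
  have : ({(Y : ℤ), -(Y : ℤ)} : Finset ℤ).card ≤ 2 := card_le_two
  nlinarith

lemma nat_div_bound (d H Y : ℕ) (hY : 0 < Y) :
    (((2 * H / Y + 1) ^ d : ℕ) : ℝ) ≤ 2 ^ d * ((2 * H) ^ d / (Y : ℝ) ^ d + 1) := by
  have hY' : (0 : ℝ) < Y := by exact_mod_cast hY
  have h1 : ((2 * H / Y : ℕ) : ℝ) ≤ (2 * H : ℝ) / Y := by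
    have := @Nat.cast_div_le ℝ _ _ _ (2 * H) Y
    push_cast at this
    exact this
  have h2 : (0 : ℝ) ≤ (2 * H / Y : ℕ) := Nat.cast_nonneg _
  push_cast
  set n : ℝ := ((2 * H / Y : ℕ) : ℝ) with hn
  have h3 : (n + 1) ^ d ≤ 2 ^ d * (n ^ d + 1) := by
    rcases le_total n 1 with h | h
    · calc (n + 1) ^ d ≤ (2 : ℝ) ^ d := by gcongr; linarith
        _ ≤ 2 ^ d * (n ^ d + 1) := by
          have : (0 : ℝ) ≤ n ^ d := pow_nonneg h2 d
          nlinarith [pow_pos (two_pos : (0 : ℝ) < 2) d]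
    · calc (n + 1) ^ d ≤ (2 * n) ^ d := by gcongr; linarith
        _ = 2 ^ d * n ^ d := mul_pow _ _ _
        _ ≤ 2 ^ d * (n ^ d + 1) := by gcongr; linarith
  refine h3.trans ?_
  rw [← div_pow]
  gcongr

lemma sum_inv_sq (n : ℕ) : ∑ Y ∈ range (n + 1), 1 / (((Y : ℝ) + 1) ^ 2) ≤ 2 - 1 / ((n : ℝ) + 1) := by
  induction n with
  | zero => norm_num
  | succ n ih =>
    rw [sum_range_succ]
    push_cast
    have h1 : (0 : ℝ) < (n : ℝ) + 1 := by positivity
    have h2 : (0 : ℝ) < (n : ℝ) + 1 + 1 := by positivity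
    have h3 : 1 / (((n : ℝ) + 1 + 1) ^ 2) ≤ 1 / ((n : ℝ) + 1) - 1 / ((n : ℝ) + 1 + 1) := by
      have h4 : 1 / ((n : ℝ) + 1) - 1 / ((n : ℝ) + 1 + 1) =
          1 / (((n : ℝ) + 1) * ((n : ℝ) + 1 + 1)) := by
        field_simp
        ring
      rw [h4, pow_two]
      apply one_div_le_one_div_of_le (mul_pos h1 h2)
      apply mul_le_mul_of_nonneg_right _ h2.le
      linarith
    linarith

lemma sum_inv_sq' (n : ℕ) : ∑ Y ∈ range n, 1 / (((Y : ℝ) + 1) ^ 2) ≤ 2 := by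
  rcases n with _ | n
  · norm_num
  · have h1 := sum_inv_sq n
    have h2 : (0 : ℝ) < 1 / ((n : ℝ) + 1) := by positivity
    linarith

/-- the bad set of the small range -/
noncomputable def bad1 (d H : ℕ) : Finset (Cf d) := by
  classical
  exact (ibox ↥(I d) H).filter fun a => ∃ x y : ℤ, x.natAbs ≤ H ^ 2 ∧ y.natAbs ≤ H ^ 2 ∧
    Fv (co a) d x y = 0

lemma shell_bound (d H Y : ℕ) (hY : 0 < Y) (P : ℤ × ℤ) (hP : P ∈ shell Y) :
    ((ibox ↥(I d) H).filter fun a => Fv (co a) d P.1 P.2 = 0).card ≤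
      (2 * H / Y + 1) ^ d * (2 * H + 1) ^ (MM d - (d + 1)) := by
  unfold shell at hP
  rw [mem_filter] at hP
  rcases max_choice P.1.natAbs P.2.natAbs with h | h
  · rw [hP.2] at h
    have := card_zero_at_x d H P.1 P.2 (by omega)
    rwa [← h] at this
  · rw [hP.2] at h
    have := card_zero_at_y d H P.1 P.2 (by omega)
    rwa [← h] at this

theorem card_bad1 (d H : ℕ) (hd : 4 ≤ d) (hH : 1 ≤ H) :
    ((bad1 d H).card : ℝ) ≤ (1 + 48 * 2 ^ d) * (2 * H + 1) ^ (MM d - 1) := by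
  classical
  have hHr : (1 : ℝ) ≤ H := by exact_mod_cast hH
  have hM := MM_pos d
  have hsub : bad1 d H ⊆ ((ibox ↥(I d) H).filter fun a => Fv (co a) d 0 0 = 0) ∪
      (range (H ^ 2)).biUnion fun Y => (shell (Y + 1)).biUnion fun P =>
        (ibox ↥(I d) H).filter fun a => Fv (co a) d P.1 P.2 = 0 := by
    intro a ha
    unfold bad1 at ha
    rw [mem_filter] at ha
    obtain ⟨ha1, x, y, hx, hy, h0⟩ := ha
    rw [mem_union]
    by_cases hxy : x = 0 ∧ y = 0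
    · left
      rw [mem_filter]
      rw [hxy.1, hxy.2] at h0
      exact ⟨ha1, h0⟩
    · right
      rw [mem_biUnion]
      refine ⟨max x.natAbs y.natAbs - 1, ?_, ?_⟩
      · rw [mem_range]
        omega
      · rw [mem_biUnion]
        refine ⟨(x, y), ?_, ?_⟩
        · unfold shell
          simp only [mem_filter, mem_product, mem_Icc]
          omega
        · rw [mem_filter]
          exact ⟨ha1, h0⟩
  have hcard : (bad1 d H).card ≤ (2 * H + 1) ^ (MM d - 1) + ∑ Y ∈ range (H ^ 2),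
      (4 * (2 * (Y + 1) + 1)) * ((2 * H / (Y + 1) + 1) ^ d * (2 * H + 1) ^ (MM d - (d + 1))) := by
    refine (card_le_card hsub).trans ((card_union_le _ _).trans (add_le_add
      (card_zero_at_zero d H) (card_biUnion_le.trans (sum_le_sum fun Y _ => ?_))))
    refine card_biUnion_le.trans ?_
    calc ∑ P ∈ shell (Y + 1), ((ibox ↥(I d) H).filter fun a => Fv (co a) d P.1 P.2 = 0).card
        ≤ ∑ P ∈ shell (Y + 1),
          (2 * H / (Y + 1) + 1) ^ d * (2 * H + 1) ^ (MM d - (d + 1)) :=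
          sum_le_sum fun P hP => shell_bound d H (Y + 1) (Nat.succ_pos Y) P hP
      _ = (shell (Y + 1)).card * _ := by rw [sum_const, smul_eq_mul]
      _ ≤ _ := Nat.mul_le_mul_right _ (card_shell _)
  have hcast : ((bad1 d H).card : ℝ) ≤ (2 * H + 1) ^ (MM d - 1) + ∑ Y ∈ range (H ^ 2),
      (4 * (2 * ((Y : ℝ) + 1) + 1)) * ((((2 * H / (Y + 1) + 1) ^ d : ℕ) : ℝ) *
        (2 * H + 1) ^ (MM d - (d + 1))) := by
    have := @Nat.cast_le ℝ _ _ _ _ |>.2 hcard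
    refine this.trans (le_of_eq ?_)
    push_cast
    rfl
  refine hcast.trans ?_
  set B : ℝ := (2 * H + 1) ^ (MM d - (d + 1)) with hB
  have hB0 : 0 < B := by rw [hB]; positivity
  have hterm : ∀ Y ∈ range (H ^ 2), (4 * (2 * ((Y : ℝ) + 1) + 1)) *
      ((((2 * H / (Y + 1) + 1) ^ d : ℕ) : ℝ) * B) ≤
      12 * 2 ^ d * B * ((2 * H) ^ d * (1 / ((Y : ℝ) + 1) ^ 2) + (H : ℝ) ^ 2) := by
    intro Y hY
    rw [mem_range] at hY
    have h1 := nat_div_bound d H (Y + 1) (Nat.succ_pos Y)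
    push_cast at h1
    have hY1 : (1 : ℝ) ≤ (Y : ℝ) + 1 := by linarith [(Nat.cast_nonneg Y : (0 : ℝ) ≤ Y)]
    have hYH : (Y : ℝ) + 1 ≤ (H : ℝ) ^ 2 := by exact_mod_cast hY
    have h2 : (4 * (2 * ((Y : ℝ) + 1) + 1)) ≤ 12 * ((Y : ℝ) + 1) := by linarith
    have h3 : ((Y : ℝ) + 1) * (1 / ((Y : ℝ) + 1) ^ d) ≤ 1 / ((Y : ℝ) + 1) ^ 2 := by
      obtain ⟨e, rfl⟩ : ∃ e, d = e + 3 := ⟨d - 3, by omega⟩
      have hY0 : (0 : ℝ) < (Y : ℝ) + 1 := by linarith
      rw [mul_one_div, div_le_div_iff₀ (by positivity) (by positivity), one_mul,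
        ← pow_succ']
      apply pow_le_pow_right₀ hY1
      omega
    push_cast
    calc (4 * (2 * ((Y : ℝ) + 1) + 1)) * (((2 * H / (Y + 1) : ℕ) + 1) ^ d * B)
        ≤ (12 * ((Y : ℝ) + 1)) * ((2 ^ d * ((2 * H) ^ d / ((Y : ℝ) + 1) ^ d + 1)) * B) := by
          gcongr
      _ = 12 * 2 ^ d * B * ((2 * H) ^ d * (((Y : ℝ) + 1) * (1 / ((Y : ℝ) + 1) ^ d)) +
            ((Y : ℝ) + 1)) := by
          field_simp
      _ ≤ _ := by gcongr
  have hsum : ∑ Y ∈ range (H ^ 2), (4 * (2 * ((Y : ℝ) + 1) + 1)) *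
      ((((2 * H / (Y + 1) + 1) ^ d : ℕ) : ℝ) * B) ≤ 12 * 2 ^ d * B * (4 * (2 * H + 1) ^ d) := by
    refine (sum_le_sum hterm).trans ?_
    rw [← mul_sum, sum_add_distrib, ← mul_sum, sum_const, card_range, nsmul_eq_mul]
    have h1 := sum_inv_sq' (H ^ 2)
    have h2 : (((H ^ 2 : ℕ) : ℝ)) * (H : ℝ) ^ 2 ≤ (2 * H + 1) ^ d := by
      push_cast
      calc (H : ℝ) ^ 2 * (H : ℝ) ^ 2 = (H : ℝ) ^ 4 := by ring
        _ ≤ (H : ℝ) ^ d := pow_le_pow_right₀ hHr hd
        _ ≤ (2 * H + 1) ^ d := by gcongr; linarith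
    have h3 : ((2 * H : ℝ)) ^ d ≤ (2 * H + 1) ^ d := by gcongr; linarith
    have h4 : (0 : ℝ) ≤ (2 * H + 1) ^ d := by positivity
    have h5 : (0 : ℝ) ≤ (2 * (H : ℝ)) ^ d := by positivity
    gcongr
    nlinarith
  have hfin : (2 * (H : ℝ) + 1) ^ (MM d - 1) = B * (2 * H + 1) ^ d := by
    rw [hB, ← pow_add]
    congr 1
    omega
  rw [hfin] at *
  have h4 : 12 * 2 ^ d * B * (4 * (2 * (H : ℝ) + 1) ^ d) =
      48 * 2 ^ d * (B * (2 * H + 1) ^ d) := by ring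
  rw [h4] at hsum
  linarith

end Pool.Agent.R414.DN
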