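import Pool.Agent.R414.DN.Cnt
import Pool.Agent.R414.DN.Small

set_option autoImplicit false
set_option linter.unusedSectionVars false
set_option maxHeartbeats 400000

/-! Assembly. -/

open Finset

namespace Pool.Agent.R414.DN

lemma WW_scale (d : ℕ) (w : ℝ) : WW d w = WW d 1 * w := by unfold WW; ring

lemma KK_scale (d : ℕ) (w : ℝ) : KK d w = KK d 1 * w ^ (d + 1) := by
  unfold KK
  rw [WW_scale d w, mul_pow, pow_succ]
  ring

lemma QQ_scale (d : ℕ) (w : ℝ) : QQ d w = QQ d 1 * w ^ ((d + 1) * 9 + 6) := by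
  unfold QQ
  rw [KK_scale d w, mul_pow, ← pow_mul, pow_add]
  ring

/-- the exponent in the threshold -/
def mE (d : ℕ) : ℕ := ((d + 1) * 9 + 6) * d + (d + 1) * 9

lemma Th_scale (d : ℕ) (w : ℝ) : Th d w = Th d 1 * w ^ mE d := by
  unfold Th mE
  rw [QQ_scale d w, KK_scale d w, mul_pow, mul_pow, ← pow_mul, ← pow_mul, pow_add]
  ring

/-- the coefficient vectors of the curves with an integer point -/
noncomputable def zS (d H : ℕ) : Finset (Cf d) := by
  classical
  exact (ibox ↥(I d) H).filter fun a => ∃ x y : ℤ, Fv (co a) d x y = 0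

lemma mem_zS {d H : ℕ} {a : Cf d} :
    a ∈ zS d H ↔ a ∈ ibox ↥(I d) H ∧ ∃ x y : ℤ, Fv (co a) d x y = 0 := by
  classical
  unfold zS
  rw [mem_filter]

/-- the upper limit of the middle range -/
def Yn (d H G : ℕ) : ℕ := ((d + 1) * (MM d * H)) ^ G

lemma swV_inj {d : ℕ} : Function.Injective (swV (d := d)) := by
  intro a b h
  rw [← swV_swV a, ← swV_swV b, h]

theorem card_zS {d H G N : ℕ} {w : ℝ} (hL : LargeB d G N) (hd : 4 ≤ d) (hH : 1 ≤ H) (hw : 1 ≤ w) (hTh : Th d w ≤ H)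
    (hw6 : w ^ 6 ≤ H) :
    ((zS d H).card : ℝ) ≤ (10 * (3 + 2 * d * c1 d) ^ 2 + 30 * (2 * d * c1 d) ^ 5 *
        (3 + 12 * d * c1 d) ^ 3) * ((2 * (H : ℝ) + 1) ^ MM d / w) +
      ((1 + 48 * 2 ^ d) + (1 + 4 * d * (d + 1) * 3 ^ d * (3 * cR d) ^ d) +
        8 * d * (4 * KK d w * Real.log (Yn d H G) + 1) +
        N) * (2 * (H : ℝ) + 1) ^ (MM d - 1) := by
  classical
  have hwH : w ≤ H := le_trans (le_self_pow₀ hw (by norm_num)) hw6
  have hz : zS d H ⊆ ibox ↥(I d) H := by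
    intro a ha
    exact (mem_zS.1 ha).1
  have hsub : zS d H ⊆ bad1 d H ∪ ((zS d H).filter (fun a => ¬ Lead a) ∪
      ((zS d H).filter (fun a => ¬ G1 (co a) d (H / w)) ∪
      ((zS d H).filter (fun a => ¬ G2 (co a) d (WW d w) (H / w ^ 6)) ∪
      ((zS d H).filter (fun a => ¬ G1 (co (swV a)) d (H / w)) ∪
      ((zS d H).filter (fun a => ¬ G2 (co (swV a)) d (WW d w) (H / w ^ 6)) ∪
      ((zS d H).filter (fun a => Gen H w a ∧ ∃ x y : ℤ, Fv (co a) d x y = 0 ∧
        H ^ 2 < max x.natAbs y.natAbs ∧ ((max x.natAbs y.natAbs : ℕ) : ℝ) ≤ (Yn d H G : ℝ)) ∪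
      ((zS d H).filter (fun a => Gen H w a ∧ ∃ x y : ℤ, Fv (co a) d x y = 0 ∧
        ((d + 1) * (MM d * H)) ^ G < max x.natAbs y.natAbs)))))))) := by
    intro a ha
    simp only [mem_union, mem_filter]
    by_cases h1 : Lead a
    swap
    · exact Or.inr (Or.inl ⟨ha, h1⟩)
    by_cases h2 : G1 (co a) d (H / w)
    swap
    · exact Or.inr (Or.inr (Or.inl ⟨ha, h2⟩))
    by_cases h3 : G2 (co a) d (WW d w) (H / w ^ 6)
    swap
    · exact Or.inr (Or.inr (Or.inr (Or.inl ⟨ha, h3⟩)))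
    by_cases h4 : G1 (co (swV a)) d (H / w)
    swap
    · exact Or.inr (Or.inr (Or.inr (Or.inr (Or.inl ⟨ha, h4⟩))))
    by_cases h5 : G2 (co (swV a)) d (WW d w) (H / w ^ 6)
    swap
    · exact Or.inr (Or.inr (Or.inr (Or.inr (Or.inr (Or.inl ⟨ha, h5⟩)))))
    have hgen : Gen H w a := ⟨h1, h2, h3, h4, h5⟩
    obtain ⟨ha1, x, y, h0⟩ := mem_zS.1 ha
    by_cases h6 : max x.natAbs y.natAbs ≤ H ^ 2
    · left
      unfold bad1
      rw [mem_filter]
      exact ⟨ha1, x, y, (le_max_left _ _).trans h6, (le_max_right _ _).trans h6, h0⟩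
    by_cases h7 : max x.natAbs y.natAbs ≤ Yn d H G
    · refine Or.inr (Or.inr (Or.inr (Or.inr (Or.inr (Or.inr (Or.inl ⟨ha, hgen, x, y, h0,
        not_le.1 h6, ?_⟩))))))
      exact_mod_cast h7
    · exact Or.inr (Or.inr (Or.inr (Or.inr (Or.inr (Or.inr (Or.inr ⟨ha, hgen, x, y, h0,
        not_le.1 h7⟩))))))
  have b0 := card_bad1 d H hd hH
  have b1 := card_notLead hd hH ((zS d H).filter (fun a => ¬ Lead a)) ((filter_subset _ _).trans hz)
    (fun a ha => (mem_filter.1 ha).2)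
  have b2 := card_notG1 (by omega : 1 ≤ d) hw hwH
    ((zS d H).filter (fun a => ¬ G1 (co a) d (H / w))) ((filter_subset _ _).trans hz)
    (fun a ha => (mem_filter.1 ha).2)
  have b3 := card_notG2 (by omega : 2 ≤ d) hw hw6
    ((zS d H).filter (fun a => ¬ G2 (co a) d (WW d w) (H / w ^ 6))) ((filter_subset _ _).trans hz)
    (fun a ha => (mem_filter.1 ha).2)
  have b4 := card_notG1 (by omega : 1 ≤ d) hw hwH
    (((zS d H).filter (fun a => ¬ G1 (co (swV a)) d (H / w))).image swV) (by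
      intro b hb
      rw [mem_image] at hb
      obtain ⟨a, ha, rfl⟩ := hb
      exact swV_mem (hz (mem_filter.1 ha).1))
    (by
      intro b hb
      rw [mem_image] at hb
      obtain ⟨a, ha, rfl⟩ := hb
      exact (mem_filter.1 ha).2)
  rw [card_image_of_injective _ swV_inj] at b4
  have b5 := card_notG2 (by omega : 2 ≤ d) hw hw6
    (((zS d H).filter (fun a => ¬ G2 (co (swV a)) d (WW d w) (H / w ^ 6))).image swV) (by
      intro b hb
      rw [mem_image] at hb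
      obtain ⟨a, ha, rfl⟩ := hb
      exact swV_mem (hz (mem_filter.1 ha).1))
    (by
      intro b hb
      rw [mem_image] at hb
      obtain ⟨a, ha, rfl⟩ := hb
      exact (mem_filter.1 ha).2)
  rw [card_image_of_injective _ swV_inj] at b5
  have b6 := card_midr (Y₁ := (Yn d H G : ℝ)) hd hH hw hTh ((zS d H).filter (fun a => Gen H w a ∧
      ∃ x y : ℤ, Fv (co a) d x y = 0 ∧
        H ^ 2 < max x.natAbs y.natAbs ∧ ((max x.natAbs y.natAbs : ℕ) : ℝ) ≤ (Yn d H G : ℝ))) ((filter_subset _ _).trans hz)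
    (fun a ha => (mem_filter.1 ha).2.1) (fun a ha => (mem_filter.1 ha).2.2)
  have b7 := hL H w hH hw ((zS d H).filter (fun a => Gen H w a ∧ ∃ x y : ℤ,
      Fv (co a) d x y = 0 ∧
        ((d + 1) * (MM d * H)) ^ G < max x.natAbs y.natAbs)) ((filter_subset _ _).trans hz)
    (fun a ha => (mem_filter.1 ha).2.1) (fun a ha => (mem_filter.1 ha).2.2)
  have c6 : ((((zS d H).filter (fun a => Gen H w a ∧
      ∃ x y : ℤ, Fv (co a) d x y = 0 ∧
        H ^ 2 < max x.natAbs y.natAbs ∧ ((max x.natAbs y.natAbs : ℕ) : ℝ) ≤ (Yn d H G : ℝ))).card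
        : ℕ) : ℝ) ≤ 8 * d * (4 * KK d w * Real.log (Yn d H G) + 1) *
          (2 * (H : ℝ) + 1) ^ (MM d - 1) := by
    have e1 : (⌊4 * KK d w * Real.log (Yn d H G)⌋₊ : ℝ) ≤ 4 * KK d w * Real.log (Yn d H G) := by
      apply Nat.floor_le
      have := KK_one (by omega : 1 ≤ d) hw
      have h2 := Real.log_natCast_nonneg (Yn d H G)
      positivity
    calc _ ≤ ((2 * (4 * d * (⌊4 * KK d w * Real.log (Yn d H G)⌋₊ + 1)) *
          (2 * H + 1) ^ (MM d - 1) : ℕ) : ℝ) := by exact_mod_cast b6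
      _ = 8 * d * ((⌊4 * KK d w * Real.log (Yn d H G)⌋₊ : ℝ) + 1) *
          (2 * (H : ℝ) + 1) ^ (MM d - 1) := by push_cast; ring
      _ ≤ _ := by gcongr
  have c7 : ((((zS d H).filter (fun a => Gen H w a ∧ ∃ x y : ℤ,
      Fv (co a) d x y = 0 ∧
        ((d + 1) * (MM d * H)) ^ G < max x.natAbs y.natAbs)).card
        : ℕ) : ℝ) ≤ N * (2 * (H : ℝ) + 1) ^ (MM d - 1) := by
    exact_mod_cast b7
  have hcard := (card_le_card hsub).trans ((card_union_le _ _).trans (add_le_add le_rfl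
    ((card_union_le _ _).trans (add_le_add le_rfl
    ((card_union_le _ _).trans (add_le_add le_rfl
    ((card_union_le _ _).trans (add_le_add le_rfl
    ((card_union_le _ _).trans (add_le_add le_rfl
    ((card_union_le _ _).trans (add_le_add le_rfl
    (card_union_le _ _)))))))))))))
  have hcard' := (Nat.cast_le (α := ℝ)).2 hcard
  simp only [Nat.cast_add] at hcard'
  have e2 : ∀ A B : ℝ, A * B / w = A * (B / w) := fun A B => mul_div_assoc A B w
  rw [e2] at b2 b3 b4 b5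
  linarith

end Pool.Agent.R414.DN
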