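import Mathlib

set_option autoImplicit false
set_option linter.unusedSectionVars false

/-! Three integer points close to a branch. -/

open Finset

namespace Pool.Agent.R414.DN

lemma three_points {K Y α β γ δ κ e1 e2 e3 : ℝ} {x1 x2 x3 y1 y2 y3 : ℤ} (hK : 1 ≤ K)
    (hγ : |γ| ≤ 3 * K ^ 3) (hδ : |δ| ≤ 13 * K ^ 5) (hκ : 0 < κ) (hκγ : κ ≤ |γ|)
    (h12 : y1 < y2) (h23 : y2 < y3)
    (hY1 : Y ≤ |(y1 : ℝ)| ∧ |(y1 : ℝ)| ≤ 2 * Y) (hY2 : Y ≤ |(y2 : ℝ)| ∧ |(y2 : ℝ)| ≤ 2 * Y)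
    (hY3 : Y ≤ |(y3 : ℝ)| ∧ |(y3 : ℝ)| ≤ 2 * Y)
    (hL : ((y3 : ℝ) - y1) * (2 * K) ≤ Y)
    (hYK : 156 * K ^ 4 ≤ Y) (hYκ : 312 * K ^ 5 ≤ κ * Y)
    (he1 : |e1| ≤ 200 * K ^ 9 / Y ^ 3) (he2 : |e2| ≤ 200 * K ^ 9 / Y ^ 3)
    (he3 : |e3| ≤ 200 * K ^ 9 / Y ^ 3)
    (hx1 : (x1 : ℝ) = α * y1 + β + γ / y1 + δ / (y1 : ℝ) ^ 2 + e1)
    (hx2 : (x2 : ℝ) = α * y2 + β + γ / y2 + δ / (y2 : ℝ) ^ 2 + e2)
    (hx3 : (x3 : ℝ) = α * y3 + β + γ / y3 + δ / (y3 : ℝ) ^ 2 + e3) :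
    κ * ((y2 : ℝ) - y1) ≤ 12800 * K ^ 9 ∧
      |((x2 : ℝ) - x1) - α * (y2 - y1)| ≤ 432 * K ^ 9 / Y := by
  have hK0 : 0 < K := by linarith
  have hKp : ∀ m n : ℕ, m ≤ n → K ^ m ≤ K ^ n := fun m n h => pow_le_pow_right₀ hK h
  have hY : 0 < Y := by have : 0 < 156 * K ^ 4 := by positivity
                        linarith
  have hYK1 : 1 ≤ Y := by
    have : 1 ≤ K ^ 4 := one_le_pow₀ hK
    linarith
  have y10 : (y1 : ℝ) ≠ 0 := by
    intro h; rw [h, abs_zero] at hY1; linarith [hY1.1]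
  have y20 : (y2 : ℝ) ≠ 0 := by
    intro h; rw [h, abs_zero] at hY2; linarith [hY2.1]
  have y30 : (y3 : ℝ) ≠ 0 := by
    intro h; rw [h, abs_zero] at hY3; linarith [hY3.1]
  have d12 : (1 : ℝ) ≤ (y2 : ℝ) - y1 := by
    have : (y1 : ℝ) + 1 ≤ y2 := by exact_mod_cast h12
    linarith
  have d23 : (1 : ℝ) ≤ (y3 : ℝ) - y2 := by
    have : (y2 : ℝ) + 1 ≤ y3 := by exact_mod_cast h23
    linarith
  set L : ℝ := (y3 : ℝ) - y1 with hLd
  have hL0 : 0 < L := by rw [hLd]; linarith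
  have hL12 : (y2 : ℝ) - y1 ≤ L := by rw [hLd]; linarith
  have hL23 : (y3 : ℝ) - y2 ≤ L := by rw [hLd]; linarith
  -- the determinant
  set Dt : ℝ := ((y2 : ℝ) - y1) * (x3 - x1) - (y3 - y1) * (x2 - x1) with hDt
  set Δ : ℝ := ((y2 : ℝ) - y1) * (y3 - y1) * (y3 - y2) with hΔ
  have hΔ0 : 0 < Δ := by rw [hΔ, ← hLd]; positivity
  set Pr : ℝ := (y1 : ℝ) * y2 * y3 with hPr
  have hPr0 : Pr ≠ 0 := mul_ne_zero (mul_ne_zero y10 y20) y30
  set S : ℝ := (y1 : ℝ) * y2 + y1 * y3 + y2 * y3 with hS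
  set E : ℝ := ((y2 : ℝ) - y1) * (e3 - e1) - (y3 - y1) * (e2 - e1) with hE
  have hD : Dt = γ * (Δ / Pr) + δ * (Δ * S / Pr ^ 2) + E := by
    rw [hDt, hx1, hx2, hx3, hE, hΔ, hPr, hS]
    field_simp
    ring
  have hPrabs : |Pr| = |(y1 : ℝ)| * |(y2 : ℝ)| * |(y3 : ℝ)| := by rw [hPr, abs_mul, abs_mul]
  have hPrlo : Y ^ 3 ≤ |Pr| := by
    rw [hPrabs]
    calc Y ^ 3 = Y * Y * Y := by ring
      _ ≤ _ := by gcongr <;> first | exact hY1.1 | exact hY2.1 | exact hY3.1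
  have hPrhi : |Pr| ≤ 8 * Y ^ 3 := by
    rw [hPrabs]
    calc |(y1 : ℝ)| * |(y2 : ℝ)| * |(y3 : ℝ)| ≤ (2 * Y) * (2 * Y) * (2 * Y) := by
          gcongr <;> first | exact hY1.2 | exact hY2.2 | exact hY3.2
      _ = _ := by ring
  have hSabs : |S| ≤ 12 * Y ^ 2 := by
    rw [hS]
    calc |(y1 : ℝ) * y2 + y1 * y3 + y2 * y3| ≤
          |(y1 : ℝ)| * |(y2 : ℝ)| + |(y1 : ℝ)| * |(y3 : ℝ)| + |(y2 : ℝ)| * |(y3 : ℝ)| := by
          rw [← abs_mul, ← abs_mul, ← abs_mul]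
          exact (abs_add_le _ _).trans (add_le_add (abs_add_le _ _) le_rfl)
      _ ≤ (2 * Y) * (2 * Y) + (2 * Y) * (2 * Y) + (2 * Y) * (2 * Y) := by
          gcongr <;> first | exact hY1.2 | exact hY2.2 | exact hY3.2
      _ = _ := by ring
  have hEabs : |E| ≤ 4 * L * (200 * K ^ 9 / Y ^ 3) := by
    rw [hE]
    calc |((y2 : ℝ) - y1) * (e3 - e1) - (y3 - y1) * (e2 - e1)|
        ≤ |(y2 : ℝ) - y1| * (|e3| + |e1|) + |(y3 : ℝ) - y1| * (|e2| + |e1|) := by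
          refine (abs_sub _ _).trans ?_
          rw [abs_mul, abs_mul]
          gcongr
          · exact abs_sub _ _
          · exact abs_sub _ _
      _ ≤ L * (200 * K ^ 9 / Y ^ 3 + 200 * K ^ 9 / Y ^ 3) +
          L * (200 * K ^ 9 / Y ^ 3 + 200 * K ^ 9 / Y ^ 3) := by
          rw [abs_of_pos (by linarith : (0 : ℝ) < (y2 : ℝ) - y1), ← hLd, abs_of_pos hL0]
          gcongr
      _ = _ := by ring
  have hΔL : Δ ≤ L ^ 3 := by
    rw [hΔ, ← hLd]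
    calc ((y2 : ℝ) - y1) * L * (y3 - y2) ≤ L * L * L := by gcongr
      _ = _ := by ring
  have hLY : L ≤ Y / (2 * K) := by rw [le_div_iff₀ (by positivity)]; exact hL
  have hΔY : Δ ≤ Y ^ 3 / (8 * K ^ 3) := by
    calc Δ ≤ L ^ 3 := hΔL
      _ ≤ (Y / (2 * K)) ^ 3 := by gcongr
      _ = _ := by rw [div_pow, mul_pow]; norm_num
  have hY3p : 0 < Y ^ 3 := by positivity
  have t1 : |γ * (Δ / Pr)| ≤ 3 / 8 := by
    rw [abs_mul, abs_div, abs_of_pos hΔ0]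
    calc |γ| * (Δ / |Pr|) ≤ (3 * K ^ 3) * ((Y ^ 3 / (8 * K ^ 3)) / Y ^ 3) := by gcongr
      _ = 3 / 8 := by field_simp
  have t2a : |Δ * S / Pr ^ 2| ≤ Δ / |Pr| * (12 / Y) := by
    rw [abs_div, abs_mul, abs_of_pos hΔ0, abs_pow, pow_two |Pr|]
    have hPrp : 0 < |Pr| := by linarith
    calc Δ * |S| / (|Pr| * |Pr|) = Δ / |Pr| * (|S| / |Pr|) := by field_simp
      _ ≤ Δ / |Pr| * (12 * Y ^ 2 / Y ^ 3) := by gcongr
      _ = _ := by field_simp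
  have t2 : |δ * (Δ * S / Pr ^ 2)| ≤ 1 / 8 := by
    rw [abs_mul]
    calc |δ| * |Δ * S / Pr ^ 2| ≤ (13 * K ^ 5) * (((Y ^ 3 / (8 * K ^ 3)) / Y ^ 3) * (12 / Y)) := by
          gcongr
          refine t2a.trans ?_
          gcongr
      _ = (19.5 * K ^ 2) / Y := by field_simp; norm_num
      _ ≤ 1 / 8 := by
          rw [div_le_div_iff₀ hY (by norm_num)]
          have := hKp 2 4 (by norm_num)
          linarith
  have t3 : |E| ≤ 1 / 8 := by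
    refine hEabs.trans ?_
    calc 4 * L * (200 * K ^ 9 / Y ^ 3) ≤ 4 * (Y / (2 * K)) * (200 * K ^ 9 / Y ^ 3) := by gcongr
      _ = 400 * K ^ 8 / Y ^ 2 := by field_simp; ring
      _ ≤ 1 / 8 := by
          rw [div_le_div_iff₀ (by positivity) (by norm_num)]
          have h1 : (156 * K ^ 4) ^ 2 ≤ Y ^ 2 := by gcongr
          have h2 : (156 * K ^ 4) ^ 2 = 24336 * K ^ 8 := by ring
          have h3 := pow_pos hK0 8
          linarith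
  have hDlt : |Dt| < 1 := by
    rw [hD]
    have := abs_add_three (γ * (Δ / Pr)) (δ * (Δ * S / Pr ^ 2)) E
    linarith
  have hDint : Dt = (((y2 - y1) * (x3 - x1) - (y3 - y1) * (x2 - x1) : ℤ) : ℝ) := by
    rw [hDt]; push_cast; ring
  have hD0 : Dt = 0 := by
    rw [hDint] at hDlt ⊢
    rw [← Int.cast_abs] at hDlt
    have h1 : |(y2 - y1) * (x3 - x1) - (y3 - y1) * (x2 - x1)| < 1 := by exact_mod_cast hDlt
    rw [Int.abs_lt_one_iff] at h1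
    rw [h1]
    simp
  rw [hD0] at hD
  have hPrp : 0 < |Pr| := by linarith
  have hγ0 : 0 < |γ| := lt_of_lt_of_le hκ hκγ
  have key : |γ| * (Δ / |Pr|) ≤ 8 * L * (200 * K ^ 9 / Y ^ 3) := by
    have h1 : |γ * (Δ / Pr)| ≤ |δ| * (Δ / |Pr| * (12 / Y)) + |E| := by
      have h2 : γ * (Δ / Pr) = -(δ * (Δ * S / Pr ^ 2) + E) := by linarith
      rw [h2, abs_neg]
      refine (abs_add_le _ _).trans ?_
      rw [abs_mul]
      gcongr
    rw [abs_mul, abs_div, abs_of_pos hΔ0] at h1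
    have h3 : |δ| * (Δ / |Pr| * (12 / Y)) ≤ |γ| / 2 * (Δ / |Pr|) := by
      have h4 : |δ| * (12 / Y) ≤ |γ| / 2 := by
        rw [mul_div_assoc', div_le_div_iff₀ hY two_pos]
        have h5 : κ * Y ≤ |γ| * Y := mul_le_mul_of_nonneg_right hκγ hY.le
        linarith
      calc |δ| * (Δ / |Pr| * (12 / Y)) = (|δ| * (12 / Y)) * (Δ / |Pr|) := by ring
        _ ≤ _ := by gcongr
    linarith
  have key2 : κ * (((y2 : ℝ) - y1) * (y3 - y2)) ≤ 12800 * K ^ 9 := by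
    have h1 : κ * (Δ / (8 * Y ^ 3)) ≤ 8 * L * (200 * K ^ 9 / Y ^ 3) := by
      refine le_trans ?_ key
      gcongr
    have h2 : κ * Δ ≤ 12800 * K ^ 9 * L := by
      have h3 : κ * (Δ / (8 * Y ^ 3)) * (8 * Y ^ 3) ≤
          8 * L * (200 * K ^ 9 / Y ^ 3) * (8 * Y ^ 3) := by gcongr
      have e1 : κ * (Δ / (8 * Y ^ 3)) * (8 * Y ^ 3) = κ * Δ := by field_simp
      have e2 : 8 * L * (200 * K ^ 9 / Y ^ 3) * (8 * Y ^ 3) = 12800 * K ^ 9 * L := by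
        field_simp; ring
      rw [e1, e2] at h3
      exact h3
    have h4 : κ * Δ = κ * (((y2 : ℝ) - y1) * (y3 - y2)) * L := by rw [hΔ, ← hLd]; ring
    rw [h4] at h2
    exact le_of_mul_le_mul_right h2 hL0
  refine ⟨?_, ?_⟩
  · refine le_trans ?_ key2
    have : (y2 : ℝ) - y1 ≤ ((y2 : ℝ) - y1) * (y3 - y2) :=
      le_mul_of_one_le_right (by linarith) d23
    exact mul_le_mul_of_nonneg_left this hκ.le
  · have h1 : ((x2 : ℝ) - x1) - α * (y2 - y1) =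
        (γ / y2 - γ / y1) + (δ / (y2 : ℝ) ^ 2 - δ / (y1 : ℝ) ^ 2) + (e2 - e1) := by
      rw [hx1, hx2]; ring
    rw [h1]
    have b1 : ∀ z : ℤ, Y ≤ |(z : ℝ)| → |γ / z| ≤ 3 * K ^ 3 / Y := by
      intro z hz
      rw [abs_div]
      gcongr
    have b2 : ∀ z : ℤ, Y ≤ |(z : ℝ)| → |δ / (z : ℝ) ^ 2| ≤ 13 * K ^ 5 / Y := by
      intro z hz
      rw [abs_div, abs_pow]
      have : Y ≤ |(z : ℝ)| ^ 2 := hz.trans (le_self_pow₀ (hYK1.trans hz) two_ne_zero)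
      gcongr
    have b3 : ∀ e : ℝ, |e| ≤ 200 * K ^ 9 / Y ^ 3 → |e| ≤ 200 * K ^ 9 / Y := by
      intro e he
      refine he.trans ?_
      gcongr
      calc Y = Y ^ 1 := (pow_one Y).symm
        _ ≤ Y ^ 3 := pow_le_pow_right₀ hYK1 (by norm_num)
    calc |(γ / y2 - γ / y1) + (δ / (y2 : ℝ) ^ 2 - δ / (y1 : ℝ) ^ 2) + (e2 - e1)|
        ≤ (|γ / y2| + |γ / y1|) + (|δ / (y2 : ℝ) ^ 2| + |δ / (y1 : ℝ) ^ 2|) + (|e2| + |e1|) := by
          refine (abs_add_three _ _ _).trans ?_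
          gcongr
          · exact abs_sub _ _
          · exact abs_sub _ _
          · exact abs_sub _ _
      _ ≤ (3 * K ^ 3 / Y + 3 * K ^ 3 / Y) + (13 * K ^ 5 / Y + 13 * K ^ 5 / Y) +
          (200 * K ^ 9 / Y + 200 * K ^ 9 / Y) := by
          gcongr
          · exact b1 y2 hY2.1
          · exact b1 y1 hY1.1
          · exact b2 y2 hY2.1
          · exact b2 y1 hY1.1
          · exact b3 e2 he2
          · exact b3 e1 he1
      _ = (6 * K ^ 3 + 26 * K ^ 5 + 400 * K ^ 9) / Y := by ring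
      _ ≤ _ := by
          gcongr
          have e1 := hKp 3 9 (by norm_num)
          have e2 := hKp 5 9 (by norm_num)
          linarith

end Pool.Agent.R414.DN
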