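import Pool.Agent.R414.DN.Exp
import Pool.Agent.R414.DN.Three

set_option autoImplicit false
set_option linter.unusedSectionVars false

/-! Integer points are attached to the real asymptotes. -/

open Finset

namespace Pool.Agent.R414.DN

/-- first genericity condition -/
def G1 (c : ℕ → ℕ → ℤ) (d : ℕ) (δ : ℝ) : Prop :=
  ∀ t : ℝ, |t| ≤ 2 → δ ≤ |TT c d 0 t| ∨ δ ≤ |TT c d 1 t|

/-- second genericity condition -/
def G2 (c : ℕ → ℕ → ℤ) (d : ℕ) (U δ : ℝ) : Prop :=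
  ∀ t u : ℝ, |t| ≤ 2 → |u| ≤ U → δ ≤ |TT c d 0 t| ∨ δ ≤ |TT c (d - 1) 0 t + TT c d 1 t * u| ∨
    δ ≤ |TT c (d - 2) 0 t + TT c (d - 1) 1 t * u + TT c d 2 t * u ^ 2|

/-- the leading form is small at an integer point of the curve -/
lemma lead_small {c : ℕ → ℕ → ℤ} {d : ℕ} {H : ℝ} (hc : ∀ k i, |(c k i : ℝ)| ≤ H) {x y : ℤ}
    (hy : y ≠ 0) (hxy : |x| ≤ |y|) (h0 : Fv c d x y = 0) :
    |TT c d 0 ((x : ℝ) / y)| ≤ d * c1 d * H / |(y : ℝ)| := by
  have hH : 0 ≤ H := (abs_nonneg _).trans (hc 0 0)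
  have hy' : (y : ℝ) ≠ 0 := by exact_mod_cast hy
  have hy1 : 1 ≤ |(y : ℝ)| := by
    rw [← Int.cast_abs]
    exact_mod_cast Int.one_le_abs hy
  have hy0 : 0 < |(y : ℝ)| := by linarith
  have ht : |(x : ℝ) / y| ≤ 2 := by
    rw [abs_div, div_le_iff₀ hy0]
    have : |(x : ℝ)| ≤ |(y : ℝ)| := by
      rw [← Int.cast_abs, ← Int.cast_abs]
      exact_mod_cast hxy
    linarith
  have h1 := Fv_eq c d x y hy
  rw [h0, Int.cast_zero, sum_range_succ] at h1
  have h2 : TT c d 0 ((x : ℝ) / y) =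
      -∑ k ∈ range d, TT c k 0 ((x : ℝ) / y) * ((y : ℝ) ^ k / (y : ℝ) ^ d) := by
    have h3 : (y : ℝ) ^ d * TT c d 0 ((x : ℝ) / y) =
        -∑ k ∈ range d, (y : ℝ) ^ k * TT c k 0 ((x : ℝ) / y) := by linarith
    have h4 : (y : ℝ) ^ d ≠ 0 := pow_ne_zero d hy'
    apply mul_left_cancel₀ h4
    rw [h3, mul_neg, mul_sum]
    congr 1
    refine sum_congr rfl fun k _ => ?_
    field_simp
  rw [h2, abs_neg]
  calc |∑ k ∈ range d, TT c k 0 ((x : ℝ) / y) * ((y : ℝ) ^ k / (y : ℝ) ^ d)|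
      ≤ ∑ k ∈ range d, |TT c k 0 ((x : ℝ) / y) * ((y : ℝ) ^ k / (y : ℝ) ^ d)| :=
        abs_sum_le_sum_abs _ _
    _ ≤ ∑ _k ∈ range d, (c1 d * H) * (1 / |(y : ℝ)|) := by
        apply sum_le_sum
        intro k hk
        rw [mem_range] at hk
        rw [abs_mul, abs_div, abs_pow, abs_pow]
        have h5 := TT_le hc hk.le 0 ht
        have h6 : |(y : ℝ)| ^ k / |(y : ℝ)| ^ d ≤ 1 / |(y : ℝ)| := by
          rw [div_le_div_iff₀ (by positivity) hy0, one_mul, ← pow_succ]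
          exact pow_le_pow_right₀ hy1 hk
        have h7 : 0 ≤ c1 d * H := mul_nonneg (by linarith [c1_pos d]) hH
        gcongr
    _ = _ := by
        rw [sum_const, card_range, nsmul_eq_mul]
        ring

/-- existence of the asymptote -/
lemma exists_root {c : ℕ → ℕ → ℤ} {d : ℕ} (hd : 1 ≤ d) {H w : ℝ} (hc : ∀ k i, |(c k i : ℝ)| ≤ H)
    (hH : 1 ≤ H) (hw : 1 ≤ w) (hG : G1 c d (H / w)) {x y : ℤ} (hxy : |x| ≤ |y|)
    (hyY : 4 * d ^ 2 * c1 d ^ 2 * w ^ 2 ≤ |(y : ℝ)|) (h0 : Fv c d x y = 0) :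
    ∃ α : ℝ, |α| ≤ 2 ∧ TT c d 0 α = 0 ∧ H / (2 * w) ≤ |TT c d 1 α| ∧
      |(x : ℝ) - α * y| ≤ 2 * d * c1 d * w := by
  have hc1 := c1_pos d
  have hd1 : (1 : ℝ) ≤ d := by exact_mod_cast hd
  have hbig : 4 * d * c1 d * w ^ 2 ≤ 4 * d ^ 2 * c1 d ^ 2 * w ^ 2 := by
    have e1 : (d : ℝ) ≤ d ^ 2 := by nlinarith
    have e2 : c1 d ≤ c1 d ^ 2 := by nlinarith
    gcongr
  have hy1 : 4 ≤ |(y : ℝ)| := by
    have : 4 * 1 * 1 * (1 : ℝ) ^ 2 ≤ 4 * d * c1 d * w ^ 2 := by gcongr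
    linarith
  have hy0 : 0 < |(y : ℝ)| := by linarith
  have hyne : y ≠ 0 := by
    rintro rfl
    simp at hy0
  have hy' : (y : ℝ) ≠ 0 := by exact_mod_cast hyne
  set t : ℝ := (x : ℝ) / y with ht
  have ht1 : |t| ≤ 1 := by
    rw [ht, abs_div, div_le_one hy0, ← Int.cast_abs, ← Int.cast_abs]
    exact_mod_cast hxy
  have hs := lead_small hc hyne hxy h0
  rw [← ht] at hs
  have hHw : 0 < H / w := by positivity
  have hlt : |TT c d 0 t| < H / w := by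
    refine lt_of_le_of_lt hs ?_
    rw [div_lt_div_iff₀ hy0 (by linarith)]
    have e1 : d * c1 d * w * 1 ≤ d * c1 d * w * w := by gcongr
    have e3 : 0 < d * c1 d * w ^ 2 := by positivity
    have e2 : d * c1 d * w < |(y : ℝ)| := by nlinarith
    calc d * c1 d * H * w = H * (d * c1 d * w) := by ring
      _ < H * |(y : ℝ)| := by gcongr
  have hT1 : H / w ≤ |TT c d 1 t| := by
    rcases hG t (by linarith) with h | h
    · exact absurd h (not_le.2 hlt)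
    · exact h
  set ρ : ℝ := 2 * |TT c d 0 t| * w / H with hρ
  have hρ0 : 0 ≤ ρ := by rw [hρ]; positivity
  have hρy : ρ * |(y : ℝ)| ≤ 2 * d * c1 d * w := by
    have : |TT c d 0 t| * |(y : ℝ)| ≤ d * c1 d * H := by
      rw [le_div_iff₀ hy0] at hs
      exact hs
    rw [hρ]
    calc 2 * |TT c d 0 t| * w / H * |(y : ℝ)| = 2 * w / H * (|TT c d 0 t| * |(y : ℝ)|) := by ring
      _ ≤ 2 * w / H * (d * c1 d * H) := by gcongr
      _ = _ := by field_simp
  have hρw : d * c1 d * ρ ≤ 1 / (2 * w) := by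
    rw [le_div_iff₀ (by positivity)]
    have e1 : d * c1 d * ρ * (2 * w) * |(y : ℝ)| ≤ 1 * |(y : ℝ)| := by
      calc d * c1 d * ρ * (2 * w) * |(y : ℝ)| = 2 * d * c1 d * w * (ρ * |(y : ℝ)|) := by ring
        _ ≤ 2 * d * c1 d * w * (2 * d * c1 d * w) := by gcongr
        _ = 4 * d ^ 2 * c1 d ^ 2 * w ^ 2 := by ring
        _ ≤ _ := by linarith
    exact le_of_mul_le_mul_right e1 hy0
  have hρ1 : ρ ≤ 1 := by
    have e1 : 1 * 1 * ρ ≤ d * c1 d * ρ := by gcongr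
    have e2 : 1 / (2 * w) ≤ 1 := by
      rw [div_le_one (by positivity)]
      linarith
    linarith
  -- values at `t + h`, `|h| = ρ`
  have hval : ∀ h : ℝ, |h| = ρ → |TT c d 0 (t + h) - (TT c d 0 t + TT c d 1 t * h)| ≤
      (d * c1 d * ρ) * (H * ρ) := by
    intro h hh
    obtain ⟨e, rfl⟩ : ∃ e, d = e + 1 := ⟨d - 1, by omega⟩
    rw [TT_taylor c (le_refl (e + 1)) t h, sum_range_succ', sum_range_succ']
    simp only [pow_zero, mul_one, zero_add, pow_one]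
    have : ∑ k ∈ range e, TT c (e + 1) (k + 1 + 1) t * h ^ (k + 1 + 1) + TT c (e + 1) 1 t * h +
        TT c (e + 1) 0 t - (TT c (e + 1) 0 t + TT c (e + 1) 1 t * h) =
        ∑ k ∈ range e, TT c (e + 1) (k + 1 + 1) t * h ^ (k + 1 + 1) := by ring
    rw [this]
    calc |∑ k ∈ range e, TT c (e + 1) (k + 1 + 1) t * h ^ (k + 1 + 1)|
        ≤ ∑ k ∈ range e, |TT c (e + 1) (k + 1 + 1) t * h ^ (k + 1 + 1)| := abs_sum_le_sum_abs _ _
      _ ≤ ∑ _k ∈ range e, (c1 (e + 1) * H) * ρ ^ 2 := by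
          apply sum_le_sum
          intro k _
          rw [abs_mul, abs_pow, hh]
          have h5 := TT_le hc (le_refl (e + 1)) (k + 1 + 1) (by linarith : |t| ≤ 2)
          have h6 : ρ ^ (k + 1 + 1) ≤ ρ ^ 2 := pow_le_pow_of_le_one hρ0 hρ1 (by omega)
          have h7 : 0 ≤ c1 (e + 1) * H := by positivity
          gcongr
      _ = e * ((c1 (e + 1) * H) * ρ ^ 2) := by rw [sum_const, card_range, nsmul_eq_mul]
      _ ≤ ((e + 1 : ℕ) : ℝ) * ((c1 (e + 1) * H) * ρ ^ 2) := by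
          gcongr
          omega
      _ = _ := by ring
  have habs2 : ∀ h : ℝ, |h| ≤ ρ → |t + h| ≤ 2 := by
    intro h hh
    calc |t + h| ≤ |t| + |h| := abs_add_le _ _
      _ ≤ 2 := by linarith
  have hmain : H * ρ / (2 * w) + |TT c d 0 t| ≤ |TT c d 1 t| * ρ := by
    have e1 : |TT c d 0 t| = H * ρ / (2 * w) := by
      rw [hρ]; field_simp
    have e2 : H / w * ρ ≤ |TT c d 1 t| * ρ := by gcongr
    have e3 : H / w * ρ = H * ρ / (2 * w) + H * ρ / (2 * w) := by field_simp; ring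
    linarith
  have herr : (d * c1 d * ρ) * (H * ρ) ≤ H * ρ / (2 * w) := by
    calc (d * c1 d * ρ) * (H * ρ) ≤ (1 / (2 * w)) * (H * ρ) := by gcongr
      _ = _ := by ring
  have hroot : ∃ α ∈ Set.Icc (t - ρ) (t + ρ), TT c d 0 α = 0 := by
    have hp := abs_le.1 (hval ρ (abs_of_nonneg hρ0))
    have hm := abs_le.1 (hval (-ρ) (by rw [abs_neg]; exact abs_of_nonneg hρ0))
    have hf := abs_le.1 (le_refl |TT c d 0 t|)
    have hle : t - ρ ≤ t + ρ := by linarith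
    rw [← sub_eq_add_neg] at hm
    rcases abs_cases (TT c d 1 t) with ⟨h1, _⟩ | ⟨h1, _⟩
    · rw [h1] at hmain
      have := intermediate_value_Icc hle (TT_cont c d 0).continuousOn
      obtain ⟨α, h2, h3⟩ := this (Set.mem_Icc.2 ⟨(by nlinarith : TT c d 0 (t - ρ) ≤ 0),
        (by nlinarith : 0 ≤ TT c d 0 (t + ρ))⟩)
      exact ⟨α, h2, h3⟩
    · rw [h1] at hmain
      have := intermediate_value_Icc' hle (TT_cont c d 0).continuousOn
      obtain ⟨α, h2, h3⟩ := this (Set.mem_Icc.2 ⟨(by nlinarith : TT c d 0 (t + ρ) ≤ 0),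
        (by nlinarith : 0 ≤ TT c d 0 (t - ρ))⟩)
      exact ⟨α, h2, h3⟩
  obtain ⟨α, hα, hα0⟩ := hroot
  have hαt : |α - t| ≤ ρ := by
    rw [abs_le]
    constructor <;> linarith [hα.1, hα.2]
  have hα2 : |α| ≤ 2 := by
    have := habs2 (α - t) hαt
    rwa [add_sub_cancel] at this
  refine ⟨α, hα2, hα0, ?_, ?_⟩
  · have h1 := TT_lip hc (le_refl d) 1 hα2 (by linarith : |t| ≤ 2)
    have h2 : d * c1 d * H * |α - t| ≤ H / (2 * w) := by
      calc d * c1 d * H * |α - t| ≤ d * c1 d * H * ρ := by gcongr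
        _ = H * (d * c1 d * ρ) := by ring
        _ ≤ H * (1 / (2 * w)) := by gcongr
        _ = _ := by ring
    have h3 : |TT c d 1 t| ≤ |TT c d 1 α| + |TT c d 1 α - TT c d 1 t| := by
      have := abs_sub_abs_le_abs_sub (TT c d 1 t) (TT c d 1 α)
      rw [abs_sub_comm] at this
      linarith
    have h4 : H / w = H / (2 * w) + H / (2 * w) := by field_simp; ring
    linarith
  · have h1 : (x : ℝ) - α * y = (t - α) * y := by
      rw [ht]; field_simp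
    rw [h1, abs_mul, abs_sub_comm]
    calc |α - t| * |(y : ℝ)| ≤ ρ * |(y : ℝ)| := by gcongr
      _ ≤ _ := hρy

end Pool.Agent.R414.DN
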