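import Mathlib

set_option autoImplicit false
set_option linter.unusedSectionVars false

/-! Counting integer vectors in a box. -/

open Finset

namespace Pool.Agent.R414.DN

section gen

variable {ι : Type} [Fintype ι] [DecidableEq ι]

/-- integer vectors with entries of absolute value at most `H` -/
noncomputable def ibox (ι : Type) [Fintype ι] [DecidableEq ι] (H : ℕ) : Finset (ι → ℤ) :=
  Fintype.piFinset fun _ => Icc (-(H : ℤ)) H

lemma mem_ibox {H : ℕ} {a : ι → ℤ} : a ∈ ibox ι H ↔ ∀ i, |a i| ≤ H := by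
  unfold ibox
  simp only [Fintype.mem_piFinset, mem_Icc, abs_le]

lemma card_Icc_H (H : ℕ) : (Icc (-(H : ℤ)) H).card = 2 * H + 1 := by
  rw [Int.card_Icc]
  omega

lemma card_ibox (H : ℕ) : (ibox ι H).card = (2 * H + 1) ^ Fintype.card ι := by
  unfold ibox
  rw [Fintype.card_piFinset, prod_const, card_Icc_H, card_univ]

/-- the vectors of the box that vanish on `J` -/
noncomputable def ibox0 (H : ℕ) (J : Finset ι) : Finset (ι → ℤ) :=
  Fintype.piFinset fun i => if i ∈ J then {0} else Icc (-(H : ℤ)) H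

lemma card_ibox0 (H : ℕ) (J : Finset ι) :
    (ibox0 H J).card = (2 * H + 1) ^ (Fintype.card ι - J.card) := by
  unfold ibox0
  rw [Fintype.card_piFinset]
  have h1 : ∀ i, (if i ∈ J then ({0} : Finset ℤ) else Icc (-(H : ℤ)) H).card =
      if i ∈ J then 1 else (2 * H + 1) := by
    intro i
    split_ifs
    · rw [card_singleton]
    · rw [card_Icc_H]
  rw [prod_congr rfl fun i _ => h1 i, prod_ite, prod_const_one, one_mul, prod_const]
  congr 1
  rw [← card_univ, ← card_sdiff_of_subset (subset_univ J)]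
  congr 1
  ext i
  simp

/-- **Fibre bound.** -/
lemma card_fiber {H : ℕ} {S : Finset (ι → ℤ)} (hS : S ⊆ ibox ι H) (J : Finset ι) (B : ℕ)
    (h : ∀ b : ι → ℤ, ∀ T ⊆ S, (∀ a ∈ T, ∀ i ∉ J, a i = b i) → T.card ≤ B) :
    S.card ≤ B * (2 * H + 1) ^ (Fintype.card ι - J.card) := by
  classical
  let r : (ι → ℤ) → (ι → ℤ) := fun a i => if i ∈ J then 0 else a i
  have h1 : S.card ≤ B * (S.image r).card := by
    apply card_le_mul_card_image
    intro b _
    refine h b _ (filter_subset _ _) ?_
    intro a ha i hi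
    rw [mem_filter] at ha
    rw [← ha.2]
    simp only [r]
    rw [if_neg hi]
  refine h1.trans (Nat.mul_le_mul_left _ ?_)
  rw [← card_ibox0]
  apply card_le_card
  intro b hb
  rw [mem_image] at hb
  obtain ⟨a, ha, rfl⟩ := hb
  have h2 := mem_ibox.1 (hS ha)
  unfold ibox0
  rw [Fintype.mem_piFinset]
  intro i
  simp only [r]
  split_ifs
  · exact mem_singleton_self 0
  · rw [mem_Icc, ← abs_le]
    exact h2 i

lemma int_window {S : Finset ℤ} {c δ : ℝ} (hδ : 0 ≤ δ) (h : ∀ n ∈ S, |(n : ℝ) - c| ≤ δ) :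
    (S.card : ℝ) ≤ 2 * δ + 1 := by
  have h1 : S ⊆ Icc ⌈c - δ⌉ ⌊c + δ⌋ := by
    intro n hn
    have := abs_le.1 (h n hn)
    rw [mem_Icc, Int.ceil_le, Int.le_floor]
    constructor <;> linarith [this.1, this.2]
  have h2 : (S.card : ℝ) ≤ ((Icc ⌈c - δ⌉ ⌊c + δ⌋).card : ℝ) := by
    exact_mod_cast card_le_card h1
  refine h2.trans ?_
  rw [Int.card_Icc]
  have h3 : (((⌊c + δ⌋ + 1 - ⌈c - δ⌉).toNat : ℕ) : ℝ) ≤ max ((⌊c + δ⌋ + 1 - ⌈c - δ⌉ : ℤ) : ℝ) 0 := by
    have : ((⌊c + δ⌋ + 1 - ⌈c - δ⌉).toNat : ℤ) = max (⌊c + δ⌋ + 1 - ⌈c - δ⌉) 0 :=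
      Int.toNat_eq_max _
    have h4 : (((⌊c + δ⌋ + 1 - ⌈c - δ⌉).toNat : ℤ) : ℝ) =
        ((max (⌊c + δ⌋ + 1 - ⌈c - δ⌉) 0 : ℤ) : ℝ) := by rw [this]
    rw [Int.cast_natCast] at h4
    rw [h4, Int.cast_max, Int.cast_zero]
  refine h3.trans (max_le ?_ (by linarith))
  push_cast
  have h5 := Int.floor_le (c + δ)
  have h6 := Int.le_ceil (c - δ)
  linarith

/-- one coordinate in a window -/
lemma card_window {S : Finset (ι → ℤ)} (i : ι) (g : (ι → ℤ) → ℝ)
    (hg : ∀ a n, g (Function.update a i n) = g a) {δ : ℝ} (hδ : 0 ≤ δ)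
    (h : ∀ a ∈ S, |(a i : ℝ) - g a| ≤ δ) :
    (S.card : ℝ) ≤ (2 * δ + 1) * (S.image fun a => Function.update a i 0).card := by
  classical
  have h1 : S.card ≤ ⌊2 * δ + 1⌋₊ * (S.image fun a => Function.update a i 0).card := by
    apply card_le_mul_card_image
    intro b _
    rw [Nat.le_floor_iff (by linarith)]
    have h2 : (S.filter fun a => Function.update a i 0 = b).card =
        ((S.filter fun a => Function.update a i 0 = b).image fun a => a i).card := by
      rw [card_image_of_injOn]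
      intro a ha a' ha' haa
      rw [mem_coe, mem_filter] at ha ha'
      simp only at haa
      have h3 : a = Function.update b i (a i) := by
        rw [← ha.2, Function.update_idem, Function.update_eq_self]
      have h4 : a' = Function.update b i (a' i) := by
        rw [← ha'.2, Function.update_idem, Function.update_eq_self]
      rw [h3, h4, haa]
    rw [h2]
    apply int_window hδ (c := g b)
    intro n hn
    rw [mem_image] at hn
    obtain ⟨a, ha, rfl⟩ := hn
    rw [mem_filter] at ha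
    rw [← ha.2, hg]
    exact h a ha.1
  calc (S.card : ℝ) ≤ ((⌊2 * δ + 1⌋₊ * (S.image fun a => Function.update a i 0).card : ℕ) : ℝ) := by
        exact_mod_cast h1
    _ = (⌊2 * δ + 1⌋₊ : ℝ) * (S.image fun a => Function.update a i 0).card := by push_cast; rfl
    _ ≤ _ := by
        gcongr
        exact Nat.floor_le (by linarith)

end gen

section digits

/-- integers of absolute value at most `H` in a residue class -/
lemma card_residue (H : ℕ) (y N : ℤ) (hy : y ≠ 0) :
    ((Icc (-(H : ℤ)) H).filter fun c => y ∣ N - c).card ≤ 2 * H / y.natAbs + 1 := by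
  have hy' : 0 < y.natAbs := Int.natAbs_pos.2 hy
  rw [← card_range (2 * H / y.natAbs + 1)]
  apply card_le_card_of_injOn (fun c : ℤ => ((c + (H : ℤ)).toNat) / y.natAbs)
  · intro c hc
    rw [mem_coe, mem_filter, mem_Icc] at hc
    rw [mem_coe, mem_range, Nat.lt_succ_iff]
    apply Nat.div_le_div_right
    omega
  · intro c hc c' hc' h
    rw [mem_coe, mem_filter, mem_Icc] at hc hc'
    simp only at h
    have h1 : y ∣ c - c' := by
      have := dvd_sub hc'.2 hc.2
      rwa [show N - c' - (N - c) = c - c' by ring] at this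
    have h2 : (y.natAbs : ℤ) ∣ c - c' := Int.natAbs_dvd.2 h1
    have h3 : (c + H).toNat % y.natAbs = (c' + H).toNat % y.natAbs := by
      have h4 : ((c + H).toNat : ℤ) ≡ ((c' + H).toNat : ℤ) [ZMOD y.natAbs] := by
        rw [Int.toNat_of_nonneg (by omega), Int.toNat_of_nonneg (by omega)]
        apply Int.ModEq.symm
        rw [Int.modEq_iff_dvd]
        have : c + H - (c' + H) = c - c' := by ring
        rw [this]
        exact h2
      exact (Int.natCast_modEq_iff.1 h4)
    have h5 : (c + H).toNat = (c' + H).toNat := by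
      rw [← Nat.div_add_mod (c + H).toNat y.natAbs, ← Nat.div_add_mod (c' + H).toNat y.natAbs,
        h, h3]
    omega

/-- **Digits.** -/
lemma card_digits (H : ℕ) (y : ℤ) (hy : y ≠ 0) : ∀ (n : ℕ) (N : ℤ),
    ((ibox (Fin (n + 1)) H).filter fun c => ∑ j : Fin (n + 1), c j * y ^ (j : ℕ) = N).card ≤
      (2 * H / y.natAbs + 1) ^ n := by
  classical
  intro n
  induction n with
  | zero =>
    intro N
    rw [pow_zero, card_le_one]
    intro c hc c' hc'
    rw [mem_filter] at hc hc'
    have h1 := hc.2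
    have h2 := hc'.2
    simp at h1 h2
    ext j
    have : j = 0 := Fin.fin_one_eq_zero j
    rw [this, h1, h2]
  | succ n ih =>
    intro N
    have hsub : ((ibox (Fin (n + 2)) H).filter fun c => ∑ j : Fin (n + 2), c j * y ^ (j : ℕ) = N) ⊆
        ((Icc (-(H : ℤ)) H).filter fun c => y ∣ N - c).biUnion fun c₀ =>
          ((ibox (Fin (n + 1)) H).filter fun c => ∑ j : Fin (n + 1), c j * y ^ (j : ℕ) = (N - c₀) / y).image
            fun c => Fin.cons c₀ c := by
      intro c hc
      rw [mem_filter, mem_ibox] at hc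
      rw [mem_biUnion]
      have h1 : N - c 0 = y * ∑ j : Fin (n + 1), c j.succ * y ^ (j : ℕ) := by
        rw [← hc.2, Fin.sum_univ_succ, mul_sum]
        simp only [Fin.val_zero, pow_zero, mul_one, Fin.val_succ]
        rw [add_sub_cancel_left]
        refine sum_congr rfl fun j _ => ?_
        rw [pow_succ]
        ring
      refine ⟨c 0, ?_, ?_⟩
      · rw [mem_filter, mem_Icc, ← abs_le]
        exact ⟨hc.1 0, ⟨_, h1⟩⟩
      · rw [mem_image]
        refine ⟨fun j => c j.succ, ?_, ?_⟩
        · rw [mem_filter, mem_ibox]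
          refine ⟨fun i => hc.1 _, ?_⟩
          rw [h1, Int.mul_ediv_cancel_left _ hy]
        · exact Fin.cons_self_tail c
    refine (card_le_card hsub).trans (card_biUnion_le.trans ?_)
    calc ∑ c₀ ∈ (Icc (-(H : ℤ)) H).filter fun c => y ∣ N - c,
          (((ibox (Fin (n + 1)) H).filter fun c => ∑ j : Fin (n + 1), c j * y ^ (j : ℕ) = (N - c₀) / y).image
            fun c => (Fin.cons c₀ c : Fin (n + 2) → ℤ)).card
        ≤ ∑ c₀ ∈ (Icc (-(H : ℤ)) H).filter fun c => y ∣ N - c, (2 * H / y.natAbs + 1) ^ n :=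
          sum_le_sum fun c₀ _ => card_image_le.trans (ih _)
      _ = ((Icc (-(H : ℤ)) H).filter fun c => y ∣ N - c).card * (2 * H / y.natAbs + 1) ^ n := by
          rw [sum_const, smul_eq_mul]
      _ ≤ (2 * H / y.natAbs + 1) * (2 * H / y.natAbs + 1) ^ n :=
          Nat.mul_le_mul_right _ (card_residue H y N hy)
      _ = _ := by rw [pow_succ']

end digits

end Pool.Agent.R414.DN
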