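import Pool.Agent.R414.DN.Att

set_option autoImplicit false
set_option linter.unusedSectionVars false

/-! The branch at an asymptote. -/

open Finset

namespace Pool.Agent.R414.DN

/-- intercept of the asymptote of slope `α` -/
noncomputable def bet (c : ℕ → ℕ → ℤ) (d : ℕ) (α : ℝ) : ℝ := -(TT c (d - 1) 0 α) / TT c d 1 α

/-- coefficient of `1 / y` -/
noncomputable def gam (c : ℕ → ℕ → ℤ) (d : ℕ) (α : ℝ) : ℝ :=
  -(TT c (d - 2) 0 α / TT c d 1 α + TT c (d - 1) 1 α / TT c d 1 α * bet c d α +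
    TT c d 2 α / TT c d 1 α * bet c d α ^ 2)

/-- coefficient of `1 / y ^ 2` -/
noncomputable def del (c : ℕ → ℕ → ℤ) (d : ℕ) (α : ℝ) : ℝ :=
  -((TT c (d - 1) 1 α / TT c d 1 α + 2 * (TT c d 2 α / TT c d 1 α) * bet c d α) * gam c d α +
    (TT c (d - 3) 0 α / TT c d 1 α + TT c (d - 2) 1 α / TT c d 1 α * bet c d α +
    TT c (d - 1) 2 α / TT c d 1 α * bet c d α ^ 2 + TT c d 3 α / TT c d 1 α * bet c d α ^ 3))

/-- the width parameter -/
noncomputable def WW (d : ℕ) (w : ℝ) : ℝ := 2 * d * c1 d * w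

/-- the size parameter -/
noncomputable def KK (d : ℕ) (w : ℝ) : ℝ := 2 * (d + 1) ^ 2 * c1 d * w * WW d w ^ d

variable {d : ℕ} {w : ℝ}

lemma WW_ge (hd : 1 ≤ d) (hw : 1 ≤ w) : 1 ≤ WW d w := by
  unfold WW
  have h1 := c1_pos d
  have h2 : (1 : ℝ) ≤ d := by exact_mod_cast hd
  calc (1 : ℝ) ≤ 2 * 1 * 1 * 1 := by norm_num
    _ ≤ 2 * d * c1 d * w := by gcongr

lemma KK_ge (hd : 1 ≤ d) (hw : 1 ≤ w) : WW d w ≤ KK d w ∧ 2 * c1 d * w ≤ KK d w := by
  have h1 := c1_pos d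
  have h3 := WW_ge hd hw
  have h4 : (1 : ℝ) ≤ ((d : ℝ) + 1) ^ 2 := one_le_pow₀ (by linarith [(Nat.cast_nonneg d : (0 : ℝ) ≤ d)])
  have h5 : WW d w ≤ WW d w ^ d := le_self_pow₀ h3 (by omega)
  have h6 : 1 ≤ WW d w ^ d := one_le_pow₀ h3
  unfold KK
  constructor
  · calc WW d w = 1 * 1 * 1 * 1 * WW d w := by ring
      _ ≤ 2 * (d + 1) ^ 2 * c1 d * w * WW d w ^ d := by
        gcongr
        norm_num
  · calc 2 * c1 d * w = 2 * 1 * c1 d * w * 1 := by ring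
      _ ≤ 2 * (d + 1) ^ 2 * c1 d * w * WW d w ^ d := by gcongr

lemma KK_one (hd : 1 ≤ d) (hw : 1 ≤ w) : 1 ≤ KK d w := (WW_ge hd hw).trans (KK_ge hd hw).1

lemma quot_le {c : ℕ → ℕ → ℤ} {H : ℝ} (hc : ∀ k i, |(c k i : ℝ)| ≤ H) (hH : 1 ≤ H) (hw : 1 ≤ w)
    {k : ℕ} (hk : k ≤ d) (i : ℕ) {α D : ℝ} (hα : |α| ≤ 2) (hD : H / (2 * w) ≤ |D|) :
    |TT c k i α / D| ≤ 2 * c1 d * w := by
  have hD0 : 0 < |D| := lt_of_lt_of_le (by positivity) hD
  rw [abs_div, div_le_iff₀ hD0]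
  refine (TT_le hc hk i hα).trans ?_
  have h1 := c1_pos d
  calc c1 d * H = 2 * c1 d * w * (H / (2 * w)) := by field_simp
    _ ≤ _ := by gcongr

lemma bet_le {c : ℕ → ℕ → ℤ} {H : ℝ} (hc : ∀ k i, |(c k i : ℝ)| ≤ H) (hH : 1 ≤ H) (hw : 1 ≤ w)
    (hd : 1 ≤ d) {α : ℝ} (hα : |α| ≤ 2) (hD : H / (2 * w) ≤ |TT c d 1 α|) :
    |bet c d α| ≤ 2 * c1 d * w := by
  unfold bet
  rw [neg_div, abs_neg]
  exact quot_le hc hH hw (Nat.sub_le d 1) 0 hα hD

/-- the expansion of an integer point at its asymptote -/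
lemma attached {c : ℕ → ℕ → ℤ} (hd : 4 ≤ d) {H : ℝ} (hc : ∀ k i, |(c k i : ℝ)| ≤ H)
    (hH : 1 ≤ H) (hw : 1 ≤ w) {x y : ℤ} (hy : y ≠ 0) (h0 : Fv c d x y = 0) {α : ℝ}
    (hα : |α| ≤ 2) (hroot : TT c d 0 α = 0) (hD : H / (2 * w) ≤ |TT c d 1 α|)
    (hxα : |(x : ℝ) - α * y| ≤ WW d w) :
    |(x : ℝ) - (α * y + bet c d α + gam c d α / y + del c d α / (y : ℝ) ^ 2)| ≤
      200 * KK d w ^ 9 / |(y : ℝ)| ^ 3 := by
  have hd1 : 1 ≤ d := by omega
  have hW := WW_ge hd1 hw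
  obtain ⟨hWK, hcK⟩ := KK_ge hd1 hw
  have hy' : (y : ℝ) ≠ 0 := by exact_mod_cast hy
  obtain ⟨R, hR, hF⟩ := Fv_expand4 c hd hc hW x y hy α ((x : ℝ) - α * y) hα hxα (by ring)
  rw [h0, hroot, Int.cast_zero] at hF
  set D := TT c d 1 α with hDdef
  have hDp : 0 < |D| := lt_of_lt_of_le (by positivity) hD
  have hD0 : D ≠ 0 := abs_pos.1 hDp
  set u : ℝ := (x : ℝ) - α * y with hu
  set s : ℝ := 1 / (y : ℝ) with hs
  have hs0 : s ≠ 0 := one_div_ne_zero hy'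
  have hs1 : |s| ≤ 1 := by
    rw [hs, abs_div, abs_one]
    have : (1 : ℝ) ≤ |(y : ℝ)| := by
      rw [← Int.cast_abs]
      exact_mod_cast Int.one_le_abs hy
    rw [div_le_one (by linarith)]
    exact this
  have hq : ∀ k i, k ≤ d → |TT c k i α / D| ≤ KK d w := fun k i hk =>
    (quot_le hc hH hw hk i hα hD).trans hcK
  have hRD : |R / D| ≤ KK d w := by
    rw [abs_div, div_le_iff₀ hDp]
    refine hR.trans ?_
    have h1 := c1_pos d
    calc (d + 1) ^ 2 * (c1 d * H * WW d w ^ d) = KK d w * (H / (2 * w)) := by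
          unfold KK
          field_simp
      _ ≤ _ := by
          have := KK_one hd1 hw
          gcongr
  have heq : (u - bet c d α) + s * (TT c (d - 2) 0 α / D + TT c (d - 1) 1 α / D * u +
      TT c d 2 α / D * u ^ 2) + s ^ 2 * (TT c (d - 3) 0 α / D + TT c (d - 2) 1 α / D * u +
        TT c (d - 1) 2 α / D * u ^ 2 + TT c d 3 α / D * u ^ 3) + s ^ 3 * (R / D) = 0 := by
    have h1 : s * (D * (u - bet c d α) + s * (TT c (d - 2) 0 α + TT c (d - 1) 1 α * u +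
        TT c d 2 α * u ^ 2) + s ^ 2 * (TT c (d - 3) 0 α + TT c (d - 2) 1 α * u +
        TT c (d - 1) 2 α * u ^ 2 + TT c d 3 α * u ^ 3) + s ^ 3 * R) = 0 := by
      have h2 : D * bet c d α = -(TT c (d - 1) 0 α) := by
        unfold bet
        rw [← hDdef]
        field_simp
      have h3 := (mul_eq_zero.1 hF.symm).resolve_left (pow_ne_zero d hy')
      linear_combination h3 - s * h2
    have h4 := (mul_eq_zero.1 h1).resolve_left hs0
    apply mul_left_cancel₀ hD0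
    rw [mul_zero, ← h4]
    field_simp
  have key := core_expand (KK_one hd1 hw) ((bet_le hc hH hw hd1 hα hD).trans hcK)
    (hq (d - 2) 0 (Nat.sub_le _ _)) (hq (d - 1) 1 (Nat.sub_le _ _)) (hq d 2 le_rfl)
    (hq (d - 3) 0 (Nat.sub_le _ _)) (hq (d - 2) 1 (Nat.sub_le _ _)) (hq (d - 1) 2 (Nat.sub_le _ _))
    (hq d 3 le_rfl) (hxα.trans hWK) hs1 hRD heq
  have h5 : (x : ℝ) - (α * y + bet c d α + gam c d α / y + del c d α / (y : ℝ) ^ 2) =
      u - bet c d α + (TT c (d - 2) 0 α / D + TT c (d - 1) 1 α / D * bet c d α +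
      TT c d 2 α / D * bet c d α ^ 2) * s -
      (-((TT c (d - 1) 1 α / D + 2 * (TT c d 2 α / D) * bet c d α) *
        (-(TT c (d - 2) 0 α / D + TT c (d - 1) 1 α / D * bet c d α +
      TT c d 2 α / D * bet c d α ^ 2)) +
        (TT c (d - 3) 0 α / D + TT c (d - 2) 1 α / D * bet c d α +
        TT c (d - 1) 2 α / D * bet c d α ^ 2 + TT c d 3 α / D * bet c d α ^ 3))) * s ^ 2 := by
    unfold gam del gam
    rw [← hDdef, hu, hs]
    ring
  rw [h5]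
  refine key.trans (le_of_eq ?_)
  rw [hs, abs_div, abs_one, div_pow, one_pow]
  ring

lemma gam_le {c : ℕ → ℕ → ℤ} {H : ℝ} (hc : ∀ k i, |(c k i : ℝ)| ≤ H) (hH : 1 ≤ H) (hw : 1 ≤ w)
    (hd : 1 ≤ d) {α : ℝ} (hα : |α| ≤ 2) (hD : H / (2 * w) ≤ |TT c d 1 α|) :
    |gam c d α| ≤ 3 * KK d w ^ 3 := by
  obtain ⟨hWK, hcK⟩ := KK_ge hd hw
  have hK := KK_one hd hw
  have hq : ∀ k i, k ≤ d → |TT c k i α / TT c d 1 α| ≤ KK d w := fun k i hk =>
    (quot_le hc hH hw hk i hα hD).trans hcK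
  have hb := (bet_le hc hH hw hd hα hD).trans hcK
  unfold gam
  rw [abs_neg]
  calc |TT c (d - 2) 0 α / TT c d 1 α + TT c (d - 1) 1 α / TT c d 1 α * bet c d α +
        TT c d 2 α / TT c d 1 α * bet c d α ^ 2|
      ≤ |TT c (d - 2) 0 α / TT c d 1 α| + |TT c (d - 1) 1 α / TT c d 1 α| * |bet c d α| +
        |TT c d 2 α / TT c d 1 α| * |bet c d α| ^ 2 := by
        refine (abs_add_le _ _).trans ?_
        rw [abs_mul (TT c d 2 α / TT c d 1 α), abs_pow]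
        gcongr
        refine (abs_add_le _ _).trans ?_
        rw [abs_mul]
    _ ≤ KK d w + KK d w * KK d w + KK d w * KK d w ^ 2 := by
        gcongr
        · exact hq _ _ (Nat.sub_le _ _)
        · exact hq _ _ (Nat.sub_le _ _)
        · exact hq _ _ le_rfl
    _ ≤ 3 * KK d w ^ 3 := by
        have e1 : KK d w ≤ KK d w ^ 3 := le_self_pow₀ hK (by norm_num)
        have e2 : KK d w ^ 2 ≤ KK d w ^ 3 := pow_le_pow_right₀ hK (by norm_num)
        nlinarith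

lemma del_le {c : ℕ → ℕ → ℤ} {H : ℝ} (hc : ∀ k i, |(c k i : ℝ)| ≤ H) (hH : 1 ≤ H) (hw : 1 ≤ w)
    (hd : 1 ≤ d) {α : ℝ} (hα : |α| ≤ 2) (hD : H / (2 * w) ≤ |TT c d 1 α|) :
    |del c d α| ≤ 13 * KK d w ^ 5 := by
  obtain ⟨hWK, hcK⟩ := KK_ge hd hw
  have hK := KK_one hd hw
  have hK0 : 0 ≤ KK d w := by linarith
  have hq : ∀ k i, k ≤ d → |TT c k i α / TT c d 1 α| ≤ KK d w := fun k i hk =>
    (quot_le hc hH hw hk i hα hD).trans hcK
  have hb := (bet_le hc hH hw hd hα hD).trans hcK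
  have hg := gam_le hc hH hw hd hα hD
  have q1 := hq (d - 1) 1 (Nat.sub_le _ _)
  have q2 := hq d 2 le_rfl
  have q3 := hq (d - 3) 0 (Nat.sub_le _ _)
  have q4 := hq (d - 2) 1 (Nat.sub_le _ _)
  have q5 := hq (d - 1) 2 (Nat.sub_le _ _)
  have q6 := hq d 3 le_rfl
  unfold del
  rw [abs_neg]
  set K := KK d w with hKd
  have e1 : |TT c (d - 1) 1 α / TT c d 1 α + 2 * (TT c d 2 α / TT c d 1 α) * bet c d α| ≤
      3 * K ^ 2 := by
    calc |TT c (d - 1) 1 α / TT c d 1 α + 2 * (TT c d 2 α / TT c d 1 α) * bet c d α|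
        ≤ |TT c (d - 1) 1 α / TT c d 1 α| + 2 * |TT c d 2 α / TT c d 1 α| * |bet c d α| := by
          refine (abs_add_le _ _).trans ?_
          rw [abs_mul, abs_mul 2, abs_two]
      _ ≤ K + 2 * K * K := by gcongr
      _ ≤ 3 * K ^ 2 := by nlinarith
  have e2 : |TT c (d - 3) 0 α / TT c d 1 α + TT c (d - 2) 1 α / TT c d 1 α * bet c d α +
    TT c (d - 1) 2 α / TT c d 1 α * bet c d α ^ 2 + TT c d 3 α / TT c d 1 α * bet c d α ^ 3| ≤
      4 * K ^ 4 := by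
    calc |TT c (d - 3) 0 α / TT c d 1 α + TT c (d - 2) 1 α / TT c d 1 α * bet c d α +
          TT c (d - 1) 2 α / TT c d 1 α * bet c d α ^ 2 + TT c d 3 α / TT c d 1 α * bet c d α ^ 3|
        ≤ |TT c (d - 3) 0 α / TT c d 1 α| + |TT c (d - 2) 1 α / TT c d 1 α| * |bet c d α| +
          |TT c (d - 1) 2 α / TT c d 1 α| * |bet c d α| ^ 2 +
          |TT c d 3 α / TT c d 1 α| * |bet c d α| ^ 3 := by
          refine (abs_add_le _ _).trans ?_
          rw [abs_mul (TT c d 3 α / TT c d 1 α), abs_pow]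
          gcongr
          refine (abs_add_le _ _).trans ?_
          rw [abs_mul (TT c (d - 1) 2 α / TT c d 1 α), abs_pow]
          gcongr
          refine (abs_add_le _ _).trans ?_
          rw [abs_mul]
      _ ≤ K + K * K + K * K ^ 2 + K * K ^ 3 := by gcongr
      _ ≤ 4 * K ^ 4 := by
          have f1 : K ≤ K ^ 4 := le_self_pow₀ hK (by norm_num)
          have f2 : K ^ 2 ≤ K ^ 4 := pow_le_pow_right₀ hK (by norm_num)
          have f3 : K ^ 3 ≤ K ^ 4 := pow_le_pow_right₀ hK (by norm_num)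
          nlinarith
  refine (abs_add_le _ _).trans ?_
  rw [abs_mul]
  calc |TT c (d - 1) 1 α / TT c d 1 α + 2 * (TT c d 2 α / TT c d 1 α) * bet c d α| *
        |gam c d α| + _ ≤ (3 * K ^ 2) * (3 * K ^ 3) + 4 * K ^ 4 := by gcongr
    _ ≤ 13 * K ^ 5 := by
        have f1 : K ^ 4 ≤ K ^ 5 := pow_le_pow_right₀ hK (by norm_num)
        nlinarith

/-- lower bound for `γ` -/
lemma gam_ge {c : ℕ → ℕ → ℤ} {H : ℝ} (hc : ∀ k i, |(c k i : ℝ)| ≤ H) (hH : 1 ≤ H) (hw : 1 ≤ w)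
    (hd : 1 ≤ d) {α δ : ℝ} (hδ : 0 < δ) (hα : |α| ≤ 2) (hroot : TT c d 0 α = 0)
    (hD : H / (2 * w) ≤ |TT c d 1 α|) (hG : G2 c d (WW d w) δ) :
    δ / (c1 d * H) ≤ |gam c d α| := by
  have hDp : 0 < |TT c d 1 α| := lt_of_lt_of_le (by positivity) hD
  have hD0 : TT c d 1 α ≠ 0 := abs_pos.1 hDp
  have h1 := c1_pos d
  have hbW : |bet c d α| ≤ WW d w := by
    refine (bet_le hc hH hw hd hα hD).trans ?_
    unfold WW
    have h2 : (1 : ℝ) ≤ d := by exact_mod_cast hd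
    calc 2 * c1 d * w = 2 * 1 * c1 d * w := by ring
      _ ≤ _ := by gcongr
  have hzero : TT c (d - 1) 0 α + TT c d 1 α * bet c d α = 0 := by
    unfold bet
    field_simp
    ring
  rcases hG α (bet c d α) hα hbW with h | h | h
  · rw [hroot, abs_zero] at h
    exact absurd h (not_le.2 hδ)
  · rw [hzero, abs_zero] at h
    exact absurd h (not_le.2 hδ)
  · have h3 : TT c (d - 2) 0 α + TT c (d - 1) 1 α * bet c d α + TT c d 2 α * bet c d α ^ 2 =
        -(TT c d 1 α * gam c d α) := by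
      unfold gam
      field_simp
    rw [h3, abs_neg, abs_mul] at h
    have h4 := TT_le hc (le_refl d) 1 hα
    rw [div_le_iff₀ (by positivity)]
    calc δ ≤ |TT c d 1 α| * |gam c d α| := h
      _ ≤ (c1 d * H) * |gam c d α| := by gcongr
      _ = _ := by ring

end Pool.Agent.R414.DN
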