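import Pool.Agent.R414.DN.Win

set_option autoImplicit false
set_option linter.unusedSectionVars false

/-! Counting the integer points in the middle range for given leading forms. -/

open Finset

namespace Pool.Agent.R414.DN

/-- points of the middle range that lie on a curve with the given leading forms -/
def IsMid (c₀ : ℕ → ℕ → ℤ) (d : ℕ) (H Y₀ Y₁ : ℝ) (P : ℤ × ℤ) : Prop :=
  ∃ c : ℕ → ℕ → ℤ, TopEq d c c₀ ∧ (∀ k i, |(c k i : ℝ)| ≤ H) ∧ Fv c d P.1 P.2 = 0 ∧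
    |P.1| ≤ |P.2| ∧ Y₀ ≤ |(P.2 : ℝ)| ∧ |(P.2 : ℝ)| ≤ Y₁

lemma window_aux {N a b : ℝ} (hN : 4 ≤ N) (ha : 0 < a) (hab : a ≤ b)
    (h : N * Real.log b - N * Real.log a < 1) : b ≤ 2 * a ∧ (b - a) * N ≤ 2 * a := by
  have hb : 0 < b := by linarith
  have hN0 : 0 < N := by linarith
  have h1 : 1 - (b / a)⁻¹ ≤ Real.log (b / a) := Real.one_sub_inv_le_log_of_pos (by positivity)
  rw [Real.log_div hb.ne' ha.ne', inv_div] at h1
  have h2 : N * (1 - a / b) < 1 := by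
    have : N * (1 - a / b) ≤ N * (Real.log b - Real.log a) := by gcongr
    linarith
  have h3 : N * (b - a) < b := by
    have : N * (b - a) = N * (1 - a / b) * b := by field_simp
    rw [this]
    nlinarith
  have h4 : b ≤ 2 * a := by nlinarith
  exact ⟨h4, by linarith⟩

lemma window {N : ℝ} (hN : 4 ≤ N) {y1 y3 : ℤ} (h1 : y1 ≠ 0) (h3 : y3 ≠ 0)
    (h : ⌊N * Real.log |(y1 : ℝ)|⌋₊ = ⌊N * Real.log |(y3 : ℝ)|⌋₊) :
    |(y1 : ℝ)| ≤ 2 * min |(y1 : ℝ)| |(y3 : ℝ)| ∧ |(y3 : ℝ)| ≤ 2 * min |(y1 : ℝ)| |(y3 : ℝ)| ∧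
    |(|(y3 : ℝ)| - |(y1 : ℝ)|)| * N ≤ 2 * min |(y1 : ℝ)| |(y3 : ℝ)| := by
  have a1 : 1 ≤ |(y1 : ℝ)| := by rw [← Int.cast_abs]; exact_mod_cast Int.one_le_abs h1
  have a3 : 1 ≤ |(y3 : ℝ)| := by rw [← Int.cast_abs]; exact_mod_cast Int.one_le_abs h3
  have l1 : 0 ≤ N * Real.log |(y1 : ℝ)| := mul_nonneg (by linarith) (Real.log_nonneg a1)
  have l3 : 0 ≤ N * Real.log |(y3 : ℝ)| := mul_nonneg (by linarith) (Real.log_nonneg a3)
  have f1 := Nat.floor_le l1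
  have f1' := Nat.lt_floor_add_one (N * Real.log |(y1 : ℝ)|)
  have f3 := Nat.floor_le l3
  have f3' := Nat.lt_floor_add_one (N * Real.log |(y3 : ℝ)|)
  rw [h] at f1 f1'
  rcases le_total |(y1 : ℝ)| |(y3 : ℝ)| with hle | hle
  · obtain ⟨e1, e2⟩ := window_aux hN (by linarith) hle (by linarith)
    rw [min_eq_left hle, abs_of_nonneg (by linarith : 0 ≤ |(y3 : ℝ)| - |(y1 : ℝ)|)]
    exact ⟨by linarith, e1, e2⟩
  · obtain ⟨e1, e2⟩ := window_aux hN (by linarith) hle (by linarith)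
    rw [min_eq_right hle, abs_sub_comm, abs_of_nonneg (by linarith : 0 ≤ |(y1 : ℝ)| - |(y3 : ℝ)|)]
    exact ⟨e1, by linarith, e2⟩

/-- the data attached to a point -/
def Good (c : ℕ → ℕ → ℤ) (d : ℕ) (w H : ℝ) (P : ℤ × ℤ) (α : ℝ) : Prop :=
  |α| ≤ 2 ∧ TT c d 0 α = 0 ∧ H / (2 * w) ≤ |TT c d 1 α| ∧
    |(P.1 : ℝ) - (α * P.2 + bet c d α + gam c d α / P.2 + del c d α / (P.2 : ℝ) ^ 2)| ≤
      200 * KK d w ^ 9 / |(P.2 : ℝ)| ^ 3

section

variable {d : ℕ} {w H Y₀ Y₁ : ℝ} (hd : 4 ≤ d) (hw : 1 ≤ w) (hH : 1 ≤ H)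
  (hY : H * Th d w < Y₀) {c₀ : ℕ → ℕ → ℤ} (hc : ∀ k i, |(c₀ k i : ℝ)| ≤ H)
  (hG1 : G1 c₀ d (H / w)) (hG2 : G2 c₀ d (WW d w) (H / w ^ 6)) (hNR : NoRoot c₀ d)

include hd hw hH hY

include hG1 in
lemma exists_good {P : ℤ × ℤ} (hP : IsMid c₀ d H Y₀ Y₁ P) : ∃ α, Good c₀ d w H P α := by
  obtain ⟨c, htop, hcH, h0, hxy, hy0, -⟩ := hP
  have hG1' : G1 c d (H / w) := by
    intro t ht
    rw [TT_top htop (by omega), TT_top htop (by omega)]
    exact hG1 t ht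
  obtain ⟨α, h1, h2, h3, h4⟩ := exists_root (by omega : 1 ≤ d) hcH hH hw hG1' hxy
    ((big1 hd hw hH hY).trans hy0) h0
  have hyne : P.2 ≠ 0 := by
    intro h
    rw [h, Int.cast_zero, abs_zero] at hy0
    have := big2 hd hw hH hY
    have h5 := KK_one (by omega : 1 ≤ d) hw
    have : 0 < 156 * KK d w ^ 4 := by positivity
    linarith
  have h5 := attached hd hcH hH hw hyne h0 h1 h2 h3 h4
  rw [bet_top htop, gam_top htop, del_top htop] at h5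
  rw [TT_top htop (by omega)] at h2 h3
  exact ⟨α, h1, h2, h3, h5⟩

/-- two points with the same data and the same second coordinate are equal -/
lemma good_inj {P P' : ℤ × ℤ} {α : ℝ} (h : Good c₀ d w H P α) (h' : Good c₀ d w H P' α)
    (hy : Y₀ ≤ |(P.2 : ℝ)|) (hyy : P.2 = P'.2) : P = P' := by
  obtain ⟨-, -, -, h4⟩ := h
  obtain ⟨-, -, -, h4'⟩ := h'
  rw [← hyy] at h4'
  have hK := KK_one (by omega : 1 ≤ d) hw
  have hb := big2 hd hw hH hY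
  have h5 : 200 * KK d w ^ 9 / |(P.2 : ℝ)| ^ 3 < 1 / 2 := by
    have h6 : 156 * KK d w ^ 4 ≤ |(P.2 : ℝ)| := hb.trans hy
    have h7 : (156 * KK d w ^ 4) ^ 3 ≤ |(P.2 : ℝ)| ^ 3 := by gcongr
    have h8 : KK d w ^ 9 ≤ KK d w ^ 12 := pow_le_pow_right₀ hK (by norm_num)
    have h9 : (156 * KK d w ^ 4) ^ 3 = 3796416 * KK d w ^ 12 := by ring
    have h10 : 0 < KK d w ^ 9 := by positivity
    rw [div_lt_div_iff₀ (by linarith) two_pos]
    linarith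
  have h6 : |((P.1 - P'.1 : ℤ) : ℝ)| < 1 := by
    have e : ((P.1 - P'.1 : ℤ) : ℝ) = ((P.1 : ℝ) - (α * P.2 + bet c₀ d α + gam c₀ d α / P.2 +
        del c₀ d α / (P.2 : ℝ) ^ 2)) - ((P'.1 : ℝ) - (α * P.2 + bet c₀ d α + gam c₀ d α / P.2 +
        del c₀ d α / (P.2 : ℝ) ^ 2)) := by push_cast; ring
    rw [e]
    refine lt_of_le_of_lt (abs_sub _ _) ?_
    linarith
  rw [← Int.cast_abs] at h6
  have h7 : |P.1 - P'.1| < 1 := by exact_mod_cast h6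
  rw [Int.abs_lt_one_iff] at h7
  exact Prod.ext (by linarith) hyy

include hc hG2 hNR

lemma no_three' {P1 P2 P3 : ℤ × ℤ} {α : ℝ} (h1 : Good c₀ d w H P1 α) (h2 : Good c₀ d w H P2 α)
    (h3 : Good c₀ d w H P3 α) (hy1 : Y₀ ≤ |(P1.2 : ℝ)|) (hy3 : Y₀ ≤ |(P3.2 : ℝ)|)
    (h12 : P1.2 < P2.2) (h23 : P2.2 < P3.2) (hsign : 0 < P1.2 ↔ 0 < P3.2)
    (hwin : ⌊4 * KK d w * Real.log |(P1.2 : ℝ)|⌋₊ = ⌊4 * KK d w * Real.log |(P3.2 : ℝ)|⌋₊) :
    False := by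
  have hK := KK_one (by omega : 1 ≤ d) hw
  have hY0 : 0 < Y₀ := lt_of_lt_of_le (by positivity) (big2 hd hw hH hY)
  have n1 : P1.2 ≠ 0 := by
    intro h; rw [h, Int.cast_zero, abs_zero] at hy1; linarith
  have n3 : P3.2 ≠ 0 := by
    intro h; rw [h, Int.cast_zero, abs_zero] at hy3; linarith
  obtain ⟨w1, w3, wd⟩ := window (by linarith : (4 : ℝ) ≤ 4 * KK d w) n1 n3 hwin
  set Y := min |(P1.2 : ℝ)| |(P3.2 : ℝ)| with hYd
  have hYY : Y₀ ≤ Y := le_min hy1 hy3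
  have b1 : Y ≤ |(P1.2 : ℝ)| := min_le_left _ _
  have b3 : Y ≤ |(P3.2 : ℝ)| := min_le_right _ _
  have c12 : (P1.2 : ℝ) < P2.2 := by exact_mod_cast h12
  have c23 : (P2.2 : ℝ) < P3.2 := by exact_mod_cast h23
  have hb2 : Y ≤ |(P2.2 : ℝ)| ∧ |(P2.2 : ℝ)| ≤ 2 * Y ∧
      ((P3.2 : ℝ) - P1.2) = |(|(P3.2 : ℝ)| - |(P1.2 : ℝ)|)| := by
    by_cases hs : 0 < P1.2
    · have p1 : (0 : ℝ) < P1.2 := by exact_mod_cast hs
      have p3 : (0 : ℝ) < P3.2 := by linarith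
      rw [abs_of_pos p1, abs_of_pos p3] at *
      rw [abs_of_pos (by linarith : (0 : ℝ) < P2.2)]
      refine ⟨by linarith, by linarith, ?_⟩
      rw [abs_of_pos (by linarith)]
    · have q3 : P3.2 < 0 := by
        rcases lt_trichotomy P3.2 0 with h | h | h
        · exact h
        · exact absurd h n3
        · exact absurd (hsign.2 h) hs
      have p3 : (P3.2 : ℝ) < 0 := by exact_mod_cast q3
      have p1 : (P1.2 : ℝ) < 0 := by linarith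
      rw [abs_of_neg p1, abs_of_neg p3] at *
      rw [abs_of_neg (by linarith : (P2.2 : ℝ) < 0)]
      refine ⟨by linarith, by linarith, ?_⟩
      rw [abs_of_neg (by linarith)]
      ring
  refine no_three hd hw hH (lt_of_lt_of_le hY hYY) hc hG2 hNR h1.1 h1.2.1 h1.2.2.1 h12 h23
    ⟨b1, w1⟩ ⟨hb2.1, hb2.2.1⟩ ⟨b3, w3⟩ ?_ h1.2.2.2 h2.2.2.2 h3.2.2.2
  rw [hb2.2.2]
  linarith

end

/-- the real roots of the leading form -/
noncomputable def rts (c : ℕ → ℕ → ℤ) (d : ℕ) : Finset ℝ :=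
  (∑ j ∈ range (d + 1), Polynomial.C ((c d j : ℤ) : ℝ) * Polynomial.X ^ j).roots.toFinset

lemma card_rts (c : ℕ → ℕ → ℤ) (d : ℕ) : (rts c d).card ≤ d := by
  unfold rts
  refine (Multiset.toFinset_card_le _).trans ((Polynomial.card_roots' _).trans ?_)
  apply Polynomial.natDegree_sum_le_of_forall_le
  intro i hi
  rw [mem_range] at hi
  refine (Polynomial.natDegree_C_mul_X_pow_le _ _).trans ?_
  omega

lemma mem_rts {c : ℕ → ℕ → ℤ} {d : ℕ} (hNR : NoRoot c d) {α : ℝ} (h : TT c d 0 α = 0) :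
    α ∈ rts c d := by
  unfold rts
  rw [Multiset.mem_toFinset, Polynomial.mem_roots]
  · rw [Polynomial.IsRoot, Polynomial.eval_finsetSum, ← h, TT_zero]
    refine sum_congr rfl fun j _ => ?_
    simp
  · intro h0
    have h1 := congrArg (fun p : Polynomial ℝ => p.coeff 0) h0
    simp only [Polynomial.finsetSum_coeff, Polynomial.coeff_C_mul_X_pow,
      Polynomial.coeff_zero] at h1
    rw [sum_eq_single_of_mem 0 (mem_range.2 (Nat.succ_pos d))] at h1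
    · rw [if_pos rfl] at h1
      have h2 : c d 0 = 0 := by exact_mod_cast h1
      apply hNR 0 1 one_pos
      apply sum_eq_zero
      intro i _
      rcases Nat.eq_zero_or_pos i with h3 | h3
      · rw [h3, h2, zero_mul]
      · rw [zero_pow h3.ne', zero_mul, mul_zero]
    · intro j _ hj
      rw [if_neg (Ne.symm hj)]

/-- **Few points in the middle range.** -/
theorem card_mid {d : ℕ} {w H Y₀ Y₁ : ℝ} (hd : 4 ≤ d) (hw : 1 ≤ w) (hH : 1 ≤ H)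
    (hY : H * Th d w < Y₀) {c₀ : ℕ → ℕ → ℤ} (hc : ∀ k i, |(c₀ k i : ℝ)| ≤ H)
    (hG1 : G1 c₀ d (H / w)) (hG2 : G2 c₀ d (WW d w) (H / w ^ 6)) (hNR : NoRoot c₀ d)
    (T : Finset (ℤ × ℤ)) (hT : ∀ P ∈ T, IsMid c₀ d H Y₀ Y₁ P) :
    T.card ≤ 4 * d * (⌊4 * KK d w * Real.log Y₁⌋₊ + 1) := by
  classical
  have hK := KK_one (by omega : 1 ≤ d) hw
  have hY0 : 1 ≤ Y₀ := by
    have h1 := big2 hd hw hH hY
    have h2 : 1 ≤ KK d w ^ 4 := one_le_pow₀ hK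
    linarith
  choose! a ha using fun P (hP : P ∈ T) => exists_good hd hw hH hY hG1 (hT P hP)
  have hyT : ∀ P ∈ T, Y₀ ≤ |(P.2 : ℝ)| ∧ |(P.2 : ℝ)| ≤ Y₁ := by
    intro P hP
    obtain ⟨c, -, -, -, -, h1, h2⟩ := hT P hP
    exact ⟨h1, h2⟩
  have key := card_le_mul_card_image_of_maps_to (s := T)
    (t := rts c₀ d ×ˢ ((univ : Finset Bool) ×ˢ range (⌊4 * KK d w * Real.log Y₁⌋₊ + 1)))
    (f := fun P => (a P, decide (0 < P.2), ⌊4 * KK d w * Real.log |(P.2 : ℝ)|⌋₊)) ?_ 2 ?_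
  · refine key.trans ?_
    rw [card_product, card_product, card_range, card_univ, Fintype.card_bool]
    have := card_rts c₀ d
    calc 2 * ((rts c₀ d).card * (2 * (⌊4 * KK d w * Real.log Y₁⌋₊ + 1)))
        ≤ 2 * (d * (2 * (⌊4 * KK d w * Real.log Y₁⌋₊ + 1))) := by gcongr
      _ = _ := by ring
  · intro P hP
    rw [mem_product, mem_product, mem_range]
    refine ⟨mem_rts hNR (ha P hP).2.1, mem_univ _, ?_⟩
    rw [Nat.lt_succ_iff]
    apply Nat.floor_le_floor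
    have h1 := hyT P hP
    have h2 : Real.log |(P.2 : ℝ)| ≤ Real.log Y₁ := Real.log_le_log (by linarith) h1.2
    gcongr
  · intro b _
    by_contra hcon
    rw [not_le, two_lt_card] at hcon
    obtain ⟨P, hP, Q, hQ, R, hR, hPQ, hPR, hQR⟩ := hcon
    rw [mem_filter] at hP hQ hR
    obtain ⟨hP, rP⟩ := hP
    obtain ⟨hQ, rQ⟩ := hQ
    obtain ⟨hR, rR⟩ := hR
    subst rP
    simp only [Prod.mk.injEq] at rQ rR
    have gP := ha P hP
    have gQ := ha Q hQ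
    have gR := ha R hR
    rw [rQ.1] at gQ
    rw [rR.1] at gR
    have sQ : 0 < Q.2 ↔ 0 < P.2 := by simpa using rQ.2.1
    have sR : 0 < R.2 ↔ 0 < P.2 := by simpa using rR.2.1
    have yP := (hyT P hP).1
    have yQ := (hyT Q hQ).1
    have yR := (hyT R hR).1
    have nPQ : P.2 ≠ Q.2 := fun h => hPQ (good_inj hd hw hH hY gP gQ yP h)
    have nPR : P.2 ≠ R.2 := fun h => hPR (good_inj hd hw hH hY gP gR yP h)
    have nQR : Q.2 ≠ R.2 := fun h => hQR (good_inj hd hw hH hY gQ gR yQ h)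
    have wQ := rQ.2.2
    have wR := rR.2.2
    rcases lt_or_gt_of_ne nPQ with h1 | h1 <;> rcases lt_or_gt_of_ne nPR with h2 | h2 <;>
      rcases lt_or_gt_of_ne nQR with h3 | h3
    · exact no_three' hd hw hH hY hc hG2 hNR gP gQ gR yP yR h1 h3 sR.symm wR.symm
    · exact no_three' hd hw hH hY hc hG2 hNR gP gR gQ yP yQ h2 h3 sQ.symm wQ.symm
    · omega
    · exact no_three' hd hw hH hY hc hG2 hNR gR gP gQ yR yQ h2 h1 (sR.trans sQ.symm)
        (wR.trans wQ.symm)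
    · exact no_three' hd hw hH hY hc hG2 hNR gQ gP gR yQ yR h1 h2 (sQ.trans sR.symm)
        (wQ.trans wR.symm)
    · omega
    · exact no_three' hd hw hH hY hc hG2 hNR gQ gR gP yQ yP h3 h2 sQ wQ
    · exact no_three' hd hw hH hY hc hG2 hNR gR gQ gP yR yP h3 h1 sR wR

end Pool.Agent.R414.DN
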