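import Pool.Agent.R414.DN.Lines
import Pool.Agent.R414.DN.Mid

set_option autoImplicit false
set_option linter.unusedSectionVars false
set_option maxHeartbeats 400000

/-! The generic curves with an integer point. -/

open Finset

namespace Pool.Agent.R414.DN

/-- **Large integer points.** -/
theorem card_large {d H : ℕ} {w : ℝ} (hd : 4 ≤ d) (hH : 1 ≤ H) (hw : 1 ≤ w) (S : Finset (Cf d))
    (hS : S ⊆ ibox ↥(I d) H) (hg : ∀ a ∈ S, Gen H w a)
    (hz : ∀ a ∈ S, ∃ x y : ℤ, Fv (co a) d x y = 0 ∧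
      ((d + 1) * (MM d * H)) ^ (Pool.Agent.H674R3.kG d) < max x.natAbs y.natAbs) :
    S.card ≤ Pool.Agent.H322R2.kN d * d * (2 * H + 1) ^ (MM d - 1) := by
  classical
  obtain ⟨N, hN⟩ : ∃ N, N = Pool.Agent.H322R2.kN d * d := ⟨_, rfl⟩
  obtain ⟨G, hG⟩ : ∃ G, G = Pool.Agent.H674R3.kG d := ⟨_, rfl⟩
  rw [← hN]
  rw [← hG] at hz
  have h00 : (0, 0) ∈ I d := by rw [mem_I]; exact ⟨Nat.zero_le _, le_rfl⟩
  have key := card_fiber (H := H) (S := S) hS ((univ : Finset ↥(I d)).filter fun p => p.1.1 + 4 ≤ d)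
    N ?_
  · refine key.trans (Nat.mul_le_mul_left _ (Nat.pow_le_pow_right (Nat.succ_pos _) ?_))
    have h1 : 1 ≤ ((univ : Finset ↥(I d)).filter fun p => p.1.1 + 4 ≤ d).card := by
      rw [Nat.one_le_iff_ne_zero, Ne, card_eq_zero, ← Ne, ← nonempty_iff_ne_empty]
      refine ⟨⟨(0, 0), h00⟩, ?_⟩
      rw [mem_filter]
      exact ⟨mem_univ _, by simpa using hd⟩
    have h2 : MM d = Fintype.card ↥(I d) := rfl
    omega
  intro b T hT hTb
  rcases T.eq_empty_or_nonempty with h0 | ⟨a₀, h0⟩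
  · rw [h0, card_empty]
    exact Nat.zero_le _
  have hS0 := hT h0
  have hg0 := hg a₀ hS0
  have hdeg := totalDegree_poly hg0.lead.1
  choose! x y hxy using hz
  have hmain := Pool.Agent.H674R3.main5 (poly a₀) (by rw [hdeg]; exact hd)
    (by rw [hdeg]; exact irr_poly (by omega) hg0.lead)
    (by
      rw [hdeg]
      intro p q hq
      exact hlines_poly (by omega) (hS hS0) hH hw hg0 p q hq)
  rw [hdeg, ← hN, ← hG] at hmain
  have hinj : (T.image fun a => (poly a, x a, y a)).card = T.card := by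
    apply card_image_of_injective
    intro a a' h
    exact poly_inj (Prod.mk.inj h).1
  have hsub : ((T.image fun a => (poly a, x a, y a) :
      Finset (MvPolynomial (Fin 2) ℤ × ℤ × ℤ)) : Set (MvPolynomial (Fin 2) ℤ × ℤ × ℤ)) ⊆
      {t : MvPolynomial (Fin 2) ℤ × ℤ × ℤ | (t.1 - poly a₀).totalDegree + 4 ≤ d ∧
      MvPolynomial.eval ![t.2.1, t.2.2] t.1 = 0 ∧
      ((d + 1) * Pool.Agent.H322R2.len t.1) ^ G <
        max t.2.1.natAbs t.2.2.natAbs} := by
    intro t ht
    rw [mem_coe, mem_image] at ht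
    obtain ⟨a, ha, rfl⟩ := ht
    have h3 := hxy a (hT ha)
    refine ⟨?_, ?_, ?_⟩
    · apply totalDegree_sub hd
      intro p hp
      have hpJ : p ∉ (univ : Finset ↥(I d)).filter fun p => p.1.1 + 4 ≤ d := by
        rw [mem_filter]
        rintro ⟨-, h4⟩
        omega
      rw [hTb a ha p hpJ, hTb a₀ h0 p hpJ]
    · simp only
      rw [eval_poly]
      exact h3.1
    · refine lt_of_le_of_lt ?_ h3.2
      apply Nat.pow_le_pow_left
      exact Nat.mul_le_mul_left _ (len_poly (hS (hT ha)))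
  have h4 := (Set.encard_le_encard hsub).trans hmain
  rw [Set.encard_coe_eq_coe_finsetCard, hinj] at h4
  exact_mod_cast h4

/-- the bound for large points, for given degree -/
def LargeB (d G N : ℕ) : Prop := ∀ (H : ℕ) (w : ℝ), 1 ≤ H → 1 ≤ w → ∀ S : Finset (Cf d),
    S ⊆ ibox ↥(I d) H → (∀ a ∈ S, Gen H w a) →
    (∀ a ∈ S, ∃ x y : ℤ, Fv (co a) d x y = 0 ∧
      ((d + 1) * (MM d * H)) ^ G < max x.natAbs y.natAbs) →
    S.card ≤ N * (2 * H + 1) ^ (MM d - 1)

lemma exists_largeB {d : ℕ} (hd : 4 ≤ d) : ∃ G N : ℕ, LargeB d G N :=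
  ⟨Pool.Agent.H674R3.kG d, Pool.Agent.H322R2.kN d * d, fun _ _ hH hw S hS hg hz =>
    card_large hd hH hw S hS hg hz⟩

/-- the constant coefficient is determined by a zero -/
lemma const_det {d : ℕ} (h00 : ((0, 0) : ℕ × ℕ) ∈ I d) {a a' : Cf d}
    (h : ∀ p : ↥(I d), p ≠ ⟨(0, 0), h00⟩ → a p = a' p) {x y : ℤ} (h1 : Fv (co a) d x y = 0)
    (h2 : Fv (co a') d x y = 0) : a = a' := by
  have h3 : Fv (co a) d x y - Fv (co a') d x y = co a 0 0 - co a' 0 0 := by
    unfold Fv
    rw [← sum_sub_distrib, sum_eq_single_of_mem 0 (mem_range.2 (Nat.succ_pos d))]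
    · simp
    · intro k hk hk0
      rw [← sum_sub_distrib]
      apply sum_eq_zero
      intro i hi
      rw [mem_range] at hk hi
      have hmem : (k, i) ∈ I d := by rw [mem_I]; omega
      rw [co_of_mem a hmem, co_of_mem a' hmem, h, sub_self]
      intro h4
      exact hk0 (congrArg (fun p : ↥(I d) => p.1.1) h4)
  rw [h1, h2, sub_zero, co_of_mem a h00, co_of_mem a' h00] at h3
  funext p
  by_cases hp : p = ⟨(0, 0), h00⟩
  · rw [hp]
    linarith
  · exact h p hp

/-- **Integer points in the middle range.** -/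
theorem card_midr {d H : ℕ} {w Y₁ : ℝ} (hd : 4 ≤ d) (hH : 1 ≤ H) (hw : 1 ≤ w) (hTh : Th d w ≤ H)
    (S : Finset (Cf d)) (hS : S ⊆ ibox ↥(I d) H) (hg : ∀ a ∈ S, Gen H w a)
    (hz : ∀ a ∈ S, ∃ x y : ℤ, Fv (co a) d x y = 0 ∧ H ^ 2 < max x.natAbs y.natAbs ∧
      ((max x.natAbs y.natAbs : ℕ) : ℝ) ≤ Y₁) :
    S.card ≤ 2 * (4 * d * (⌊4 * KK d w * Real.log Y₁⌋₊ + 1)) * (2 * H + 1) ^ (MM d - 1) := by
  classical
  have h00 : (0, 0) ∈ I d := by rw [mem_I]; exact ⟨Nat.zero_le _, le_rfl⟩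
  have hH' : (1 : ℝ) ≤ H := by exact_mod_cast hH
  have hY : (H : ℝ) * Th d w < (H : ℝ) ^ 2 + 1 := by
    have : (H : ℝ) * Th d w ≤ H * H := by gcongr
    nlinarith
  have key := card_fiber (H := H) (S := S) hS {⟨(0, 0), h00⟩}
    (2 * (4 * d * (⌊4 * KK d w * Real.log Y₁⌋₊ + 1))) ?_
  · rw [card_singleton] at key
    exact key
  intro b T hT hTb
  rcases T.eq_empty_or_nonempty with h0 | ⟨a₀, h0⟩
  · rw [h0, card_empty]
    exact Nat.zero_le _
  have hS0 := hT h0
  have hg0 := hg a₀ hS0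
  choose! x y hxy using hz
  have hagree : ∀ a ∈ T, ∀ a' ∈ T, ∀ p : ↥(I d), p ≠ ⟨(0, 0), h00⟩ → a p = a' p := by
    intro a ha a' ha' p hp
    have hpJ : p ∉ ({⟨(0, 0), h00⟩} : Finset ↥(I d)) := by rwa [mem_singleton]
    rw [hTb a ha p hpJ, hTb a' ha' p hpJ]
  have htop : ∀ a ∈ T, TopEq d (co a) (co a₀) := by
    intro a ha k i hk
    by_cases hmem : (k, i) ∈ I d
    · rw [co_of_mem a hmem, co_of_mem a₀ hmem]
      apply hagree a ha a₀ h0
      intro h
      have h1 := congrArg (fun p : ↥(I d) => p.1.1) h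
      have h2 : k = 0 := h1
      omega
    · unfold co
      rw [dif_neg hmem, dif_neg hmem]
  have htop' : ∀ a ∈ T, TopEq d (co (swV a)) (co (swV a₀)) := by
    intro a ha k i hk
    by_cases hmem : (k, i) ∈ I d
    · rw [co_swV a hmem, co_swV a₀ hmem]
      exact htop a ha k (k - i) hk
    · unfold co
      rw [dif_neg hmem, dif_neg hmem]
  have habs : ∀ n : ℤ, |(n : ℝ)| = ((n.natAbs : ℕ) : ℝ) := by
    intro n
    rw [← Int.cast_abs, Int.abs_eq_natAbs, Int.cast_natCast]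
  have b1 : (T.filter fun a => (x a).natAbs ≤ (y a).natAbs).card ≤
      4 * d * (⌊4 * KK d w * Real.log Y₁⌋₊ + 1) := by
    rw [← card_image_of_injOn (f := fun a => (x a, y a))]
    · apply card_mid hd hw hH' hY (co_le' (hS hS0)) hg0.g1 hg0.g2 (noRoot_of_lead (by omega) hg0.lead)
      intro P hP
      rw [mem_image] at hP
      obtain ⟨a, ha, rfl⟩ := hP
      rw [mem_filter] at ha
      obtain ⟨e1, e2, e3⟩ := hxy a (hT ha.1)
      rw [max_eq_right ha.2] at e2 e3
      refine ⟨co a, htop a ha.1, co_le' (hS (hT ha.1)), e1, ?_, ?_, ?_⟩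
      · rw [Int.abs_eq_natAbs, Int.abs_eq_natAbs]
        exact_mod_cast ha.2
      · rw [habs]
        have : H ^ 2 + 1 ≤ (y a).natAbs := e2
        exact_mod_cast this
      · rw [habs]
        exact e3
    · intro a ha a' ha' haa
      rw [mem_coe, mem_filter] at ha ha'
      have e1 := (hxy a (hT ha.1)).1
      have e2 := (hxy a' (hT ha'.1)).1
      simp only [Prod.mk.injEq] at haa
      rw [← haa.1, ← haa.2] at e2
      exact const_det h00 (hagree a ha.1 a' ha'.1) e1 e2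
  have b2 : (T.filter fun a => ¬ (x a).natAbs ≤ (y a).natAbs).card ≤
      4 * d * (⌊4 * KK d w * Real.log Y₁⌋₊ + 1) := by
    rw [← card_image_of_injOn (f := fun a => (y a, x a))]
    · apply card_mid hd hw hH' hY (co_le' (swV_mem (hS hS0))) hg0.g1' hg0.g2'
        (noRoot_swV (by omega) hg0.lead)
      intro P hP
      rw [mem_image] at hP
      obtain ⟨a, ha, rfl⟩ := hP
      rw [mem_filter, not_le] at ha
      obtain ⟨e1, e2, e3⟩ := hxy a (hT ha.1)
      rw [max_eq_left ha.2.le] at e2 e3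
      refine ⟨co (swV a), htop' a ha.1, co_le' (swV_mem (hS (hT ha.1))), ?_, ?_, ?_, ?_⟩
      · rw [Fv_swV]
        exact e1
      · rw [Int.abs_eq_natAbs, Int.abs_eq_natAbs]
        exact_mod_cast ha.2.le
      · rw [habs]
        have : H ^ 2 + 1 ≤ (x a).natAbs := e2
        exact_mod_cast this
      · rw [habs]
        exact e3
    · intro a ha a' ha' haa
      rw [mem_coe, mem_filter] at ha ha'
      have e1 := (hxy a (hT ha.1)).1
      have e2 := (hxy a' (hT ha'.1)).1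
      simp only [Prod.mk.injEq] at haa
      rw [← haa.1, ← haa.2] at e2
      exact const_det h00 (hagree a ha.1 a' ha'.1) e1 e2
  have h5 : (T.filter fun a => (x a).natAbs ≤ (y a).natAbs).card +
      (T.filter fun a => ¬ (x a).natAbs ≤ (y a).natAbs).card = T.card := by
    convert card_filter_add_card_filter_not (s := T) (fun a => (x a).natAbs ≤ (y a).natAbs)
  omega

end Pool.Agent.R414.DN
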