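import Pool.Agent.R414.DN.Lead

set_option autoImplicit false
set_option linter.unusedSectionVars false
set_option maxHeartbeats 400000

/-! Counting polynomials in one variable with a square factor. -/

open Finset Polynomial

namespace Pool.Agent.R414.DN

/-- a square factor over the integers -/
lemma exists_sqfactor {f : ℤ[X]} (hf : f ≠ 0)
    (hsq : ¬ Squarefree (f.map (Int.castRingHom ℚ))) :
    ∃ g h : ℤ[X], f = g * g * h ∧ 0 < g.natDegree := by
  unfold Squarefree at hsq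
  push Not at hsq
  obtain ⟨p, hp, hpu⟩ := hsq
  have hf' : f.map (Int.castRingHom ℚ) ≠ 0 := by
    rwa [Ne, Polynomial.map_eq_zero_iff (RingHom.injective_int _)]
  have hp0 : p ≠ 0 := by
    rintro rfl
    rw [mul_zero] at hp
    exact hf' (zero_dvd_iff.1 hp)
  have hpd : 0 < p.natDegree := by
    rw [Nat.pos_iff_ne_zero]
    intro h0
    apply hpu
    rw [natDegree_eq_zero] at h0
    obtain ⟨c, rfl⟩ := h0
    rw [isUnit_C]
    apply Ne.isUnit
    rintro rfl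
    exact hp0 C_0
  obtain ⟨b, hb, hbp⟩ := IsLocalization.integerNormalization_spec (nonZeroDivisors ℤ) p
  obtain ⟨q, hq⟩ : ∃ q, q = IsLocalization.integerNormalization (nonZeroDivisors ℤ) p := ⟨_, rfl⟩
  rw [← hq] at hbp
  have hb0 : (b : ℚ) ≠ 0 := by
    have := nonZeroDivisors.ne_zero hb
    exact_mod_cast this
  have hmap : q.map (Int.castRingHom ℚ) = C (b : ℚ) * p := by
    have : q.map (algebraMap ℤ ℚ) = C (b : ℚ) * p := by
      rw [hbp, zsmul_eq_mul, map_intCast]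
    exact this
  have hq1 : q.map (Int.castRingHom ℚ) ∣ p := by
    refine ⟨C (b : ℚ)⁻¹, ?_⟩
    rw [hmap, mul_comm (C (b : ℚ)), mul_assoc, ← C_mul, mul_inv_cancel₀ hb0, C_1, mul_one]
  have hgq : q.primPart.map (Int.castRingHom ℚ) ∣ q.map (Int.castRingHom ℚ) :=
    Polynomial.map_dvd _ (primPart_dvd q)
  have hdeg : q.primPart.natDegree = p.natDegree := by
    rw [natDegree_primPart, ← natDegree_map_eq_of_injective (RingHom.injective_int
      (Int.castRingHom ℚ)), hmap, natDegree_C_mul hb0]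
  have hdvd : q.primPart * q.primPart ∣ f := by
    rw [IsPrimitive.Int.dvd_iff_map_cast_dvd_map_cast _ _
      ((isPrimitive_primPart q).mul (isPrimitive_primPart q)), Polynomial.map_mul]
    exact (mul_dvd_mul (hgq.trans hq1) (hgq.trans hq1)).trans hp
  obtain ⟨h, hh⟩ := hdvd
  exact ⟨q.primPart, h, hh, by rw [hdeg]; exact hpd⟩

/-- coefficient vectors of nonzero polynomials of degree at most `d` with a square factor -/
noncomputable def sqS (d H : ℕ) : Finset (Fin (d + 1) → ℤ) := by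
  classical
  exact (ibox (Fin (d + 1)) H).filter fun f => pl d f ≠ 0 ∧
    ¬ Squarefree ((pl d f).map (Int.castRingHom ℚ))

/-- constant -/
def cS (d : ℕ) : ℕ := (2 ^ d * (d + 1)) ^ 2

lemma coeff_le_pl {d H : ℕ} {f : Fin (d + 1) → ℤ} (hH : ∀ i, |f i| ≤ (H : ℤ)) (i : ℕ) :
    |(pl d f).coeff i| ≤ H := by
  have hdeg := natDegree_pl_le d f
  by_cases hi : i ≤ d
  · have := coeff_pl d f ⟨i, by omega⟩
    simp only at this
    rw [this]
    exact hH _
  · rw [coeff_eq_zero_of_natDegree_lt (by omega)]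
    simp

lemma sq_bound {g h : ℤ[X]} {d : ℕ} (hne : g * g * h ≠ 0) (hd : (g * g * h).natDegree ≤ d) {H : ℕ}
    (hH : ∀ i, |(g * g * h).coeff i| ≤ H) (i j : ℕ) (hi : 1 ≤ (g.coeff i).natAbs) :
    (h.coeff j).natAbs ≤ cS d * H / (g.coeff i).natAbs ^ 2 := by
  have hgh : g * (g * h) ≠ 0 := by rw [← mul_assoc]; exact hne
  have hgh' : g * h ≠ 0 := right_ne_zero_of_mul hgh
  have hH1 : ∀ i, |(g * (g * h)).coeff i| ≤ H := by rw [← mul_assoc]; exact hH
  have hd1 : (g * (g * h)).natDegree ≤ d := by rw [← mul_assoc]; exact hd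
  have hd2 : (g * h).natDegree ≤ d := by
    refine le_trans ?_ hd1
    rw [natDegree_mul (left_ne_zero_of_mul hgh) hgh']
    omega
  set m := (g.coeff i).natAbs with hm
  have hmono : ∀ e ≤ d, 2 ^ e * (e + 1) ≤ 2 ^ d * (d + 1) := fun e he =>
    Nat.mul_le_mul (Nat.pow_le_pow_right two_pos he) (by omega)
  have h1 : ∀ k, ((g * h).coeff k).natAbs ≤ 2 ^ d * (d + 1) * H / m := by
    intro k
    have h2 := factor_bound hgh rfl hH1 i k
    rw [Int.abs_eq_natAbs, Int.abs_eq_natAbs] at h2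
    have h3 : m * ((g * h).coeff k).natAbs ≤
        2 ^ (g * (g * h)).natDegree * ((g * (g * h)).natDegree + 1) * H := by exact_mod_cast h2
    rw [Nat.le_div_iff_mul_le (by omega), mul_comm]
    exact h3.trans (Nat.mul_le_mul_right _ (hmono _ hd1))
  have h4 := factor_bound hgh' rfl (H := 2 ^ d * (d + 1) * H / m) (fun k => by
    rw [Int.abs_eq_natAbs]
    exact_mod_cast h1 k) i j
  rw [Int.abs_eq_natAbs, Int.abs_eq_natAbs] at h4
  have h5 : m * (h.coeff j).natAbs ≤ 2 ^ (g * h).natDegree * ((g * h).natDegree + 1) *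
      (2 ^ d * (d + 1) * H / m) := by exact_mod_cast h4
  rw [Nat.le_div_iff_mul_le (pow_pos (by omega) 2)]
  calc (h.coeff j).natAbs * m ^ 2 = m * (h.coeff j).natAbs * m := by ring
    _ ≤ 2 ^ d * (d + 1) * (2 ^ d * (d + 1) * H / m) * m :=
        Nat.mul_le_mul_right _ (h5.trans (Nat.mul_le_mul_right _ (hmono _ hd2)))
    _ = 2 ^ d * (d + 1) * (2 ^ d * (d + 1) * H / m * m) := by ring
    _ ≤ 2 ^ d * (d + 1) * (2 ^ d * (d + 1) * H) :=
        Nat.mul_le_mul_left _ (Nat.div_mul_le_self _ _)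
    _ = cS d * H := by unfold cS; ring

lemma sqS_sub (d H : ℕ) : sqS d H ⊆
    (Icc 1 (d / 2)).biUnion fun a => (range (d - 2 * a + 1)).biUnion fun b =>
      (Icc 1 (Nat.sqrt (cS d * H))).biUnion fun m =>
      ((((ibox (Fin (a + 1)) m).filter fun g => ∃ i, (g i).natAbs = m) ×ˢ
        ibox (Fin (b + 1)) (cS d * H / m ^ 2)).image
        fun p => fun i : Fin (d + 1) => (pl a p.1 * pl a p.1 * pl b p.2).coeff i) := by
  classical
  intro f hf
  unfold sqS at hf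
  rw [mem_filter, mem_ibox] at hf
  obtain ⟨hH, hne0, hsq⟩ := hf
  have hH' := coeff_le_pl hH
  have hdle := natDegree_pl_le d f
  obtain ⟨g, h, hgh, hg⟩ := exists_sqfactor hne0 hsq
  rw [hgh] at hH' hne0 hdle
  have hgg0 : g * g ≠ 0 := left_ne_zero_of_mul hne0
  have hg0 : g ≠ 0 := left_ne_zero_of_mul hgg0
  have hh0 : h ≠ 0 := right_ne_zero_of_mul hne0
  have hsum : 2 * g.natDegree + h.natDegree ≤ d := by
    rw [natDegree_mul hgg0 hh0, natDegree_mul hg0 hg0] at hdle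
    omega
  set a := g.natDegree with ha
  set b := h.natDegree with hb
  obtain ⟨i₀, -, hi₀⟩ := exists_max_image (univ : Finset (Fin (a + 1)))
    (fun i => (g.coeff i).natAbs) ⟨0, mem_univ 0⟩
  set m := (g.coeff i₀).natAbs with hm
  have hm1 : 1 ≤ m := by
    have h1 := hi₀ (Fin.last a) (mem_univ _)
    rw [Fin.val_last] at h1
    exact (natAbs_pos_of_lead hg0).trans h1
  have key : ∀ j, (h.coeff j).natAbs ≤ cS d * H / m ^ 2 := fun j =>
    sq_bound hne0 hdle hH' i₀ j hm1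
  have hmS : m ≤ Nat.sqrt (cS d * H) := by
    rw [Nat.le_sqrt']
    have h1 := (natAbs_pos_of_lead hh0).trans (key h.natDegree)
    by_contra hcon
    rw [Nat.div_eq_of_lt (not_le.1 hcon)] at h1
    omega
  rw [mem_biUnion]
  refine ⟨a, ?_, ?_⟩
  · rw [mem_Icc]
    omega
  rw [mem_biUnion]
  refine ⟨b, ?_, ?_⟩
  · rw [mem_range]
    omega
  rw [mem_biUnion]
  refine ⟨m, ?_, ?_⟩
  · rw [mem_Icc]
    exact ⟨hm1, hmS⟩
  rw [mem_image]
  refine ⟨(fun i => g.coeff i, fun i => h.coeff i), ?_, ?_⟩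
  · rw [mem_product, mem_filter, mem_ibox, mem_ibox]
    refine ⟨⟨?_, i₀, rfl⟩, ?_⟩
    · intro i
      have h1 := hi₀ i (mem_univ i)
      rw [Int.abs_eq_natAbs]
      exact_mod_cast h1
    · intro j
      rw [Int.abs_eq_natAbs]
      exact_mod_cast key j
  · funext i
    simp only
    rw [pl_coeff ha.symm.le, pl_coeff hb.symm.le, ← hgh]
    exact coeff_pl d f i

theorem card_sqS (d H : ℕ) (hd : 4 ≤ d) (hH : 1 ≤ H) :
    ((sqS d H).card : ℝ) ≤ (4 * d * (d + 1) ^ 2 * 9 ^ d * cS d ^ (d - 1)) * (H : ℝ) ^ (d - 1) := by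
  classical
  have hcS : 1 ≤ cS d := Nat.pow_pos (Nat.mul_pos (pow_pos two_pos d) (Nat.succ_pos d))
  have h0 := (card_le_card (sqS_sub d H)).trans
    (card_biUnion_le.trans (sum_le_sum fun a _ => (card_biUnion_le.trans
      (sum_le_sum fun b _ => card_biUnion_le))))
  have h1 : (sqS d H).card ≤ ∑ a ∈ Icc 1 (d / 2), ∑ b ∈ range (d - 2 * a + 1),
      ∑ m ∈ Icc 1 (Nat.sqrt (cS d * H)),
      ((a + 1) * (2 * (2 * m + 1) ^ a)) * (2 * (cS d * H / m ^ 2) + 1) ^ (b + 1) := by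
    refine h0.trans (sum_le_sum fun a _ => sum_le_sum fun b _ => sum_le_sum fun m _ => ?_)
    refine card_image_le.trans ?_
    rw [card_product, card_ibox, Fintype.card_fin]
    exact Nat.mul_le_mul_right _ (card_maxeq a m)
  have h2 : ((sqS d H).card : ℝ) ≤ ∑ a ∈ Icc 1 (d / 2), ∑ b ∈ range (d - 2 * a + 1),
      ∑ m ∈ Icc 1 (Nat.sqrt (cS d * H)),
      (((a + 1 : ℕ) : ℝ) * (2 * (2 * m + 1) ^ a)) *
        (2 * ((cS d * H / m ^ 2 : ℕ) : ℝ) + 1) ^ (b + 1) := by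
    have := @Nat.cast_le ℝ _ _ _ _ |>.2 h1
    refine this.trans (le_of_eq ?_)
    push_cast
    rfl
  refine h2.trans ?_
  obtain ⟨K, hK⟩ : ∃ K : ℝ, K = ((cS d * H : ℕ) : ℝ) := ⟨_, rfl⟩
  have hK1 : (1 : ℝ) ≤ K := by rw [hK]; exact_mod_cast Nat.mul_pos hcS hH
  have hterm : ∀ a ∈ Icc 1 (d / 2), ∀ b ∈ range (d - 2 * a + 1),
      ∀ m ∈ Icc 1 (Nat.sqrt (cS d * H)),
      (((a + 1 : ℕ) : ℝ) * (2 * (2 * (m : ℝ) + 1) ^ a)) *
        (2 * ((cS d * H / m ^ 2 : ℕ) : ℝ) + 1) ^ (b + 1) ≤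
      (2 * (d + 1) * 9 ^ d * K ^ (d - 1)) * (1 / (m : ℝ) ^ 2) := by
    intro a ha b hb m hm
    rw [mem_Icc] at ha hm
    rw [mem_range] at hb
    have hm1 : (1 : ℝ) ≤ m := by exact_mod_cast hm.1
    have hm0 : (0 : ℝ) < m := by linarith
    have hmK : (m : ℝ) ^ 2 ≤ K := by
      rw [hK]
      have := Nat.le_sqrt'.1 hm.2
      exact_mod_cast this
    have e1 : ((cS d * H / m ^ 2 : ℕ) : ℝ) ≤ K / (m : ℝ) ^ 2 := by
      have h3 : ((cS d * H / m ^ 2 : ℕ) : ℝ) ≤ ((cS d * H : ℕ) : ℝ) / ((m ^ 2 : ℕ) : ℝ) :=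
        Nat.cast_div_le
      rw [hK]
      refine h3.trans (le_of_eq ?_)
      push_cast
      rfl
    have e2 : (1 : ℝ) ≤ K / (m : ℝ) ^ 2 := by rw [le_div_iff₀ (by positivity)]; linarith
    have e3 : (2 * ((cS d * H / m ^ 2 : ℕ) : ℝ) + 1) ^ (b + 1) ≤
        3 ^ d * (K / (m : ℝ) ^ 2) ^ (d - 1) := by
      calc (2 * ((cS d * H / m ^ 2 : ℕ) : ℝ) + 1) ^ (b + 1)
          ≤ (3 * (K / (m : ℝ) ^ 2)) ^ (b + 1) := by
            gcongr
            linarith
        _ = 3 ^ (b + 1) * (K / (m : ℝ) ^ 2) ^ (b + 1) := mul_pow _ _ _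
        _ ≤ 3 ^ d * (K / (m : ℝ) ^ 2) ^ (d - 1) := by
            gcongr
            · norm_num
            · omega
            · omega
    have e4 : (2 * (m : ℝ) + 1) ^ a ≤ 3 ^ d * (m : ℝ) ^ a := by
      calc (2 * (m : ℝ) + 1) ^ a ≤ (3 * (m : ℝ)) ^ a := by gcongr; linarith
        _ = 3 ^ a * (m : ℝ) ^ a := mul_pow _ _ _
        _ ≤ _ := by
            gcongr
            · norm_num
            · omega
    have e5 : (((a + 1 : ℕ) : ℝ)) ≤ (d : ℝ) + 1 := by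
      have : a ≤ d := by omega
      push_cast
      have : (a : ℝ) ≤ d := by exact_mod_cast this
      linarith
    have e6 : (m : ℝ) ^ a * (K / (m : ℝ) ^ 2) ^ (d - 1) ≤ K ^ (d - 1) * (1 / (m : ℝ) ^ 2) := by
      have e7 : (m : ℝ) ^ (a + 2) ≤ ((m : ℝ) ^ 2) ^ (d - 1) := by
        rw [← pow_mul]
        apply pow_le_pow_right₀ hm1
        omega
      rw [div_pow, mul_one_div, le_div_iff₀ (by positivity), ← mul_div_assoc, div_mul_eq_mul_div,
        div_le_iff₀ (by positivity)]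
      calc (m : ℝ) ^ a * K ^ (d - 1) * (m : ℝ) ^ 2 = K ^ (d - 1) * (m : ℝ) ^ (a + 2) := by ring
        _ ≤ _ := by gcongr
    calc (((a + 1 : ℕ) : ℝ) * (2 * (2 * (m : ℝ) + 1) ^ a)) *
        (2 * ((cS d * H / m ^ 2 : ℕ) : ℝ) + 1) ^ (b + 1)
        ≤ (((d : ℝ) + 1) * (2 * (3 ^ d * (m : ℝ) ^ a))) * (3 ^ d * (K / (m : ℝ) ^ 2) ^ (d - 1)) := by
          gcongr
      _ = (2 * (d + 1) * (3 ^ d * 3 ^ d)) * ((m : ℝ) ^ a * (K / (m : ℝ) ^ 2) ^ (d - 1)) := by ring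
      _ ≤ (2 * (d + 1) * (3 ^ d * 3 ^ d)) * (K ^ (d - 1) * (1 / (m : ℝ) ^ 2)) := by gcongr
      _ = _ := by
        have : (9 : ℝ) ^ d = 3 ^ d * 3 ^ d := by rw [← mul_pow]; norm_num
        rw [this]
        ring
  have hsum : ∀ a ∈ Icc 1 (d / 2), ∀ b ∈ range (d - 2 * a + 1),
      ∑ m ∈ Icc 1 (Nat.sqrt (cS d * H)),
      (((a + 1 : ℕ) : ℝ) * (2 * (2 * (m : ℝ) + 1) ^ a)) *
        (2 * ((cS d * H / m ^ 2 : ℕ) : ℝ) + 1) ^ (b + 1) ≤
      (2 * (d + 1) * 9 ^ d * K ^ (d - 1)) * 2 := by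
    intro a ha b hb
    refine (sum_le_sum (hterm a ha b hb)).trans ?_
    rw [← mul_sum]
    have : ∑ m ∈ Icc 1 (Nat.sqrt (cS d * H)), 1 / (m : ℝ) ^ 2 =
        ∑ Y ∈ range (Nat.sqrt (cS d * H)), 1 / (((Y : ℝ) + 1) ^ 2) := by
      have h3 : Icc 1 (Nat.sqrt (cS d * H)) = Ico (0 + 1) (Nat.sqrt (cS d * H) + 1) := by
        ext m
        rw [mem_Icc, mem_Ico]
        omega
      rw [h3, range_eq_Ico, ← sum_Ico_add' (fun m : ℕ => 1 / (m : ℝ) ^ 2)]
      refine sum_congr rfl fun m _ => ?_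
      push_cast
      rfl
    rw [this]
    gcongr
    exact sum_inv_sq' _
  refine (sum_le_sum fun a ha => sum_le_sum (hsum a ha)).trans ?_
  have hb : ∀ a ∈ Icc 1 (d / 2), ∑ _b ∈ range (d - 2 * a + 1),
      (2 * ((d : ℝ) + 1) * 9 ^ d * K ^ (d - 1)) * 2 ≤
      ((d : ℝ) + 1) * ((2 * (d + 1) * 9 ^ d * K ^ (d - 1)) * 2) := by
    intro a _
    rw [sum_const, card_range, nsmul_eq_mul]
    have : ((d - 2 * a + 1 : ℕ) : ℝ) ≤ (d : ℝ) + 1 := by
      have h3 : d - 2 * a + 1 ≤ d + 1 := by omega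
      exact_mod_cast h3
    gcongr
  refine (sum_le_sum hb).trans ?_
  rw [sum_const, nsmul_eq_mul, Nat.card_Icc]
  have hcd : ((d / 2 + 1 - 1 : ℕ) : ℝ) ≤ d := by
    have : d / 2 + 1 - 1 ≤ d := by omega
    exact_mod_cast this
  calc ((d / 2 + 1 - 1 : ℕ) : ℝ) * (((d : ℝ) + 1) * ((2 * (d + 1) * 9 ^ d * K ^ (d - 1)) * 2))
      ≤ (d : ℝ) * (((d : ℝ) + 1) * ((2 * (d + 1) * 9 ^ d * K ^ (d - 1)) * 2)) := by gcongr
    _ = _ := by
      rw [hK]
      push_cast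
      rw [mul_pow]
      ring

end Pool.Agent.R414.DN
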