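import Pool.Agent.R414.DN.Hom
import Pool.Agent.R414.DN.Sqf
import Pool.Agent.R414.DN.Mid
import Pool.Agent.H674R3.SiegelE

set_option autoImplicit false
set_option linter.unusedSectionVars false
set_option maxHeartbeats 400000

/-! The exceptional curves of the polynomial bound. -/

open Finset Polynomial

namespace Pool.Agent.R414.DN

variable {d H : ℕ}

/-- the two highest coefficients of the leading form vanish -/
theorem card_E1 (hd : 1 ≤ d) (S : Finset (Cf d)) (hS : S ⊆ ibox ↥(I d) H)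
    (h : ∀ a ∈ S, co a d d = 0 ∧ co a d (d - 1) = 0) :
    S.card ≤ (2 * H + 1) ^ (MM d - 2) := by
  classical
  have h1 : (d, d) ∈ I d := by rw [mem_I]; exact ⟨le_rfl, le_rfl⟩
  have h2 : (d, d - 1) ∈ I d := by rw [mem_I]; exact ⟨le_rfl, Nat.sub_le _ _⟩
  have hne : (⟨(d, d), h1⟩ : ↥(I d)) ≠ ⟨(d, d - 1), h2⟩ := by
    intro h
    have h3 := congrArg (fun p : ↥(I d) => p.1.2) h
    have h4 : d = d - 1 := h3
    omega
  have key := card_fiber (H := H) (S := S) hS {⟨(d, d), h1⟩, ⟨(d, d - 1), h2⟩} 1 ?_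
  · rw [card_pair hne, one_mul] at key
    exact key
  intro b T hT hTb
  rw [card_le_one]
  intro a ha a' ha'
  obtain ⟨e1, e2⟩ := h a (hT ha)
  obtain ⟨e1', e2'⟩ := h a' (hT ha')
  rw [co_of_mem _ h1] at e1 e1'
  rw [co_of_mem _ h2] at e2 e2'
  funext p
  by_cases hp : p ∈ ({⟨(d, d), h1⟩, ⟨(d, d - 1), h2⟩} : Finset ↥(I d))
  · rw [mem_insert, mem_singleton] at hp
    rcases hp with hp | hp
    · rw [hp, e1, e1']
    · rw [hp, e2, e2']
  · rw [hTb a ha p hp, hTb a' ha' p hp]

/-- the leading form is not squarefree -/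
theorem card_E2 (hd : 4 ≤ d) (hH : 1 ≤ H) (S : Finset (Cf d)) (hS : S ⊆ ibox ↥(I d) H)
    (h : ∀ a ∈ S, (co a d d ≠ 0 ∨ co a d (d - 1) ≠ 0) ∧
      ¬ Squarefree ((pl d (topRow a)).map (Int.castRingHom ℚ))) :
    (S.card : ℝ) ≤ (4 * d * (d + 1) ^ 2 * 9 ^ d * cS d ^ (d - 1)) *
      (2 * (H : ℝ) + 1) ^ (MM d - 2) := by
  classical
  have key := card_fiber (H := H) (S := S) hS (JT d) (sqS d H).card ?_
  · rw [card_JT] at key
    have h1 : (S.card : ℝ) ≤ (sqS d H).card * (2 * (H : ℝ) + 1) ^ (MM d - (d + 1)) := by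
      exact_mod_cast key
    refine h1.trans ?_
    have h2 := card_sqS d H hd hH
    have hM := MM_pos d
    have h3 : (2 * (H : ℝ) + 1) ^ (MM d - 2) = (2 * (H : ℝ) + 1) ^ (d - 1) *
        (2 * (H : ℝ) + 1) ^ (MM d - (d + 1)) := by
      rw [← pow_add]
      congr 1
      omega
    calc ((sqS d H).card : ℝ) * (2 * (H : ℝ) + 1) ^ (MM d - (d + 1))
        ≤ ((4 * d * (d + 1) ^ 2 * 9 ^ d * cS d ^ (d - 1)) * (H : ℝ) ^ (d - 1)) *
          (2 * (H : ℝ) + 1) ^ (MM d - (d + 1)) := by gcongr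
      _ ≤ ((4 * d * (d + 1) ^ 2 * 9 ^ d * cS d ^ (d - 1)) * (2 * (H : ℝ) + 1) ^ (d - 1)) *
          (2 * (H : ℝ) + 1) ^ (MM d - (d + 1)) := by
          gcongr
          linarith [(Nat.cast_nonneg H : (0 : ℝ) ≤ H)]
      _ = _ := by rw [h3]; ring
  · intro b T hT hTb
    apply card_le_card_of_injOn topRow
    · intro a ha
      rw [mem_coe] at ha ⊢
      obtain ⟨e1, e2⟩ := h a (hT ha)
      unfold sqS
      rw [mem_filter, mem_ibox]
      refine ⟨fun i => co_le (hS (hT ha)) _ _, ?_, e2⟩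
      intro h0
      rcases e1 with e1 | e1
      · apply e1
        have := coeff_pl d (topRow a) ⟨d, by omega⟩
        rw [h0, coeff_zero] at this
        exact this.symm
      · apply e1
        have := coeff_pl d (topRow a) ⟨d - 1, by omega⟩
        rw [h0, coeff_zero] at this
        exact this.symm
    · intro a ha a' ha' haa
      rw [mem_coe] at ha ha'
      funext p
      by_cases hp : p ∈ JT d
      · have hpI := mem_I.1 p.2
        unfold JT at hp
        rw [mem_filter] at hp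
        have h3 := congrFun haa ⟨p.1.2, by omega⟩
        unfold topRow at h3
        simp only at h3
        have h4 : (d, p.1.2) ∈ I d := by rw [mem_I]; omega
        have h5 : p = ⟨(d, p.1.2), h4⟩ := by
          apply Subtype.ext
          apply Prod.ext
          · exact hp.2
          · rfl
        rw [co_of_mem a h4, co_of_mem a' h4] at h3
        rw [h5]
        exact h3
      · rw [hTb a ha p hp, hTb a' ha' p hp]

/-- a root of the leading form has full degree -/
lemma full_degree {a : Cf d} (h : Lead a) {t : ℝ} (ht : TT (co a) d 0 t = 0) {m : ℕ} (hm : m < d)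
    (ψ : ℕ → ℤ) (hψ : ∑ j ∈ range (m + 1), (ψ j : ℝ) * t ^ j = 0) (j : ℕ) (hj : j ≤ m) : ψ j = 0 := by
  have hroot : aeval t ((pl d (topRow a)).map (Int.castRingHom ℚ)) = 0 := by
    rw [← ht, TT_zero]
    unfold pl
    rw [Polynomial.map_sum, map_sum, ← Fin.sum_univ_eq_sum_range (fun j => (co a d j : ℝ) * t ^ j)]
    refine sum_congr rfl fun i _ => ?_
    simp [topRow]
  have h1 := minpoly.eq_of_irreducible h.2 hroot
  have hlc : ((pl d (topRow a)).map (Int.castRingHom ℚ)).leadingCoeff ≠ 0 :=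
    leadingCoeff_ne_zero.2 h.2.ne_zero
  have h2 : (minpoly ℚ t).natDegree = d := by
    rw [← h1, natDegree_mul_C (inv_ne_zero hlc), natDegree_map_pl h.1]
  obtain ⟨P, hP⟩ : ∃ P : ℚ[X], P = ∑ j ∈ range (m + 1), C (ψ j : ℚ) * X ^ j := ⟨_, rfl⟩
  have h3 : aeval t P = 0 := by
    rw [hP, map_sum, ← hψ]
    refine sum_congr rfl fun j _ => ?_
    simp
  have h4 : P = 0 := by
    by_contra hne
    have h5 := natDegree_le_of_dvd (minpoly.dvd ℚ t h3) hne
    have h6 : P.natDegree ≤ m := by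
      rw [hP]
      apply natDegree_sum_le_of_forall_le
      intro i hi
      rw [mem_range] at hi
      refine (natDegree_C_mul_X_pow_le _ _).trans ?_
      omega
    omega
  have h5 := congrArg (fun q : ℚ[X] => q.coeff j) h4
  simp only [hP, finsetSum_coeff, coeff_C_mul_X_pow, coeff_zero] at h5
  rw [sum_eq_single_of_mem j (mem_range.2 (by omega)), if_pos rfl] at h5
  · exact_mod_cast h5
  · intro i _ hij
    rw [if_neg (Ne.symm hij)]

lemma TT1_ne {a : Cf d} (hd : 1 ≤ d) (h : Lead a) {t : ℝ} (ht : TT (co a) d 0 t = 0) :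
    TT (co a) d 1 t ≠ 0 := by
  intro h0
  obtain ⟨e, rfl⟩ : ∃ e, d = e + 1 := ⟨d - 1, by omega⟩
  have h1 : ∑ j ∈ range (e + 1), (((fun j : ℕ => ((j : ℤ) + 1) * co a (e + 1) (j + 1)) j : ℤ) : ℝ) *
      t ^ j = 0 := by
    rw [← h0]
    unfold TT
    rw [sum_range_succ' _ (e + 1)]
    simp only [Nat.choose_zero_succ, Nat.cast_zero, zero_mul, add_zero]
    refine sum_congr rfl fun j _ => ?_
    rw [Nat.choose_one_right, Nat.add_sub_cancel]
    push_cast
    ring
  have h2 := full_degree h ht (Nat.lt_succ_self e) _ h1 e le_rfl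
  rcases mul_eq_zero.1 h2 with h3 | h3
  · omega
  · exact h.1 h3

lemma line_coeffs {c : ℕ → ℕ → ℤ} (hd : 2 ≤ d) (t u : ℝ) :
    (FR c d (C t * X + C u) (X : ℝ[X])).coeff d = TT c d 0 t ∧
    (FR c d (C t * X + C u) (X : ℝ[X])).coeff (d - 1) = TT c (d - 1) 0 t + TT c d 1 t * u ∧
    (FR c d (C t * X + C u) (X : ℝ[X])).coeff (d - 2) =
      TT c (d - 2) 0 t + TT c (d - 1) 1 t * u + TT c d 2 t * u ^ 2 := by
  obtain ⟨e, rfl⟩ : ∃ e, d = e + 2 := ⟨d - 2, by omega⟩
  have e1 : e + 2 - 1 = e + 1 := by omega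
  have e2 : e + 2 - 2 = e := by omega
  rw [e1, e2]
  have hcoef : ∀ n, (FR c (e + 2) (C t * X + C u) (X : ℝ[X])).coeff n =
      ∑ k ∈ range (e + 2 + 1), if n ≤ k then TT c k (k - n) t * u ^ (k - n) else 0 := by
    intro n
    unfold FR
    rw [finsetSum_coeff]
    exact sum_congr rfl fun k _ => coef_row c k n t u
  have hlow : ∀ n, e ≤ n → ∑ k ∈ range e, (if n ≤ k then TT c k (k - n) t * u ^ (k - n) else 0) = 0 := by
    intro n hn
    apply sum_eq_zero
    intro k hk
    rw [mem_range] at hk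
    rw [if_neg (by omega)]
  refine ⟨?_, ?_, ?_⟩
  · rw [hcoef, sum_range_succ, sum_range_succ, sum_range_succ, hlow _ (by omega),
      if_neg (by omega), if_neg (by omega), if_pos le_rfl]
    simp
  · rw [hcoef, sum_range_succ, sum_range_succ, sum_range_succ, hlow _ (by omega),
      if_neg (by omega), if_pos le_rfl, if_pos (by omega)]
    have e1 : e + 2 - (e + 1) = 1 := by omega
    rw [e1, Nat.sub_self]
    simp
  · rw [hcoef, sum_range_succ, sum_range_succ, sum_range_succ, hlow _ le_rfl,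
      if_pos le_rfl, if_pos (by omega), if_pos (by omega)]
    have e1 : e + 1 - e = 1 := by omega
    have e2 : e + 2 - e = 2 := by omega
    rw [e1, e2, Nat.sub_self]
    simp

/-- the condition on lines -/
def LinesC {d : ℕ} (a : Cf d) : Prop := ∀ p q : Fin 2 → ℝ, q ≠ 0 →
  d ≤ (MvPolynomial.aeval (fun i => (C (p i) + C (q i) * X : ℝ[X])) (poly a)).natDegree + 2

lemma lines_fail {a : Cf d} (hd : 3 ≤ d) (h : Lead a) (hl : ¬ LinesC a) :
    ∃ t u : ℝ, TT (co a) d 0 t = 0 ∧ TT (co a) (d - 1) 0 t + TT (co a) d 1 t * u = 0 ∧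
      TT (co a) (d - 2) 0 t + TT (co a) (d - 1) 1 t * u + TT (co a) d 2 t * u ^ 2 = 0 := by
  unfold LinesC at hl
  push Not at hl
  obtain ⟨p, q, hq, hlt⟩ := hl
  have h1 : MvPolynomial.aeval (fun i => (C (p i) + C (q i) * X : ℝ[X])) (poly a) =
      FR (co a) d (C (p 0) + C (q 0) * X) (C (p 1) + C (q 1) * X : ℝ[X]) := by
    rw [aeval_poly]
    rfl
  rw [h1] at hlt
  by_cases hq1 : q 1 = 0
  · -- the line is parallel to the first axis
    exfalso
    have hq0 : q 0 ≠ 0 := by
      intro h4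
      apply hq
      funext i
      fin_cases i
      · exact h4
      · exact hq1
    rw [← FR_swV] at hlt
    have h2 : FR (co (swV a)) d (C (p 1) + C (q 1) * X) (C (p 0) + C (q 0) * X : ℝ[X]) =
        (FR (co (swV a)) d (C 0 * X + C (p 1)) (X : ℝ[X])).comp (C (p 0) + C (q 0) * X) := by
      rw [FR_comp]
      congr 1
      · rw [hq1]
        simp
      · rw [X_comp]
    rw [h2, natDegree_comp, natDegree_lin hq0, mul_one] at hlt
    have h3 := (line_coeffs (c := co (swV a)) (by omega : 2 ≤ d) 0 (p 1)).1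
    rw [coeff_eq_zero_of_natDegree_lt (by omega), TT_zero,
      sum_eq_single_of_mem 0 (mem_range.2 (Nat.succ_pos d))] at h3
    · rw [pow_zero, mul_one, co_swV a (by rw [mem_I]; omega), Nat.sub_zero] at h3
      exact h.1 (by exact_mod_cast h3.symm)
    · intro j _ hj
      rw [zero_pow hj, mul_zero]
  · have h2 : FR (co a) d (C (p 0) + C (q 0) * X) (C (p 1) + C (q 1) * X : ℝ[X]) =
        (FR (co a) d (C (q 0 / q 1) * X + C (p 0 - q 0 / q 1 * p 1)) (X : ℝ[X])).comp
          (C (p 1) + C (q 1) * X) := by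
      rw [FR_comp]
      congr 1
      · simp only [add_comp, mul_comp, C_comp, X_comp]
        have h3 : C (q 0 / q 1) * C (q 1) = (C (q 0) : ℝ[X]) := by
          rw [← C_mul]
          congr 1
          field_simp
        rw [C_sub, C_mul, mul_add, ← mul_assoc, h3]
        ring
      · rw [X_comp]
    rw [h2, natDegree_comp, natDegree_lin hq1, mul_one] at hlt
    obtain ⟨g1, g2, g3⟩ := line_coeffs (c := co a) (by omega : 2 ≤ d) (q 0 / q 1)
      (p 0 - q 0 / q 1 * p 1)
    rw [coeff_eq_zero_of_natDegree_lt (by omega)] at g1 g2 g3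
    exact ⟨_, _, g1.symm, g2.symm, g3.symm⟩

/-- the condition on lines fails -/
theorem card_E3 (hd : 4 ≤ d) (S : Finset (Cf d)) (hS : S ⊆ ibox ↥(I d) H)
    (h : ∀ a ∈ S, Lead a ∧ ¬ LinesC a) : S.card ≤ d * (2 * H + 1) ^ (MM d - (d - 1)) := by
  classical
  have hJ : ((univ : Finset ↥(I d)).filter fun p => p.1.1 = d - 2).card = d - 1 := by
    have : ((univ : Finset ↥(I d)).filter fun p => p.1.1 = d - 2).card = (range (d - 1)).card := by
      refine card_bij' (fun p _ => p.1.2)
        (fun k hk => ⟨(d - 2, k), by rw [mem_range] at hk; rw [mem_I]; omega⟩) ?_ ?_ ?_ ?_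
      · intro p hp
        rw [mem_filter] at hp
        have := mem_I.1 p.2
        rw [mem_range]
        omega
      · intro k hk
        rw [mem_filter]
        exact ⟨mem_univ _, rfl⟩
      · intro p hp
        rw [mem_filter] at hp
        apply Subtype.ext
        apply Prod.ext
        · exact hp.2.symm
        · rfl
      · intro k hk
        rfl
    rw [this, card_range]
  have key := card_fiber (H := H) (S := S) hS
    ((univ : Finset ↥(I d)).filter fun p => p.1.1 = d - 2) d ?_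
  · rw [hJ] at key
    exact key
  intro b T hT hTb
  rcases T.eq_empty_or_nonempty with h0 | ⟨a₀, h0⟩
  · rw [h0, card_empty]
    exact Nat.zero_le _
  have hex : ∀ a ∈ T, ∃ t u : ℝ, TT (co a) d 0 t = 0 ∧
      TT (co a) (d - 1) 0 t + TT (co a) d 1 t * u = 0 ∧
      TT (co a) (d - 2) 0 t + TT (co a) (d - 1) 1 t * u + TT (co a) d 2 t * u ^ 2 = 0 :=
    fun a ha => lines_fail (by omega) (h a (hT ha)).1 (h a (hT ha)).2
  choose! t u htu using hex
  have hrow : ∀ a ∈ T, ∀ a' ∈ T, ∀ k i, k ≠ d - 2 → co a k i = co a' k i := by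
    intro a ha a' ha' k i hk
    by_cases hmem : (k, i) ∈ I d
    · have hpJ : (⟨(k, i), hmem⟩ : ↥(I d)) ∉ (univ : Finset ↥(I d)).filter fun p => p.1.1 = d - 2 := by
        rw [mem_filter]
        rintro ⟨-, h4⟩
        exact hk h4
      rw [co_of_mem a hmem, co_of_mem a' hmem, hTb a ha _ hpJ, hTb a' ha' _ hpJ]
    · unfold co
      rw [dif_neg hmem, dif_neg hmem]
  have hTTrow : ∀ a ∈ T, ∀ a' ∈ T, ∀ k i s, k ≠ d - 2 → TT (co a) k i s = TT (co a') k i s := by
    intro a ha a' ha' k i s hk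
    unfold TT
    refine sum_congr rfl fun j _ => ?_
    rw [hrow a ha a' ha' k j hk]
  have hle : T.card ≤ (rts (co a₀) d).card := by
    apply card_le_card_of_injOn t
    · intro a ha
      rw [mem_coe] at ha ⊢
      apply mem_rts (noRoot_of_lead (by omega) (h a₀ (hT h0)).1)
      rw [hTTrow a₀ h0 a ha d 0 _ (by omega)]
      exact (htu a ha).1
    · intro a ha a' ha' haa
      rw [mem_coe] at ha ha'
      obtain ⟨e1, e2, e3⟩ := htu a ha
      obtain ⟨e1', e2', e3'⟩ := htu a' ha'
      rw [← haa] at e1' e2' e3'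
      have hne := TT1_ne (by omega) (h a (hT ha)).1 e1
      rw [← hTTrow a ha a' ha' (d - 1) 0 _ (by omega), ← hTTrow a ha a' ha' d 1 _ (by omega)] at e2'
      have hu : u a = u a' := by
        apply mul_left_cancel₀ hne
        linarith
      rw [← hTTrow a ha a' ha' (d - 1) 1 _ (by omega), ← hTTrow a ha a' ha' d 2 _ (by omega),
        ← hu] at e3'
      have h5 : ∑ j ∈ range (d - 2 + 1),
          (((fun j => co a (d - 2) j - co a' (d - 2) j) j : ℤ) : ℝ) * (t a) ^ j = 0 := by
        have h6 : TT (co a) (d - 2) 0 (t a) - TT (co a') (d - 2) 0 (t a) = 0 := by linarith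
        rw [TT_zero, TT_zero, ← sum_sub_distrib] at h6
        rw [← h6]
        refine sum_congr rfl fun j _ => ?_
        push_cast
        ring
      have h6 := full_degree (h a (hT ha)).1 e1 (by omega : d - 2 < d) _ h5
      funext p
      by_cases hp : p.1.1 = d - 2
      · have hpI := mem_I.1 p.2
        have h7 : co a (d - 2) p.1.2 - co a' (d - 2) p.1.2 = 0 := h6 p.1.2 (by omega)
        have h8 : (d - 2, p.1.2) ∈ I d := by rw [mem_I]; omega
        have h9 : p = ⟨(d - 2, p.1.2), h8⟩ := by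
          apply Subtype.ext
          apply Prod.ext
          · exact hp
          · rfl
        rw [co_of_mem a h8, co_of_mem a' h8] at h7
        rw [h9]
        linarith
      · have h7 := hrow a ha a' ha' p.1.1 p.1.2 hp
        rw [co_of_mem a p.2, co_of_mem a' p.2] at h7
        exact h7
  exact hle.trans (card_rts _ _)

/-- the bound for large points, second form -/
def LargeC (d G N : ℕ) : Prop := ∀ (H : ℕ), ∀ S : Finset (Cf d), S ⊆ ibox ↥(I d) H →
    (∀ a ∈ S, LF a ≠ 0 ∧ Squarefree (LF a) ∧ (Irreducible (LF a) → LinesC a) ∧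
      Irreducible (MvPolynomial.map (Int.castRingHom ℚ) (poly a)) ∧
      ∃ x y : ℤ, Fv (co a) d x y = 0 ∧
      ((d + 1) * Pool.Agent.H322R2.len (poly a)) ^ G < max x.natAbs y.natAbs) →
    S.card ≤ N * (2 * H + 1) ^ (4 * d - 2)

lemma card_low (hd : 4 ≤ d) :
    Fintype.card ↥(I d) - ((univ : Finset ↥(I d)).filter fun p => p.1.1 + 4 ≤ d).card = 4 * d - 2 := by
  classical
  have h1 : ((univ : Finset ↥(I d)).filter fun p => p.1.1 + 4 ≤ d).card = (I (d - 4)).card := by
    refine card_bij' (fun p _ => p.1) (fun q hq => ⟨q, by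
        have := mem_I.1 hq
        rw [mem_I]
        omega⟩) ?_ ?_ ?_ ?_
    · intro p hp
      rw [mem_filter] at hp
      have := mem_I.1 p.2
      rw [mem_I]
      omega
    · intro q hq
      rw [mem_filter]
      have := mem_I.1 hq
      refine ⟨mem_univ _, ?_⟩
      simp only
      omega
    · intro p _
      rfl
    · intro p _
      rfl
  rw [h1, Fintype.card_coe]
  have h2 := card_I d
  have h3 := card_I (d - 4)
  obtain ⟨e, rfl⟩ : ∃ e, d = e + 4 := ⟨d - 4, by omega⟩
  have e1 : e + 4 - 4 = e := by omega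
  rw [e1] at h3 ⊢
  have h4 : (e + 4 + 1) * (e + 4 + 2) = (e + 1) * (e + 2) + 8 * e + 28 := by ring
  omega

theorem exists_largeC (hd : 4 ≤ d) : LargeC d (Pool.Agent.H674R3.kG d)
    (Pool.Agent.H322R2.kN d * d) := by
  classical
  obtain ⟨N, hN⟩ : ∃ N, N = Pool.Agent.H322R2.kN d * d := ⟨_, rfl⟩
  obtain ⟨G, hG⟩ : ∃ G, G = Pool.Agent.H674R3.kG d := ⟨_, rfl⟩
  rw [← hN, ← hG]
  intro H S hS hz
  have key := card_fiber (H := H) (S := S) hS ((univ : Finset ↥(I d)).filter fun p => p.1.1 + 4 ≤ d)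
    N ?_
  · rw [card_low hd] at key
    exact key
  intro b T hT hTb
  rcases T.eq_empty_or_nonempty with h0 | ⟨a₀, h0⟩
  · rw [h0, card_empty]
    exact Nat.zero_le _
  have hS0 := hT h0
  obtain ⟨hne, hsq, hlines, -, -⟩ := hz a₀ hS0
  have hdeg : (poly a₀).totalDegree = d := by
    apply le_antisymm (totalDegree_poly_le a₀)
    by_contra hcon
    apply hne
    unfold LF
    rw [MvPolynomial.homogeneousComponent_eq_zero _ _ (not_le.1 hcon), map_zero]
  have hex : ∀ a ∈ S, ∃ x y : ℤ, Fv (co a) d x y = 0 ∧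
      ((d + 1) * Pool.Agent.H322R2.len (poly a)) ^ G < max x.natAbs y.natAbs :=
    fun a ha => (hz a ha).2.2.2.2
  choose! x y hxy using hex
  have hmain := Pool.Agent.H674R3.main6 (poly a₀) (by rw [hdeg]; exact hd)
    (by rw [hdeg]; exact hsq)
    (by
      rw [hdeg]
      exact hlines)
  rw [hdeg, ← hN, ← hG] at hmain
  have hinj : (T.image fun a => (poly a, x a, y a)).card = T.card := by
    apply card_image_of_injective
    intro a a' h
    exact poly_inj (Prod.mk.inj h).1
  have hsub : ((T.image fun a => (poly a, x a, y a) :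
      Finset (MvPolynomial (Fin 2) ℤ × ℤ × ℤ)) : Set (MvPolynomial (Fin 2) ℤ × ℤ × ℤ)) ⊆
      {t : MvPolynomial (Fin 2) ℤ × ℤ × ℤ | (t.1 - poly a₀).totalDegree + 4 ≤ d ∧
      Irreducible (MvPolynomial.map (Int.castRingHom ℚ) t.1) ∧
      MvPolynomial.eval ![t.2.1, t.2.2] t.1 = 0 ∧
      ((d + 1) * Pool.Agent.H322R2.len t.1) ^ G <
        max t.2.1.natAbs t.2.2.natAbs} := by
    intro t ht
    rw [mem_coe, mem_image] at ht
    obtain ⟨a, ha, rfl⟩ := ht
    have h3 := hxy a (hT ha)
    refine ⟨?_, (hz a (hT ha)).2.2.2.1, ?_, h3.2⟩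
    · apply totalDegree_sub hd
      intro p hp
      have hpJ : p ∉ (univ : Finset ↥(I d)).filter fun p => p.1.1 + 4 ≤ d := by
        rw [mem_filter]
        rintro ⟨-, h4⟩
        omega
      rw [hTb a ha p hpJ, hTb a₀ h0 p hpJ]
    · simp only
      rw [eval_poly]
      exact h3.1
  have h4 := (Set.encard_le_encard hsub).trans hmain
  rw [Set.encard_coe_eq_coe_finsetCard, hinj] at h4
  exact_mod_cast h4

end Pool.Agent.R414.DN
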