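import Pool.Agent.R414.DN.Exc
import Pool.Agent.R414.DN.Abs

set_option autoImplicit false
set_option linter.unusedSectionVars false
set_option maxHeartbeats 400000

/-! The exceptional curves of the polynomial bound: assembly. -/

open Finset Polynomial

namespace Pool.Agent.R414.DN

/-- exceptional coefficient vectors -/
noncomputable def excS (d H G : ℕ) : Finset (Cf d) := by
  classical
  exact (ibox ↥(I d) H).filter fun a =>
    Irreducible (MvPolynomial.map (Int.castRingHom ℚ) (poly a)) ∧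
    ∃ x y : ℤ, Fv (co a) d x y = 0 ∧
      ((d + 1) * Pool.Agent.H322R2.len (poly a)) ^ G < max x.natAbs y.natAbs

lemma mem_excS {d H G : ℕ} {a : Cf d} : a ∈ excS d H G ↔ a ∈ ibox ↥(I d) H ∧
    Irreducible (MvPolynomial.map (Int.castRingHom ℚ) (poly a)) ∧
    ∃ x y : ℤ, Fv (co a) d x y = 0 ∧
      ((d + 1) * Pool.Agent.H322R2.len (poly a)) ^ G < max x.natAbs y.natAbs := by
  classical
  unfold excS
  rw [mem_filter]

lemma MM_exps {d : ℕ} (hd : 5 ≤ d) : 4 * d - 2 ≤ MM d - 2 ∧ MM d - (d - 1) ≤ MM d - 2 := by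
  constructor
  · rw [MM_eq]
    obtain ⟨e, rfl⟩ : ∃ e, d = e + 5 := ⟨d - 5, by omega⟩
    have h2 : (e + 5 + 1) * (e + 5 + 2) = e * e + 13 * e + 42 := by ring
    rw [h2]
    have h3 : 0 ≤ e * e := Nat.zero_le _
    omega
  · omega

theorem card_excS {d G N : ℕ} (hL : LargeC d G N) (hd : 5 ≤ d) {H : ℕ} (hH : 1 ≤ H) :
    ((excS d H G).card : ℝ) ≤ (1 + (4 * d * (d + 1) ^ 2 * 9 ^ d * cS d ^ (d - 1)) + d + N) *
      (2 * (H : ℝ) + 1) ^ (MM d - 2) := by
  classical
  have hz : excS d H G ⊆ ibox ↥(I d) H := fun a ha => (mem_excS.1 ha).1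
  have hsub : excS d H G ⊆
      (excS d H G).filter (fun a => co a d d = 0 ∧ co a d (d - 1) = 0) ∪
      ((excS d H G).filter (fun a => (co a d d ≠ 0 ∨ co a d (d - 1) ≠ 0) ∧
        ¬ Squarefree ((pl d (topRow a)).map (Int.castRingHom ℚ))) ∪
      ((excS d H G).filter (fun a => Lead a ∧ ¬ LinesC a) ∪
      (excS d H G).filter (fun a => LF a ≠ 0 ∧ Squarefree (LF a) ∧
        (Irreducible (LF a) → LinesC a)))) := by
    intro a ha
    simp only [mem_union, mem_filter]
    by_cases h1 : co a d d = 0 ∧ co a d (d - 1) = 0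
    · exact Or.inl ⟨ha, h1⟩
    have h1' : co a d d ≠ 0 ∨ co a d (d - 1) ≠ 0 := by
      by_contra h
      push Not at h
      exact h1 h
    by_cases h2 : Squarefree ((pl d (topRow a)).map (Int.castRingHom ℚ))
    swap
    · exact Or.inr (Or.inl ⟨ha, h1', h2⟩)
    have h3 := squarefree_LF h1' h2
    by_cases h4 : Lead a ∧ ¬ LinesC a
    · exact Or.inr (Or.inr (Or.inl ⟨ha, h4⟩))
    · refine Or.inr (Or.inr (Or.inr ⟨ha, h3.ne_zero, h3, ?_⟩))
      intro h5
      by_contra h6
      exact h4 ⟨lead_of_irr (by omega) h5, h6⟩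
  have b1 := card_E1 (by omega : 1 ≤ d)
    ((excS d H G).filter (fun a => co a d d = 0 ∧ co a d (d - 1) = 0))
    ((filter_subset _ _).trans hz) (fun a ha => (mem_filter.1 ha).2)
  have b2 := card_E2 (by omega : 4 ≤ d) hH
    ((excS d H G).filter (fun a => (co a d d ≠ 0 ∨ co a d (d - 1) ≠ 0) ∧
        ¬ Squarefree ((pl d (topRow a)).map (Int.castRingHom ℚ))))
    ((filter_subset _ _).trans hz) (fun a ha => (mem_filter.1 ha).2)
  have b3 := card_E3 (by omega : 4 ≤ d) ((excS d H G).filter (fun a => Lead a ∧ ¬ LinesC a))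
    ((filter_subset _ _).trans hz) (fun a ha => (mem_filter.1 ha).2)
  have b4 := hL H ((excS d H G).filter (fun a => LF a ≠ 0 ∧ Squarefree (LF a) ∧
        (Irreducible (LF a) → LinesC a)))
    ((filter_subset _ _).trans hz) (fun a ha => by
      have h1 := mem_filter.1 ha
      have h2 := mem_excS.1 h1.1
      exact ⟨h1.2.1, h1.2.2.1, h1.2.2.2, h2.2.1, h2.2.2⟩)
  have hMM := MM_exps hd
  have hpos : 0 < 2 * H + 1 := by omega
  have b3' : ((excS d H G).filter (fun a => Lead a ∧ ¬ LinesC a)).card ≤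
      d * (2 * H + 1) ^ (MM d - 2) :=
    b3.trans (Nat.mul_le_mul_left _ (Nat.pow_le_pow_right hpos hMM.2))
  have b4' : ((excS d H G).filter (fun a => LF a ≠ 0 ∧ Squarefree (LF a) ∧
        (Irreducible (LF a) → LinesC a))).card ≤ N * (2 * H + 1) ^ (MM d - 2) :=
    b4.trans (Nat.mul_le_mul_left _ (Nat.pow_le_pow_right hpos hMM.1))
  have hcard := (card_le_card hsub).trans ((card_union_le _ _).trans (add_le_add le_rfl
    ((card_union_le _ _).trans (add_le_add le_rfl (card_union_le _ _)))))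
  have hcard' := (Nat.cast_le (α := ℝ)).2 hcard
  simp only [Nat.cast_add] at hcard'
  have c1' : ((((excS d H G).filter (fun a => co a d d = 0 ∧ co a d (d - 1) = 0)).card : ℕ) : ℝ) ≤
      (2 * (H : ℝ) + 1) ^ (MM d - 2) := by exact_mod_cast b1
  have c3 : ((((excS d H G).filter (fun a => Lead a ∧ ¬ LinesC a)).card : ℕ) : ℝ) ≤
      d * (2 * (H : ℝ) + 1) ^ (MM d - 2) := by exact_mod_cast b3'
  have c4 : ((((excS d H G).filter (fun a => LF a ≠ 0 ∧ Squarefree (LF a) ∧
        (Irreducible (LF a) → LinesC a))).card : ℕ) : ℝ) ≤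
      N * (2 * (H : ℝ) + 1) ^ (MM d - 2) := by exact_mod_cast b4'
  linarith

/-- vectors with vanishing constant coefficient, `¬ Lead` -/
lemma card_notLead0 {d H : ℕ} (hd : 4 ≤ d) (hH : 1 ≤ H) (S : Finset (Cf d))
    (hS : S ⊆ ibox ↥(I d) H) (h : ∀ a ∈ S, co a 0 0 = 0 ∧ ¬ Lead a) :
    (S.card : ℝ) ≤ (1 + 4 * d * (d + 1) * 3 ^ d * (3 * cR d) ^ d) * (2 * H + 1) ^ (MM d - 2) := by
  classical
  have h00 : (0, 0) ∈ I d := by rw [mem_I]; exact ⟨Nat.zero_le _, le_rfl⟩
  have hupd : ∀ (a : Cf d) (n : ℤ) (j : ℕ), co (Function.update a ⟨(0, 0), h00⟩ n) d j = co a d j := by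
    intro a n j
    apply co_update
    intro h1
    have h2 := congrArg Prod.fst h1
    simp only at h2
    omega
  have hLead : ∀ (a : Cf d) (n : ℤ), Lead (Function.update a ⟨(0, 0), h00⟩ n) → Lead a := by
    intro a n hL
    have h1 : topRow (Function.update a ⟨(0, 0), h00⟩ n) = topRow a := by
      funext j
      exact hupd a n j
    unfold Lead at hL ⊢
    rw [h1, hupd] at hL
    exact hL
  have hinj : Set.InjOn (fun q : Cf d × ℤ => Function.update q.1 (⟨(0, 0), h00⟩ : ↥(I d)) q.2)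
      ((S ×ˢ Icc (-(H : ℤ)) H : Finset (Cf d × ℤ)) : Set (Cf d × ℤ)) := by
    rintro ⟨a, n⟩ h1 ⟨a', n'⟩ h2 heq
    rw [mem_coe, mem_product] at h1 h2
    simp only at heq h1 h2
    have e1 := (h a h1.1).1
    have e2 := (h a' h2.1).1
    rw [co_of_mem _ h00] at e1 e2
    have hn : n = n' := by
      have h3 := congrFun heq (⟨(0, 0), h00⟩ : ↥(I d))
      rwa [Function.update_self, Function.update_self] at h3
    have ha : a = a' := by
      funext p
      by_cases hp : p = ⟨(0, 0), h00⟩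
      · rw [hp, e1, e2]
      · have h3 := congrFun heq p
        rwa [Function.update_of_ne hp, Function.update_of_ne hp] at h3
    rw [hn, ha]
  have h1 := card_notLead hd hH
    ((S ×ˢ Icc (-(H : ℤ)) H).image fun q => Function.update q.1 (⟨(0, 0), h00⟩ : ↥(I d)) q.2)
    (by
      intro b hb
      rw [mem_image] at hb
      obtain ⟨⟨a, n⟩, hq, rfl⟩ := hb
      rw [mem_product, mem_Icc, ← abs_le] at hq
      have h3 := mem_ibox.1 (hS hq.1)
      rw [mem_ibox]
      intro i
      by_cases hi : i = ⟨(0, 0), h00⟩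
      · rw [hi, Function.update_self]
        exact hq.2
      · rw [Function.update_of_ne hi]
        exact h3 i)
    (by
      intro b hb
      rw [mem_image] at hb
      obtain ⟨⟨a, n⟩, hq, rfl⟩ := hb
      rw [mem_product] at hq
      exact fun hL => (h a hq.1).2 (hLead a n hL))
  rw [card_image_of_injOn hinj, card_product, card_Icc_H] at h1
  push_cast at h1
  have hM : MM d - 1 = (MM d - 2) + 1 := by
    have := MM_pos d
    omega
  rw [hM, pow_succ, ← mul_assoc] at h1
  exact le_of_mul_le_mul_right h1 (by positivity)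

/-- curves through the origin, nonsingular there, with irreducible leading form -/
noncomputable def oS (d H : ℕ) : Finset (Cf d) := by
  classical
  exact (ibox ↥(I d) H).filter fun a => co a 0 0 = 0 ∧ co a 1 0 ≠ 0 ∧ Lead a

lemma mem_oS {d H : ℕ} {a : Cf d} : a ∈ oS d H ↔ a ∈ ibox ↥(I d) H ∧ co a 0 0 = 0 ∧
    co a 1 0 ≠ 0 ∧ Lead a := by
  classical
  unfold oS
  rw [mem_filter]

theorem card_oS {d H : ℕ} (hd : 4 ≤ d) (hH : 1 ≤ H) :
    (2 * (H : ℝ) + 1) ^ (MM d - 1) ≤ (oS d H).card +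
      (2 + 4 * d * (d + 1) * 3 ^ d * (3 * cR d) ^ d) * (2 * (H : ℝ) + 1) ^ (MM d - 2) := by
  classical
  have h00 : (0, 0) ∈ I d := by rw [mem_I]; exact ⟨Nat.zero_le _, le_rfl⟩
  have h10 : (1, 0) ∈ I d := by rw [mem_I]; exact ⟨by omega, Nat.zero_le _⟩
  have hne : (⟨(0, 0), h00⟩ : ↥(I d)) ≠ ⟨(1, 0), h10⟩ := by
    intro h
    have h3 := congrArg (fun p : ↥(I d) => p.1.1) h
    have h4 : 0 = 1 := h3
    omega
  have hsub : ibox0 H {(⟨(0, 0), h00⟩ : ↥(I d))} ⊆ oS d H ∪
      (ibox0 H {(⟨(0, 0), h00⟩ : ↥(I d)), ⟨(1, 0), h10⟩} ∪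
        (ibox ↥(I d) H).filter fun a => co a 0 0 = 0 ∧ ¬ Lead a) := by
    intro a ha
    have ha' := mem_ibox0.1 ha
    have hbox : a ∈ ibox ↥(I d) H := mem_ibox.2 fun i => (ha' i).1
    have h0 : a ⟨(0, 0), h00⟩ = 0 := (ha' _).2 (mem_singleton_self _)
    rw [mem_union, mem_union, mem_filter]
    by_cases h1 : a ⟨(1, 0), h10⟩ = 0
    · right; left
      rw [mem_ibox0]
      intro i
      refine ⟨(ha' i).1, fun hi => ?_⟩
      rw [mem_insert, mem_singleton] at hi
      rcases hi with hi | hi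
      · rw [hi, h0]
      · rw [hi, h1]
    by_cases h2 : Lead a
    · left
      rw [mem_oS, co_of_mem a h00, co_of_mem a h10]
      exact ⟨hbox, h0, h1, h2⟩
    · right; right
      rw [co_of_mem a h00]
      exact ⟨hbox, h0, h2⟩
  have hcard := (card_le_card hsub).trans ((card_union_le _ _).trans (add_le_add le_rfl
    (card_union_le _ _)))
  rw [card_ibox0, card_ibox0, card_singleton, card_pair hne] at hcard
  have b := card_notLead0 hd hH ((ibox ↥(I d) H).filter fun a => co a 0 0 = 0 ∧ ¬ Lead a)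
    (filter_subset _ _) (fun a ha => (mem_filter.1 ha).2)
  have hcard' := (Nat.cast_le (α := ℝ)).2 hcard
  push_cast at hcard'
  have hMM : Fintype.card ↥(I d) = MM d := rfl
  rw [hMM] at hcard'
  linarith

end Pool.Agent.R414.DN
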