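import Pool.Agent.R414.DN.Exd

set_option autoImplicit false
set_option linter.unusedSectionVars false
set_option maxHeartbeats 400000

/-! The exceptional curves of the polynomial bound, in terms of polynomials. -/

open Finset

namespace Pool.Agent.R414.DN

/-- a polynomial of the box comes from a coefficient vector of the box -/
lemma exists_vec {d H : ℕ} {F : MvPolynomial (Fin 2) ℤ} (hF : F.totalDegree ≤ d)
    (hH : ∀ m, |F.coeff m| ≤ (H : ℤ)) : ∃ a ∈ ibox ↥(I d) H, poly a = F := by
  refine ⟨fun p => F.coeff (mo p.1), mem_ibox.2 fun p => hH _, ?_⟩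
  ext m
  rw [coeff_poly]
  by_cases h : (m 0 + m 1, m 0) ∈ I d
  · rw [co_of_mem _ h]
    simp only
    congr 1
    exact (mo_eq rfl).symm
  · unfold co
    rw [dif_neg h]
    by_contra hne
    have h1 : m ∈ F.support := by
      rw [MvPolynomial.mem_support_iff]
      exact fun h2 => hne h2.symm
    have h2 := MvPolynomial.le_totalDegree h1
    have h3 : m.sum (fun _ e => e) = m 0 + m 1 := by
      rw [Finsupp.sum_fintype _ _ (by intro i; rfl), Fin.sum_univ_two]
    rw [h3] at h2
    apply h
    rw [mem_I]
    simp only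
    omega

lemma poly_box {d H : ℕ} {a : Cf d} (ha : a ∈ ibox ↥(I d) H) :
    (poly a).totalDegree ≤ d ∧ ∀ m, |(poly a).coeff m| ≤ (H : ℤ) := by
  refine ⟨totalDegree_poly_le a, fun m => ?_⟩
  rw [coeff_poly]
  exact co_le ha _ _

lemma ncard_box (d H : ℕ) (Q : MvPolynomial (Fin 2) ℤ → Prop)
    [DecidablePred fun a : Cf d => Q (poly a)] :
    Set.ncard {F : MvPolynomial (Fin 2) ℤ | F.totalDegree ≤ d ∧ (∀ m, |F.coeff m| ≤ (H : ℤ)) ∧
      Q F} = ((ibox ↥(I d) H).filter fun a => Q (poly a)).card := by
  classical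
  have h1 : {F : MvPolynomial (Fin 2) ℤ | F.totalDegree ≤ d ∧ (∀ m, |F.coeff m| ≤ (H : ℤ)) ∧
      Q F} = ((((ibox ↥(I d) H).filter fun a => Q (poly a)).image poly :
        Finset (MvPolynomial (Fin 2) ℤ)) : Set (MvPolynomial (Fin 2) ℤ)) := by
    ext F
    rw [mem_coe, mem_image]
    constructor
    · rintro ⟨h1, h2, h3⟩
      obtain ⟨a, ha, rfl⟩ := exists_vec h1 h2
      exact ⟨a, mem_filter.2 ⟨ha, h3⟩, rfl⟩
    · rintro ⟨a, ha, rfl⟩
      obtain ⟨h1, h2⟩ := mem_filter.1 ha
      exact ⟨(poly_box h1).1, (poly_box h1).2, h2⟩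
  rw [h1, Set.ncard_coe_finset, card_image_of_injective _ (fun a b h => poly_inj h)]

lemma constantCoeff_pderiv {R : Type} [CommRing R] (i : Fin 2) (f : MvPolynomial (Fin 2) R) :
    MvPolynomial.constantCoeff (MvPolynomial.pderiv i f) = f.coeff (Finsupp.single i 1) := by
  classical
  induction f using MvPolynomial.induction_on' with
  | monomial s a =>
    rw [MvPolynomial.pderiv_monomial, MvPolynomial.coeff_monomial,
      MvPolynomial.constantCoeff_monomial]
    by_cases hs : s = Finsupp.single i 1
    · rw [if_pos hs, hs]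
      simp
    · rw [if_neg hs]
      split_ifs with h
      · have h2 : s i = 0 := by
          by_contra hne
          apply hs
          have h3 : s ≤ Finsupp.single i 1 := tsub_eq_zero_iff_le.1 h
          ext j
          have h4 := h3 j
          by_cases hj : j = i
          · subst hj
            rw [Finsupp.single_eq_same] at h4 ⊢
            omega
          · rw [Finsupp.single_apply, if_neg (Ne.symm hj)] at h4 ⊢
            omega
        rw [h2]
        simp
      · rfl
  | add p q hp hq =>
    rw [map_add, map_add, MvPolynomial.coeff_add, hp, hq]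

lemma irr_descend {K : Type} [Field K] [CharZero K] {F : MvPolynomial (Fin 2) ℤ}
    (h : Irreducible (MvPolynomial.map (Int.castRingHom K) F)) :
    Irreducible (MvPolynomial.map (Int.castRingHom ℚ) F) := by
  obtain ⟨P, hP⟩ : ∃ P, P = MvPolynomial.map (Int.castRingHom ℚ) F := ⟨_, rfl⟩
  have h1 : MvPolynomial.map (Rat.castHom K) P = MvPolynomial.map (Int.castRingHom K) F := by
    have h2 : (Rat.castHom K).comp (Int.castRingHom ℚ) = Int.castRingHom K :=
      Subsingleton.elim _ _
    rw [hP, MvPolynomial.map_map, h2]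
  rw [← h1] at h
  rw [← hP]
  have hinj : Function.Injective (Rat.castHom K) := (Rat.castHom K).injective
  have hP0 : P ≠ 0 := by
    rintro rfl
    rw [map_zero] at h
    exact not_irreducible_zero h
  have hdeg : ∀ A : MvPolynomial (Fin 2) ℚ, (MvPolynomial.map (Rat.castHom K) A).totalDegree =
      A.totalDegree := by
    intro A
    unfold MvPolynomial.totalDegree
    rw [MvPolynomial.support_map_of_injective _ hinj]
  constructor
  · intro hu
    exact h.not_isUnit (hu.map _)
  · intro A B hAB
    have hA0 : A ≠ 0 := by rintro rfl; rw [zero_mul] at hAB; exact hP0 hAB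
    have hB0 : B ≠ 0 := by rintro rfl; rw [mul_zero] at hAB; exact hP0 hAB
    rw [hAB, map_mul] at h
    rcases h.isUnit_or_isUnit rfl with hu | hu
    · left
      apply Pool.Agent.H322R2.isUnit_of_totalDegree_zero hA0
      rw [← hdeg]
      exact Pool.Agent.H322R2.totalDegree_of_isUnit hu
    · right
      apply Pool.Agent.H322R2.isUnit_of_totalDegree_zero hB0
      rw [← hdeg]
      exact Pool.Agent.H322R2.totalDegree_of_isUnit hu

lemma hc_map {d : ℕ} (F : MvPolynomial (Fin 2) ℤ) :
    MvPolynomial.homogeneousComponent d (MvPolynomial.map (Int.castRingHom ℚ) F) =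
      MvPolynomial.map (Int.castRingHom ℚ) (MvPolynomial.homogeneousComponent d F) := by
  ext m
  rw [MvPolynomial.coeff_homogeneousComponent, MvPolynomial.coeff_map,
    MvPolynomial.coeff_map, MvPolynomial.coeff_homogeneousComponent]
  split_ifs <;> simp

/-- the curves of `oS` are absolutely irreducible -/
lemma oS_irr {d H : ℕ} (hd : 1 ≤ d) {a : Cf d} (ha : a ∈ oS d H) :
    Irreducible (MvPolynomial.map (Int.castRingHom (AlgebraicClosure ℚ)) (poly a)) := by
  obtain ⟨-, h00, h10, hL⟩ := mem_oS.1 ha
  have hdeg : (MvPolynomial.map (Int.castRingHom ℚ) (poly a)).totalDegree = d := by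
    refine Eq.trans ?_ (totalDegree_poly hL.1)
    unfold MvPolynomial.totalDegree
    rw [MvPolynomial.support_map_of_injective _ (RingHom.injective_int _)]
  have hirr : Irreducible (MvPolynomial.map (Int.castRingHom ℚ) (poly a)) := by
    apply Pool.Agent.H322R2.irr_of_lead
    · rw [hdeg]
      exact hd
    · rw [hdeg, hc_map]
      exact irr_poly hd hL
  have hcc : ∀ m : Fin 2 →₀ ℕ, (MvPolynomial.map (Int.castRingHom ℚ) (poly a)).coeff m =
      ((co a (m 0 + m 1) (m 0) : ℤ) : ℚ) := by
    intro m
    rw [MvPolynomial.coeff_map, coeff_poly]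
    rfl
  have hc : MvPolynomial.constantCoeff (MvPolynomial.map (Int.castRingHom ℚ) (poly a)) = 0 := by
    rw [MvPolynomial.constantCoeff_eq, hcc]
    simp [h00]
  have hp : MvPolynomial.constantCoeff (MvPolynomial.pderiv 1
      (MvPolynomial.map (Int.castRingHom ℚ) (poly a))) ≠ 0 := by
    rw [constantCoeff_pderiv, hcc]
    simpa using h10
  have key := @abs_irr (AlgebraicClosure ℚ) _ (AlgebraicClosure.instAlgebra ℚ) _ _ hirr hc 1 hp
  rw [MvPolynomial.map_map] at key
  have h3 : ∀ f g : ℤ →+* AlgebraicClosure ℚ, Irreducible (MvPolynomial.map f (poly a)) →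
      Irreducible (MvPolynomial.map g (poly a)) := by
    intro f g h
    rw [Subsingleton.elim g f]
    exact h
  exact h3 _ _ key

end Pool.Agent.R414.DN
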