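import Pool.Agent.R414.DN.Tay

set_option autoImplicit false
set_option linter.unusedSectionVars false

/-! The third order expansion of a branch at an asymptote. -/

open Finset

namespace Pool.Agent.R414.DN

lemma Fv_expand4 (c : ℕ → ℕ → ℤ) {d : ℕ} (hd : 4 ≤ d) {H W : ℝ} (hc : ∀ k i, |(c k i : ℝ)| ≤ H)
    (hW : 1 ≤ W) (x y : ℤ) (hy : y ≠ 0) (α u : ℝ) (hα : |α| ≤ 2) (hu : |u| ≤ W)
    (hx : (x : ℝ) = α * y + u) :
    ∃ R : ℝ, |R| ≤ (d + 1) ^ 2 * (c1 d * H * W ^ d) ∧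
      (Fv c d x y : ℝ) = (y : ℝ) ^ d * (TT c d 0 α + (1 / (y : ℝ)) * (TT c (d - 1) 0 α +
        TT c d 1 α * u) + (1 / (y : ℝ)) ^ 2 * (TT c (d - 2) 0 α + TT c (d - 1) 1 α * u +
        TT c d 2 α * u ^ 2) + (1 / (y : ℝ)) ^ 3 * (TT c (d - 3) 0 α + TT c (d - 2) 1 α * u +
        TT c (d - 1) 2 α * u ^ 2 + TT c d 3 α * u ^ 3) + (1 / (y : ℝ)) ^ 4 * R) := by
  have hH : 0 ≤ H := (abs_nonneg _).trans (hc 0 0)
  set s : ℝ := 1 / (y : ℝ) with hs
  have hs1 : |s| ≤ 1 := by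
    rw [hs, abs_div, abs_one]
    have : (1 : ℝ) ≤ |(y : ℝ)| := by
      rw [← Int.cast_abs]
      exact_mod_cast Int.one_le_abs hy
    rw [div_le_one (by linarith)]
    exact this
  set S := range (d + 1) ×ˢ range (d + 1) with hS
  refine ⟨∑ p ∈ S.filter (fun p => ¬ p.1 + p.2 < 4),
    TT c (d - p.1) p.2 α * u ^ p.2 * s ^ (p.1 + p.2 - 4), ?_, ?_⟩
  · calc |∑ p ∈ S.filter (fun p => ¬ p.1 + p.2 < 4),
          TT c (d - p.1) p.2 α * u ^ p.2 * s ^ (p.1 + p.2 - 4)|
        ≤ ∑ p ∈ S.filter (fun p => ¬ p.1 + p.2 < 4),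
          |TT c (d - p.1) p.2 α * u ^ p.2 * s ^ (p.1 + p.2 - 4)| := abs_sum_le_sum_abs _ _
      _ ≤ ∑ _p ∈ S.filter (fun p => ¬ p.1 + p.2 < 4), c1 d * H * W ^ d := by
          apply sum_le_sum
          intro p hp
          rw [mem_filter, hS, mem_product, mem_range, mem_range] at hp
          rw [abs_mul, abs_mul, abs_pow, abs_pow]
          have h1 := TT_le hc (Nat.sub_le d p.1) p.2 hα
          have h2 : |u| ^ p.2 ≤ W ^ d := by
            calc |u| ^ p.2 ≤ W ^ p.2 := by gcongr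
              _ ≤ W ^ d := pow_le_pow_right₀ hW (by omega)
          have h3 : |s| ^ (p.1 + p.2 - 4) ≤ 1 := pow_le_one₀ (abs_nonneg _) hs1
          have h4 : 0 ≤ c1 d * H := mul_nonneg (by linarith [c1_pos d]) hH
          calc |TT c (d - p.1) p.2 α| * |u| ^ p.2 * |s| ^ (p.1 + p.2 - 4)
              ≤ (c1 d * H) * W ^ d * 1 := by gcongr
            _ = _ := by ring
      _ ≤ ∑ _p ∈ S, c1 d * H * W ^ d := by
          apply sum_le_sum_of_subset_of_nonneg (filter_subset _ _)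
          intro _ _ _
          have := c1_pos d
          positivity
      _ = _ := by
          rw [sum_const, hS, card_product, card_range, nsmul_eq_mul]
          push_cast
          ring
  · rw [Fv_expand c d x y hy α u hx, ← hS, ← hs]
    congr 1
    rw [← sum_filter_add_sum_filter_not S (fun p => p.1 + p.2 < 4)]
    congr 1
    · have h1 : S.filter (fun p => p.1 + p.2 < 4) =
          (range 4 ×ˢ range 4).filter (fun p => p.1 + p.2 < 4) := by
        ext p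
        rw [mem_filter, mem_filter, hS, mem_product, mem_product, mem_range, mem_range, mem_range,
          mem_range]
        omega
      rw [h1, sum_filter, sum_product]
      simp only [sum_range_succ, sum_range_zero]
      norm_num
      ring
    · rw [mul_sum]
      refine sum_congr rfl fun p hp => ?_
      rw [mem_filter] at hp
      have h2 : s ^ (p.1 + p.2) = s ^ 4 * s ^ (p.1 + p.2 - 4) := by
        rw [← pow_add]
        congr 1
        omega
      rw [h2]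
      ring

/-- **Abstract expansion.** -/
lemma core_expand {K β g0 g1 g2 h0 h1 h2 h3 u s R : ℝ} (hK : 1 ≤ K) (hβ : |β| ≤ K)
    (hg0 : |g0| ≤ K) (hg1 : |g1| ≤ K) (hg2 : |g2| ≤ K) (hh0 : |h0| ≤ K) (hh1 : |h1| ≤ K)
    (hh2 : |h2| ≤ K) (hh3 : |h3| ≤ K) (hu : |u| ≤ K) (hs : |s| ≤ 1) (hR : |R| ≤ K)
    (heq : (u - β) + s * (g0 + g1 * u + g2 * u ^ 2) +
      s ^ 2 * (h0 + h1 * u + h2 * u ^ 2 + h3 * u ^ 3) + s ^ 3 * R = 0) :
    |u - β + (g0 + g1 * β + g2 * β ^ 2) * s -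
      (-((g1 + 2 * g2 * β) * (-(g0 + g1 * β + g2 * β ^ 2)) +
        (h0 + h1 * β + h2 * β ^ 2 + h3 * β ^ 3))) * s ^ 2| ≤ 200 * K ^ 9 * |s| ^ 3 := by
  have hK0 : 0 ≤ K := by linarith
  have hKp : ∀ m n : ℕ, m ≤ n → K ^ m ≤ K ^ n := fun m n h => pow_le_pow_right₀ hK h
  have hs0 : 0 ≤ |s| := abs_nonneg s
  have habs : ∀ a b : ℝ, |a + b| ≤ |a| + |b| := abs_add_le
  -- bounds of the polynomials
  have b2 : |g0 + g1 * u + g2 * u ^ 2| ≤ 3 * K ^ 3 := by
    calc |g0 + g1 * u + g2 * u ^ 2| ≤ |g0| + |g1| * |u| + |g2| * |u| ^ 2 := by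
          refine (habs _ _).trans ?_
          rw [abs_mul g2, abs_pow]
          gcongr
          refine (habs _ _).trans ?_
          rw [abs_mul]
      _ ≤ K + K * K + K * K ^ 2 := by gcongr
      _ ≤ 3 * K ^ 3 := by nlinarith [hKp 1 3 (by norm_num), hKp 2 3 (by norm_num)]
  have b3 : |h0 + h1 * u + h2 * u ^ 2 + h3 * u ^ 3| ≤ 4 * K ^ 4 := by
    calc |h0 + h1 * u + h2 * u ^ 2 + h3 * u ^ 3| ≤
          |h0| + |h1| * |u| + |h2| * |u| ^ 2 + |h3| * |u| ^ 3 := by
          refine (habs _ _).trans ?_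
          rw [abs_mul h3, abs_pow]
          gcongr
          refine (habs _ _).trans ?_
          rw [abs_mul h2, abs_pow]
          gcongr
          refine (habs _ _).trans ?_
          rw [abs_mul]
      _ ≤ K + K * K + K * K ^ 2 + K * K ^ 3 := by gcongr
      _ ≤ 4 * K ^ 4 := by
          nlinarith [hKp 1 4 (by norm_num), hKp 2 4 (by norm_num), hKp 3 4 (by norm_num)]
  have bv : |u - β| ≤ 8 * K ^ 4 * |s| := by
    have h : u - β = -(s * (g0 + g1 * u + g2 * u ^ 2) +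
      s ^ 2 * (h0 + h1 * u + h2 * u ^ 2 + h3 * u ^ 3) + s ^ 3 * R) := by linarith
    rw [h, abs_neg]
    calc |s * (g0 + g1 * u + g2 * u ^ 2) +
          s ^ 2 * (h0 + h1 * u + h2 * u ^ 2 + h3 * u ^ 3) + s ^ 3 * R|
        ≤ |s| * |g0 + g1 * u + g2 * u ^ 2| +
          |s| ^ 2 * |h0 + h1 * u + h2 * u ^ 2 + h3 * u ^ 3| + |s| ^ 3 * |R| := by
          refine (habs _ _).trans ?_
          rw [abs_mul (s ^ 3), abs_pow]
          gcongr
          refine (habs _ _).trans ?_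
          rw [abs_mul, abs_mul, abs_pow]
      _ ≤ |s| * (3 * K ^ 3) + |s| ^ 2 * (4 * K ^ 4) + |s| ^ 3 * K := by gcongr
      _ ≤ |s| * (3 * K ^ 4) + |s| * (4 * K ^ 4) + |s| * K ^ 4 := by
          have e1 : |s| ^ 2 ≤ |s| := by nlinarith
          have e2 : |s| ^ 3 ≤ |s| := by
            calc |s| ^ 3 = |s| * |s| ^ 2 := by ring
              _ ≤ |s| * 1 := by gcongr; exact pow_le_one₀ hs0 hs
              _ = |s| := mul_one _
          have e3 := hKp 3 4 (by norm_num)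
          have e4 : K ≤ K ^ 4 := by simpa using hKp 1 4 (by norm_num)
          gcongr
      _ = _ := by ring
  -- first order
  have d2 : (g0 + g1 * u + g2 * u ^ 2) - (g0 + g1 * β + g2 * β ^ 2) =
      (u - β) * (g1 + g2 * (u + β)) := by ring
  have b4 : |g1 + g2 * (u + β)| ≤ 3 * K ^ 2 := by
    calc |g1 + g2 * (u + β)| ≤ |g1| + |g2| * (|u| + |β|) := by
          refine (habs _ _).trans ?_
          rw [abs_mul]
          gcongr
          exact habs _ _
      _ ≤ K + K * (K + K) := by gcongr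
      _ ≤ _ := by nlinarith
  have bw : |u - β + (g0 + g1 * β + g2 * β ^ 2) * s| ≤ 29 * K ^ 6 * |s| ^ 2 := by
    have h : u - β + (g0 + g1 * β + g2 * β ^ 2) * s =
        -(s * ((u - β) * (g1 + g2 * (u + β))) +
        s ^ 2 * (h0 + h1 * u + h2 * u ^ 2 + h3 * u ^ 3) + s ^ 3 * R) := by
      rw [← d2]
      linarith
    rw [h, abs_neg]
    calc |s * ((u - β) * (g1 + g2 * (u + β))) +
          s ^ 2 * (h0 + h1 * u + h2 * u ^ 2 + h3 * u ^ 3) + s ^ 3 * R|
        ≤ |s| * (|u - β| * |g1 + g2 * (u + β)|) +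
          |s| ^ 2 * |h0 + h1 * u + h2 * u ^ 2 + h3 * u ^ 3| + |s| ^ 3 * |R| := by
          refine (habs _ _).trans ?_
          rw [abs_mul (s ^ 3), abs_pow]
          gcongr
          refine (habs _ _).trans ?_
          rw [abs_mul, abs_mul, abs_mul, abs_pow]
      _ ≤ |s| * ((8 * K ^ 4 * |s|) * (3 * K ^ 2)) + |s| ^ 2 * (4 * K ^ 4) + |s| ^ 3 * K := by
          gcongr
      _ ≤ |s| ^ 2 * (24 * K ^ 6) + |s| ^ 2 * (4 * K ^ 6) + |s| ^ 2 * K ^ 6 := by
          have e2 : |s| ^ 3 ≤ |s| ^ 2 := by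
            calc |s| ^ 3 = |s| ^ 2 * |s| := by ring
              _ ≤ |s| ^ 2 * 1 := by gcongr
              _ = |s| ^ 2 := mul_one _
          have e3 := hKp 4 6 (by norm_num)
          have e4 : K ≤ K ^ 6 := by simpa using hKp 1 6 (by norm_num)
          have e5 : |s| * ((8 * K ^ 4 * |s|) * (3 * K ^ 2)) = |s| ^ 2 * (24 * K ^ 6) := by ring
          rw [e5]
          gcongr
      _ = _ := by ring
  -- second order
  set γ' := g0 + g1 * β + g2 * β ^ 2 with hγ'
  have b5 : |g1 + 2 * g2 * β| ≤ 3 * K ^ 2 := by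
    calc |g1 + 2 * g2 * β| ≤ |g1| + 2 * |g2| * |β| := by
          refine (habs _ _).trans ?_
          rw [abs_mul, abs_mul]
          norm_num
      _ ≤ K + 2 * K * K := by gcongr
      _ ≤ _ := by nlinarith
  have d3 : (h0 + h1 * u + h2 * u ^ 2 + h3 * u ^ 3) - (h0 + h1 * β + h2 * β ^ 2 + h3 * β ^ 3) =
      (u - β) * (h1 + h2 * (u + β) + h3 * (u ^ 2 + u * β + β ^ 2)) := by ring
  have b6 : |h1 + h2 * (u + β) + h3 * (u ^ 2 + u * β + β ^ 2)| ≤ 6 * K ^ 3 := by
    calc |h1 + h2 * (u + β) + h3 * (u ^ 2 + u * β + β ^ 2)|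
        ≤ |h1| + |h2| * (|u| + |β|) + |h3| * (|u| ^ 2 + |u| * |β| + |β| ^ 2) := by
          refine (habs _ _).trans ?_
          rw [abs_mul h3]
          gcongr
          · refine (habs _ _).trans ?_
            rw [abs_mul]
            gcongr
            exact habs _ _
          · refine (habs _ _).trans ?_
            rw [abs_pow]
            gcongr
            refine (habs _ _).trans ?_
            rw [abs_mul, abs_pow]
      _ ≤ K + K * (K + K) + K * (K ^ 2 + K * K + K ^ 2) := by gcongr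
      _ ≤ _ := by nlinarith [hKp 1 3 (by norm_num), hKp 2 3 (by norm_num)]
  have h : u - β + γ' * s - (-((g1 + 2 * g2 * β) * (-γ') +
        (h0 + h1 * β + h2 * β ^ 2 + h3 * β ^ 3))) * s ^ 2 =
      -(s * ((g1 + 2 * g2 * β) * (u - β + γ' * s)) + s * (g2 * (u - β) ^ 2) +
        s ^ 2 * ((u - β) * (h1 + h2 * (u + β) + h3 * (u ^ 2 + u * β + β ^ 2))) + s ^ 3 * R) := by
    rw [← d3]
    have e : s * (g0 + g1 * u + g2 * u ^ 2) = s * γ' + s * ((g1 + 2 * g2 * β) * (u - β)) +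
        s * (g2 * (u - β) ^ 2) := by rw [hγ']; ring
    linear_combination heq - e
  rw [h, abs_neg]
  calc |s * ((g1 + 2 * g2 * β) * (u - β + γ' * s)) + s * (g2 * (u - β) ^ 2) +
        s ^ 2 * ((u - β) * (h1 + h2 * (u + β) + h3 * (u ^ 2 + u * β + β ^ 2))) + s ^ 3 * R|
      ≤ |s| * (|g1 + 2 * g2 * β| * |u - β + γ' * s|) + |s| * (|g2| * |u - β| ^ 2) +
        |s| ^ 2 * (|u - β| * |h1 + h2 * (u + β) + h3 * (u ^ 2 + u * β + β ^ 2)|) +
        |s| ^ 3 * |R| := by
        refine (habs _ _).trans ?_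
        rw [abs_mul (s ^ 3), abs_pow]
        gcongr
        refine (habs _ _).trans ?_
        rw [abs_mul (s ^ 2), abs_pow s 2, abs_mul (u - β)]
        gcongr
        refine (habs _ _).trans ?_
        rw [abs_mul, abs_mul, abs_mul s, abs_mul g2, abs_pow]
    _ ≤ |s| * ((3 * K ^ 2) * (29 * K ^ 6 * |s| ^ 2)) + |s| * (K * (8 * K ^ 4 * |s|) ^ 2) +
        |s| ^ 2 * ((8 * K ^ 4 * |s|) * (6 * K ^ 3)) + |s| ^ 3 * K := by gcongr
    _ = |s| ^ 3 * (87 * K ^ 8 + 64 * K ^ 9 + 48 * K ^ 7 + K) := by ring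
    _ ≤ |s| ^ 3 * (200 * K ^ 9) := by
        gcongr
        have e1 := hKp 8 9 (by norm_num)
        have e2 := hKp 7 9 (by norm_num)
        have e3 : K ≤ K ^ 9 := by simpa using hKp 1 9 (by norm_num)
        linarith
    _ = _ := by ring

end Pool.Agent.R414.DN
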