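import Pool.Agent.R414.DN.Asm

set_option autoImplicit false
set_option linter.unusedSectionVars false
set_option maxHeartbeats 400000

/-! The power saving. -/

open Finset

namespace Pool.Agent.R414.DN

lemma card_zS_le (d H : ℕ) : ((zS d H).card : ℝ) ≤ (2 * (H : ℝ) + 1) ^ MM d := by
  have h1 : (zS d H).card ≤ (ibox ↥(I d) H).card := by
    apply card_le_card
    intro a ha
    exact (mem_zS.1 ha).1
  rw [card_ibox] at h1
  exact_mod_cast h1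

lemma two_H_le {H : ℕ} (hH : 1 ≤ H) (n m : ℕ) (hnm : n ≤ m) :
    (2 * (H : ℝ) + 1) ^ n ≤ 3 ^ m * (H : ℝ) ^ n := by
  have hH' : (1 : ℝ) ≤ H := by exact_mod_cast hH
  calc (2 * (H : ℝ) + 1) ^ n ≤ (3 * H) ^ n := by gcongr; linarith
    _ = 3 ^ n * (H : ℝ) ^ n := mul_pow _ _ _
    _ ≤ 3 ^ m * (H : ℝ) ^ n := by
      gcongr
      norm_num

lemma log_Yn_le {d H G : ℕ} (hH : 1 ≤ H) :
    Real.log (Yn d H G) ≤ G * (Real.log ((d + 1) * MM d) + 2) * (H : ℝ) ^ (1 / 2 : ℝ) := by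
  have hH' : (1 : ℝ) ≤ H := by exact_mod_cast hH
  have hM : (1 : ℝ) ≤ (d + 1) * MM d := by
    have h1 : 1 ≤ (d + 1) * MM d := Nat.mul_pos (Nat.succ_pos d) (by have := MM_pos d; omega)
    exact_mod_cast h1
  have h1 : Real.log (Yn d H G) = G * (Real.log ((d + 1) * MM d) + Real.log H) := by
    unfold Yn
    push_cast
    rw [Real.log_pow, ← mul_assoc, Real.log_mul (by linarith) (by linarith)]
  have h2 : Real.log H ≤ 2 * (H : ℝ) ^ (1 / 2 : ℝ) := by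
    have := Real.log_le_rpow_div (by linarith : (0 : ℝ) ≤ H) (by norm_num : (0 : ℝ) < 1 / 2)
    linarith
  have h3 : 1 ≤ (H : ℝ) ^ (1 / 2 : ℝ) := Real.one_le_rpow hH' (by norm_num)
  have h4 : 0 ≤ Real.log ((d + 1) * MM d) := Real.log_nonneg hM
  rw [h1, mul_assoc]
  gcongr
  rw [add_mul (Real.log ((d + 1) * MM d)) 2]
  have h5 : Real.log ((d + 1) * MM d) ≤ Real.log ((d + 1) * MM d) * (H : ℝ) ^ (1 / 2 : ℝ) :=
    le_mul_of_one_le_right h4 h3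
  linarith

/-- **Power saving** in terms of coefficient vectors. -/
theorem main_box {d : ℕ} (hd : 4 ≤ d) : ∃ C : ℝ, ∀ H : ℕ, 1 ≤ H →
    ((zS d H).card : ℝ) ≤ C * (H : ℝ) ^ ((MM d : ℝ) - 1 / (2 * mE d)) := by
  obtain ⟨G, N, hL⟩ := exists_largeB hd
  obtain ⟨κ, hκ⟩ : ∃ κ : ℝ, κ = 1 / (2 * mE d) := ⟨_, rfl⟩
  have hmE : d + 2 ≤ mE d ∧ 6 ≤ mE d := by
    unfold mE
    constructor
    · have : (d + 1) * 9 + 6 ≤ ((d + 1) * 9 + 6) * d := Nat.le_mul_of_pos_right _ (by omega)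
      omega
    · have : (d + 1) * 9 + 6 ≤ ((d + 1) * 9 + 6) * d := Nat.le_mul_of_pos_right _ (by omega)
      omega
  have hm0 : (0 : ℝ) < mE d := by exact_mod_cast (by omega : 0 < mE d)
  have hκ0 : 0 < κ := by rw [hκ]; positivity
  have hκm : κ * mE d = 1 / 2 := by rw [hκ]; field_simp
  have hκd : κ * (d + 2) ≤ 1 / 2 := by
    rw [← hκm]
    have : ((d : ℝ) + 2) ≤ mE d := by exact_mod_cast hmE.1
    gcongr
  have hκ6 : κ * 6 ≤ 1 := by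
    have h1 : (6 : ℝ) ≤ mE d := by exact_mod_cast hmE.2
    have h2 : κ * 6 ≤ κ * mE d := by gcongr
    linarith
  have hκ1 : κ ≤ 1 := by linarith
  rw [← hκ]
  have hTh1 : 0 ≤ Th d 1 := by
    unfold Th QQ
    have h1 := c1_pos d
    have h2 := KK_one (by omega : 1 ≤ d) (le_refl (1 : ℝ))
    positivity
  have hK1 : 1 ≤ KK d 1 := KK_one (by omega : 1 ≤ d) (le_refl (1 : ℝ))
  obtain ⟨A, hA⟩ : ∃ A : ℝ, A = 10 * (3 + 2 * d * c1 d) ^ 2 + 30 * (2 * d * c1 d) ^ 5 *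
        (3 + 12 * d * c1 d) ^ 3 := ⟨_, rfl⟩
  obtain ⟨B, hB⟩ : ∃ B : ℝ, B = (1 + 48 * 2 ^ d) +
    (1 + 4 * d * (d + 1) * 3 ^ d * (3 * cR d) ^ d) := ⟨_, rfl⟩
  obtain ⟨L, hLg⟩ : ∃ L : ℝ, L = G * (Real.log ((d + 1) * MM d) + 2) := ⟨_, rfl⟩
  have hc1 := c1_pos d
  have hA0 : 0 ≤ A := by rw [hA]; positivity
  have hB0 : 0 ≤ B := by rw [hB]; positivity
  have hM1 : (1 : ℝ) ≤ (d + 1) * MM d := by
    have h1 : 1 ≤ (d + 1) * MM d := Nat.mul_pos (Nat.succ_pos d) (by have := MM_pos d; omega)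
    exact_mod_cast h1
  have hL0 : 0 ≤ L := by
    rw [hLg]
    have := Real.log_nonneg hM1
    positivity
  refine ⟨3 ^ MM d * (Th d 1 ^ 2) ^ κ + A * 3 ^ MM d +
    (B + 8 * d * (4 * KK d 1 * L + 1) + N) * 3 ^ MM d, ?_⟩
  intro H hH
  have hH' : (1 : ℝ) ≤ H := by exact_mod_cast hH
  have hH0 : (0 : ℝ) < H := by linarith
  have hT0 : 0 ≤ 3 ^ MM d * (Th d 1 ^ 2) ^ κ := by positivity
  have hA1 : 0 ≤ A * 3 ^ MM d := by positivity
  have hB1 : 0 ≤ (B + 8 * d * (4 * KK d 1 * L + 1) + N) * 3 ^ MM d := by positivity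
  have hpow0 : 0 ≤ (H : ℝ) ^ ((MM d : ℝ) - κ) := by positivity
  rcases le_or_gt (Th d 1 ^ 2) H with hbig | hsmall
  · -- large height
    obtain ⟨w, hw⟩ : ∃ w : ℝ, w = (H : ℝ) ^ κ := ⟨_, rfl⟩
    have hw1 : 1 ≤ w := by rw [hw]; exact Real.one_le_rpow hH' hκ0.le
    have hwp : ∀ n : ℕ, w ^ n = (H : ℝ) ^ (κ * n) := by
      intro n
      rw [hw, ← Real.rpow_natCast, ← Real.rpow_mul hH0.le]
    have hTh : Th d w ≤ H := by
      rw [Th_scale, hwp, hκm, ← Real.sqrt_eq_rpow]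
      have h1 : Th d 1 ≤ Real.sqrt H := Real.le_sqrt_of_sq_le hbig
      calc Th d 1 * Real.sqrt H ≤ Real.sqrt H * Real.sqrt H := by gcongr
        _ = H := Real.mul_self_sqrt hH0.le
    have hw6 : w ^ 6 ≤ H := by
      rw [hwp]
      calc (H : ℝ) ^ (κ * (6 : ℕ)) ≤ (H : ℝ) ^ (1 : ℝ) := by
            apply Real.rpow_le_rpow_of_exponent_le hH'
            push_cast
            exact hκ6
        _ = H := Real.rpow_one _
    have hmain := card_zS hL hd hH hw1 hTh hw6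
    rw [← hA, ← hB] at hmain
    have e1 : (2 * (H : ℝ) + 1) ^ MM d / w ≤ 3 ^ MM d * (H : ℝ) ^ ((MM d : ℝ) - κ) := by
      rw [Real.rpow_sub hH0, Real.rpow_natCast, ← hw, ← mul_div_assoc]
      gcongr
      exact two_H_le hH _ _ le_rfl
    have e2 : KK d w * Real.log (Yn d H G) ≤ KK d 1 * L * (H : ℝ) ^ (κ * (d + 1) + 1 / 2) := by
      have h1 := log_Yn_le (d := d) (G := G) hH
      rw [← hLg] at h1
      have h2 := Real.log_natCast_nonneg (Yn d H G)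
      rw [KK_scale, hwp, Real.rpow_add hH0]
      push_cast
      calc KK d 1 * (H : ℝ) ^ (κ * (d + 1)) * Real.log (Yn d H G)
          ≤ KK d 1 * (H : ℝ) ^ (κ * (d + 1)) * (L * (H : ℝ) ^ (1 / 2 : ℝ)) := by gcongr
        _ = _ := by ring
    have e3 : 1 ≤ (H : ℝ) ^ (κ * (d + 1) + 1 / 2) := Real.one_le_rpow hH' (by positivity)
    have e4 : B + 8 * d * (4 * KK d w * Real.log (Yn d H G) + 1) + N ≤
        (B + 8 * d * (4 * KK d 1 * L + 1) + N) * (H : ℝ) ^ (κ * (d + 1) + 1 / 2) := by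
      have h1 : B ≤ B * (H : ℝ) ^ (κ * (d + 1) + 1 / 2) := le_mul_of_one_le_right hB0 e3
      have h2 : (N : ℝ) ≤ N * (H : ℝ) ^ (κ * (d + 1) + 1 / 2) :=
        le_mul_of_one_le_right (Nat.cast_nonneg N) e3
      have h3 : 8 * d * (4 * KK d w * Real.log (Yn d H G) + 1) ≤
          8 * d * (4 * KK d 1 * L + 1) * (H : ℝ) ^ (κ * (d + 1) + 1 / 2) := by
        rw [mul_assoc (8 * (d : ℝ))]
        gcongr
        rw [add_mul, one_mul]
        have h4 : 4 * KK d w * Real.log (Yn d H G) = 4 * (KK d w * Real.log (Yn d H G)) := by ring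
        have h5 : 4 * KK d 1 * L * (H : ℝ) ^ (κ * (d + 1) + 1 / 2) =
          4 * (KK d 1 * L * (H : ℝ) ^ (κ * (d + 1) + 1 / 2)) := by ring
        rw [h4, h5]
        gcongr
      have h6 : (B + 8 * d * (4 * KK d 1 * L + 1) + N) * (H : ℝ) ^ (κ * (d + 1) + 1 / 2) =
        B * (H : ℝ) ^ (κ * (d + 1) + 1 / 2) +
          8 * d * (4 * KK d 1 * L + 1) * (H : ℝ) ^ (κ * (d + 1) + 1 / 2) +
          N * (H : ℝ) ^ (κ * (d + 1) + 1 / 2) := by ring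
      rw [h6]
      linarith
    have e5 : (H : ℝ) ^ (κ * (d + 1) + 1 / 2) * (2 * (H : ℝ) + 1) ^ (MM d - 1) ≤
        3 ^ MM d * (H : ℝ) ^ ((MM d : ℝ) - κ) := by
      have h1 := two_H_le hH (MM d - 1) (MM d) (Nat.sub_le _ _)
      have h2 : (H : ℝ) ^ (MM d - 1) = (H : ℝ) ^ ((MM d : ℝ) - 1) := by
        rw [← Real.rpow_natCast, Nat.cast_sub (by have := MM_pos d; omega), Nat.cast_one]
      calc (H : ℝ) ^ (κ * (d + 1) + 1 / 2) * (2 * (H : ℝ) + 1) ^ (MM d - 1)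
          ≤ (H : ℝ) ^ (κ * (d + 1) + 1 / 2) * (3 ^ MM d * (H : ℝ) ^ (MM d - 1)) := by gcongr
        _ = 3 ^ MM d * ((H : ℝ) ^ (κ * (d + 1) + 1 / 2) * (H : ℝ) ^ ((MM d : ℝ) - 1)) := by
          rw [h2]; ring
        _ = 3 ^ MM d * (H : ℝ) ^ (κ * (d + 1) + 1 / 2 + ((MM d : ℝ) - 1)) := by
          rw [← Real.rpow_add hH0]
        _ ≤ _ := by
          gcongr 3 ^ MM d * ?_
          apply Real.rpow_le_rpow_of_exponent_le hH'
          linarith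
    have e6 : (B + 8 * d * (4 * KK d w * Real.log (Yn d H G) + 1) + N) *
        (2 * (H : ℝ) + 1) ^ (MM d - 1) ≤
        (B + 8 * d * (4 * KK d 1 * L + 1) + N) * 3 ^ MM d * (H : ℝ) ^ ((MM d : ℝ) - κ) := by
      calc (B + 8 * d * (4 * KK d w * Real.log (Yn d H G) + 1) + N) *
            (2 * (H : ℝ) + 1) ^ (MM d - 1)
          ≤ ((B + 8 * d * (4 * KK d 1 * L + 1) + N) * (H : ℝ) ^ (κ * (d + 1) + 1 / 2)) *
            (2 * (H : ℝ) + 1) ^ (MM d - 1) := by gcongr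
        _ = (B + 8 * d * (4 * KK d 1 * L + 1) + N) * ((H : ℝ) ^ (κ * (d + 1) + 1 / 2) *
            (2 * (H : ℝ) + 1) ^ (MM d - 1)) := by ring
        _ ≤ (B + 8 * d * (4 * KK d 1 * L + 1) + N) *
            (3 ^ MM d * (H : ℝ) ^ ((MM d : ℝ) - κ)) := by gcongr
        _ = _ := by ring
    have e7 : A * ((2 * (H : ℝ) + 1) ^ MM d / w) ≤ A * 3 ^ MM d * (H : ℝ) ^ ((MM d : ℝ) - κ) := by
      rw [mul_assoc]
      gcongr
    have e8 : 0 ≤ 3 ^ MM d * (Th d 1 ^ 2) ^ κ * (H : ℝ) ^ ((MM d : ℝ) - κ) := by positivity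
    calc ((zS d H).card : ℝ) ≤ _ := hmain
      _ ≤ A * 3 ^ MM d * (H : ℝ) ^ ((MM d : ℝ) - κ) +
        (B + 8 * d * (4 * KK d 1 * L + 1) + N) * 3 ^ MM d * (H : ℝ) ^ ((MM d : ℝ) - κ) :=
          add_le_add e7 e6
      _ ≤ _ := by
        rw [add_mul, add_mul]
        linarith
  · -- bounded height
    have h1 := card_zS_le d H
    have h2 := two_H_le hH (MM d) (MM d) le_rfl
    have h3 : (H : ℝ) ^ MM d = (H : ℝ) ^ κ * (H : ℝ) ^ ((MM d : ℝ) - κ) := by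
      rw [← Real.rpow_add hH0, ← Real.rpow_natCast]
      congr 1
      ring
    have h4 : (H : ℝ) ^ κ ≤ (Th d 1 ^ 2) ^ κ := Real.rpow_le_rpow hH0.le hsmall.le hκ0.le
    calc ((zS d H).card : ℝ) ≤ 3 ^ MM d * (H : ℝ) ^ MM d := h1.trans h2
      _ = 3 ^ MM d * (H : ℝ) ^ κ * (H : ℝ) ^ ((MM d : ℝ) - κ) := by rw [h3]; ring
      _ ≤ 3 ^ MM d * (Th d 1 ^ 2) ^ κ * (H : ℝ) ^ ((MM d : ℝ) - κ) := by gcongr
      _ ≤ _ := by
        gcongr
        linarith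

end Pool.Agent.R414.DN
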