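import Pool.Agent.R414.DN.Win

set_option autoImplicit false
set_option linter.unusedSectionVars false

/-! Most curves satisfy the genericity conditions. -/

open Finset

namespace Pool.Agent.R414.DN

section gen

variable {ι : Type} [Fintype ι] [DecidableEq ι]

lemma mem_ibox0 {H : ℕ} {J : Finset ι} {a : ι → ℤ} :
    a ∈ ibox0 H J ↔ ∀ i, |a i| ≤ H ∧ (i ∈ J → a i = 0) := by
  unfold ibox0
  rw [Fintype.mem_piFinset]
  refine forall_congr' fun i => ?_
  split_ifs with h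
  · rw [mem_singleton]
    constructor
    · intro h1
      exact ⟨by rw [h1]; simp, fun _ => h1⟩
    · intro h1
      exact h1.2 h
  · rw [mem_Icc, ← abs_le]
    exact ⟨fun h1 => ⟨h1, fun h2 => absurd h2 h⟩, fun h1 => h1.1⟩

lemma card_windows {H : ℕ} {δ : ℝ} (hδ : 0 ≤ δ) (L : List (ι × ((ι → ℤ) → ℝ))) :
    ∀ (J : Finset ι) (S : Finset (ι → ℤ)), S ⊆ ibox0 H J →
      L.Pairwise (fun p q => q.1 ≠ p.1 ∧ ∀ a n, q.2 (Function.update a p.1 n) = q.2 a) →
      (∀ p ∈ L, p.1 ∉ J ∧ ∀ a n, p.2 (Function.update a p.1 n) = p.2 a) →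
      (∀ a ∈ S, ∀ p ∈ L, |(a p.1 : ℝ) - p.2 a| ≤ δ) →
      (S.card : ℝ) ≤ (2 * δ + 1) ^ L.length *
        (2 * (H : ℝ) + 1) ^ (Fintype.card ι - J.card - L.length) := by
  induction L with
  | nil =>
    intro J S hS _ _ _
    have h1 := card_le_card hS
    rw [card_ibox0] at h1
    simp only [List.length_nil, pow_zero, one_mul, Nat.sub_zero]
    exact_mod_cast h1
  | cons p L ih =>
    intro J S hS hP hL hw
    rw [List.pairwise_cons] at hP
    have hp := hL p List.mem_cons_self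
    have h1 := card_window (S := S) p.1 p.2 hp.2 hδ (fun a ha => hw a ha p List.mem_cons_self)
    have h2 := ih (insert p.1 J) (S.image fun a => Function.update a p.1 0) ?_ hP.2 ?_ ?_
    · rw [card_insert_of_notMem hp.1] at h2
      have h3 : Fintype.card ι - (J.card + 1) - L.length =
          Fintype.card ι - J.card - (p :: L).length := by
        rw [List.length_cons]; omega
      rw [h3] at h2
      refine h1.trans ?_
      rw [List.length_cons, pow_succ']
      calc (2 * δ + 1) * ((S.image fun a => Function.update a p.1 0).card : ℝ)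
          ≤ (2 * δ + 1) * ((2 * δ + 1) ^ L.length *
            (2 * (H : ℝ) + 1) ^ (Fintype.card ι - J.card - (p :: L).length)) := by gcongr
        _ = _ := by rw [List.length_cons]; ring
    · intro b hb
      rw [mem_image] at hb
      obtain ⟨a, ha, rfl⟩ := hb
      have h3 := mem_ibox0.1 (hS ha)
      rw [mem_ibox0]
      intro i
      rcases eq_or_ne i p.1 with rfl | hi
      · simp
      · rw [Function.update_of_ne hi]
        refine ⟨(h3 i).1, fun h4 => (h3 i).2 ?_⟩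
        rw [mem_insert] at h4
        exact h4.resolve_left hi
    · intro q hq
      refine ⟨?_, (hL q (List.mem_cons_of_mem _ hq)).2⟩
      rw [mem_insert, not_or]
      exact ⟨(hP.1 q hq).1, (hL q (List.mem_cons_of_mem _ hq)).1⟩
    · intro b hb q hq
      rw [mem_image] at hb
      obtain ⟨a, ha, rfl⟩ := hb
      rw [Function.update_of_ne (hP.1 q hq).1, (hP.1 q hq).2]
      exact hw a ha q (List.mem_cons_of_mem _ hq)

lemma card_cover {α β : Type} {S : Finset α} {K : Finset β} (P : β → α → Prop) {B : ℝ}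
    (h : ∀ a ∈ S, ∃ k ∈ K, P k a)
    (hB : ∀ k ∈ K, ∀ T ⊆ S, (∀ a ∈ T, P k a) → (T.card : ℝ) ≤ B) :
    (S.card : ℝ) ≤ K.card * B := by
  classical
  have h1 : S ⊆ K.biUnion fun k => S.filter (P k) := by
    intro a ha
    obtain ⟨k, hk, hka⟩ := h a ha
    rw [mem_biUnion]
    exact ⟨k, hk, mem_filter.2 ⟨ha, hka⟩⟩
  have h2 : (S.card : ℝ) ≤ ∑ k ∈ K, ((S.filter (P k)).card : ℝ) := by
    have := (card_le_card h1).trans card_biUnion_le
    exact_mod_cast this
  refine h2.trans ?_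
  rw [← nsmul_eq_mul]
  apply sum_le_card_nsmul
  intro k hk
  exact hB k hk _ (filter_subset _ _) (fun a ha => (mem_filter.1 ha).2)

lemma grid {t R s : ℝ} (ht : |t| ≤ R) (hs : 0 < s) :
    ∃ k ∈ Icc (-⌊R * s⌋) ⌊R * s⌋, |t - (k : ℝ) / s| ≤ 1 / s ∧ |(k : ℝ) / s| ≤ R := by
  have hR : 0 ≤ R := (abs_nonneg t).trans ht
  obtain ⟨k, h1, h2⟩ : ∃ k : ℤ, |(k : ℝ)| ≤ |t * s| ∧ |t * s - k| ≤ 1 := by
    rcases le_total 0 t with h | h
    · have h0 : 0 ≤ t * s := by positivity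
      have h3 := Int.floor_le (t * s)
      have h4 := Int.lt_floor_add_one (t * s)
      have h5 : (0 : ℝ) ≤ ⌊t * s⌋ := by exact_mod_cast Int.floor_nonneg.2 h0
      refine ⟨⌊t * s⌋, ?_, ?_⟩
      · rw [abs_of_nonneg h5, abs_of_nonneg h0]
        exact h3
      · rw [abs_of_nonneg (by linarith)]
        linarith
    · have h0 : t * s ≤ 0 := mul_nonpos_of_nonpos_of_nonneg h hs.le
      have h3 := Int.le_ceil (t * s)
      have h4 := Int.ceil_lt_add_one (t * s)
      have h5 : ((⌈t * s⌉ : ℤ) : ℝ) ≤ 0 := by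
        have : ⌈t * s⌉ ≤ 0 := Int.ceil_le.2 (by simpa using h0)
        exact_mod_cast this
      refine ⟨⌈t * s⌉, ?_, ?_⟩
      · rw [abs_of_nonpos h5, abs_of_nonpos h0]
        linarith
      · rw [abs_of_nonpos (by linarith)]
        linarith
  have h3 : |(k : ℝ)| ≤ R * s := by
    refine h1.trans ?_
    rw [abs_mul, abs_of_pos hs]
    gcongr
  refine ⟨k, ?_, ?_, ?_⟩
  · have h4 := abs_le.1 h3
    rw [mem_Icc, Int.le_floor]
    refine ⟨?_, h4.2⟩
    rw [neg_le, Int.le_floor]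
    push_cast
    linarith [h4.1]
  · have : t - (k : ℝ) / s = (t * s - k) / s := by field_simp
    rw [this, abs_div, abs_of_pos hs]
    gcongr
  · rw [abs_div, abs_of_pos hs, div_le_iff₀ hs]
    exact h3

lemma card_grid {x : ℝ} (hx : 0 ≤ x) : ((Icc (-⌊x⌋) ⌊x⌋).card : ℝ) ≤ 2 * x + 1 := by
  rw [Int.card_Icc]
  have h0 : 0 ≤ ⌊x⌋ := Int.floor_nonneg.2 hx
  have h1 : ((⌊x⌋ + 1 - -⌊x⌋).toNat : ℤ) = 2 * ⌊x⌋ + 1 := by
    rw [Int.toNat_of_nonneg (by omega)]
    ring
  have h2 : (((⌊x⌋ + 1 - -⌊x⌋).toNat : ℕ) : ℝ) = 2 * (⌊x⌋ : ℝ) + 1 := by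
    exact_mod_cast h1
  rw [h2]
  linarith [Int.floor_le x]

end gen

section TTup

variable {d : ℕ}

lemma co_update (a : Cf d) (p : ↥(I d)) (n : ℤ) {k i : ℕ} (h : (k, i) ≠ p.1) :
    co (Function.update a p n) k i = co a k i := by
  unfold co
  split_ifs with h1
  · rw [Function.update_of_ne]
    intro h2
    exact h (congrArg Subtype.val h2)
  · rfl

lemma TT_update_ne (a : Cf d) (p : ↥(I d)) (n : ℤ) {k i : ℕ} (h : k ≠ p.1.1 ∨ p.1.2 < i) (t : ℝ) :
    TT (co (Function.update a p n)) k i t = TT (co a) k i t := by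
  unfold TT
  refine sum_congr rfl fun j _ => ?_
  by_cases hj : (k, j) = p.1
  · rcases h with h | h
    · exact absurd (congrArg Prod.fst hj) h
    · rw [Nat.choose_eq_zero_of_lt (by rw [← hj] at h; exact h)]
      simp
  · rw [co_update a p n hj]

lemma TT_update (a : Cf d) (p : ↥(I d)) (t : ℝ) :
    TT (co a) p.1.1 p.1.2 t = a p + TT (co (Function.update a p 0)) p.1.1 p.1.2 t := by
  unfold TT
  have hp := mem_I.1 p.2
  have hmem : p.1.2 ∈ range (p.1.1 + 1) := by rw [mem_range]; omega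
  rw [← add_sum_erase _ _ hmem, ← add_sum_erase (range (p.1.1 + 1)) (fun j => ((j.choose p.1.2 : ℕ) : ℝ) *
    (co (Function.update a p 0) p.1.1 j : ℝ) * t ^ (j - p.1.2)) hmem]
  have h1 : co a p.1.1 p.1.2 = a p := co_of_mem a p.2
  have h2 : co (Function.update a p 0) p.1.1 p.1.2 = 0 := by
    rw [co_of_mem _ p.2]
    exact Function.update_self _ _ _
  rw [h1, h2]
  have h3 : ∑ j ∈ (range (p.1.1 + 1)).erase p.1.2, ((j.choose p.1.2 : ℕ) : ℝ) *
      (co a p.1.1 j : ℝ) * t ^ (j - p.1.2) = ∑ j ∈ (range (p.1.1 + 1)).erase p.1.2,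
      ((j.choose p.1.2 : ℕ) : ℝ) * (co (Function.update a p 0) p.1.1 j : ℝ) *
        t ^ (j - p.1.2) := by
    refine sum_congr rfl fun j hj => ?_
    rw [co_update]
    intro h
    rw [mem_erase] at hj
    exact hj.1 (congrArg Prod.snd h)
  rw [h3]
  simp

end TTup

section G1count

variable {d H : ℕ} {w : ℝ} (hd : 1 ≤ d) (hw : 1 ≤ w)

lemma G1_fixed (hd : 1 ≤ d) (t : ℝ) {δ : ℝ} (hδ : 0 ≤ δ) (S : Finset (Cf d))
    (hS : S ⊆ ibox ↥(I d) H) (h0 : ∀ a ∈ S, |TT (co a) d 0 t| ≤ δ)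
    (h1 : ∀ a ∈ S, |TT (co a) d 1 t| ≤ δ) :
    (S.card : ℝ) ≤ (2 * δ + 1) ^ 2 * (2 * (H : ℝ) + 1) ^ (MM d - 2) := by
  classical
  let p0 : ↥(I d) := ip d d le_rfl
  let p1 : ↥(I d) := ⟨(d, 1), by rw [mem_I]; exact ⟨le_rfl, hd⟩⟩
  have hne : p1 ≠ p0 := by
    intro h
    have := congrArg (fun p : ↥(I d) => p.1.2) h
    exact one_ne_zero this
  have key := card_windows (H := H) hδ
    [(p0, fun a => -TT (co (Function.update a p0 0)) d 0 t),
      (p1, fun a => -TT (co (Function.update a p1 0)) d 1 t)] ∅ S ?_ ?_ ?_ ?_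
  · rw [card_empty, Nat.sub_zero] at key
    exact key
  · intro a ha
    rw [mem_ibox0]
    exact fun i => ⟨mem_ibox.1 (hS ha) i, fun h => absurd h (notMem_empty _)⟩
  · rw [List.pairwise_cons]
    refine ⟨?_, by simp⟩
    intro q hq
    rw [List.mem_singleton] at hq
    subst hq
    refine ⟨hne, fun a n => ?_⟩
    simp only
    rw [Function.update_comm hne.symm, TT_update_ne]
    right
    exact one_pos
  · intro q hq
    refine ⟨notMem_empty _, ?_⟩
    simp only [List.mem_cons, List.not_mem_nil, or_false] at hq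
    rcases hq with rfl | rfl
    · intro a n
      simp only [Function.update_idem]
    · intro a n
      simp only [Function.update_idem]
  · intro a ha q hq
    simp only [List.mem_cons, List.not_mem_nil, or_false] at hq
    rcases hq with rfl | rfl
    · have h3 := TT_update a p0 t
      have h4 : TT (co a) d 0 t = a p0 + TT (co (Function.update a p0 0)) d 0 t := h3
      simp only [sub_neg_eq_add]
      rw [← h4]
      exact h0 a ha
    · have h3 := TT_update a p1 t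
      have h4 : TT (co a) d 1 t = a p1 + TT (co (Function.update a p1 0)) d 1 t := h3
      simp only [sub_neg_eq_add]
      rw [← h4]
      exact h1 a ha

lemma G2_fixed (hd : 2 ≤ d) (t u : ℝ) {δ : ℝ} (hδ : 0 ≤ δ) (S : Finset (Cf d))
    (hS : S ⊆ ibox ↥(I d) H) (h0 : ∀ a ∈ S, |TT (co a) d 0 t| ≤ δ)
    (h1 : ∀ a ∈ S, |TT (co a) (d - 1) 0 t + TT (co a) d 1 t * u| ≤ δ)
    (h2 : ∀ a ∈ S, |TT (co a) (d - 2) 0 t + TT (co a) (d - 1) 1 t * u +
      TT (co a) d 2 t * u ^ 2| ≤ δ) :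
    (S.card : ℝ) ≤ (2 * δ + 1) ^ 3 * (2 * (H : ℝ) + 1) ^ (MM d - 3) := by
  classical
  let p0 : ↥(I d) := ip d d le_rfl
  let p1 : ↥(I d) := ip d (d - 1) (by omega)
  let p2 : ↥(I d) := ip d (d - 2) (by omega)
  have h10 : p1 ≠ p0 := by
    intro h
    have h3 := congrArg (fun p : ↥(I d) => p.1.1) h
    have h4 : d - 1 = d := h3
    omega
  have h20 : p2 ≠ p0 := by
    intro h
    have h3 := congrArg (fun p : ↥(I d) => p.1.1) h
    have h4 : d - 2 = d := h3
    omega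
  have h21 : p2 ≠ p1 := by
    intro h
    have h3 := congrArg (fun p : ↥(I d) => p.1.1) h
    have h4 : d - 2 = d - 1 := h3
    omega
  have e00 : p0.1.1 = d := rfl
  have e01 : p0.1.2 = 0 := rfl
  have e10 : p1.1.1 = d - 1 := rfl
  have e11 : p1.1.2 = 0 := rfl
  have e20 : p2.1.1 = d - 2 := rfl
  have e21 : p2.1.2 = 0 := rfl
  have key := card_windows (H := H) hδ
    [(p0, fun a => -TT (co (Function.update a p0 0)) d 0 t),
      (p1, fun a => -(TT (co (Function.update a p1 0)) (d - 1) 0 t + TT (co a) d 1 t * u)),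
      (p2, fun a => -(TT (co (Function.update a p2 0)) (d - 2) 0 t + TT (co a) (d - 1) 1 t * u +
        TT (co a) d 2 t * u ^ 2))] ∅ S ?_ ?_ ?_ ?_
  · rw [card_empty, Nat.sub_zero] at key
    exact key
  · intro a ha
    rw [mem_ibox0]
    exact fun i => ⟨mem_ibox.1 (hS ha) i, fun h => absurd h (notMem_empty _)⟩
  · rw [List.pairwise_cons, List.pairwise_cons]
    refine ⟨?_, ?_, by simp⟩
    · intro q hq
      simp only [List.mem_cons, List.not_mem_nil, or_false] at hq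
      rcases hq with rfl | rfl
      · refine ⟨h10, fun a n => ?_⟩
        simp only
        rw [Function.update_comm h10.symm, TT_update_ne _ p0 n (Or.inl (by rw [e00]; omega)),
          TT_update_ne _ p0 n (Or.inr (by rw [e01]; omega))]
      · refine ⟨h20, fun a n => ?_⟩
        simp only
        rw [Function.update_comm h20.symm, TT_update_ne _ p0 n (Or.inl (by rw [e00]; omega)),
          TT_update_ne _ p0 n (Or.inr (by rw [e01]; omega)),
          TT_update_ne _ p0 n (Or.inr (by rw [e01]; omega))]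
    · intro q hq
      rw [List.mem_singleton] at hq
      subst hq
      refine ⟨h21, fun a n => ?_⟩
      simp only
      rw [Function.update_comm h21.symm, TT_update_ne _ p1 n (Or.inl (by rw [e10]; omega)),
        TT_update_ne _ p1 n (Or.inr (by rw [e11]; omega)),
        TT_update_ne _ p1 n (Or.inr (by rw [e11]; omega))]
  · intro q hq
    refine ⟨notMem_empty _, ?_⟩
    simp only [List.mem_cons, List.not_mem_nil, or_false] at hq
    rcases hq with rfl | rfl | rfl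
    · intro a n
      simp only [Function.update_idem]
    · intro a n
      simp only [Function.update_idem]
      rw [TT_update_ne _ p1 n (Or.inr (by rw [e11]; omega))]
    · intro a n
      simp only [Function.update_idem]
      rw [TT_update_ne _ p2 n (Or.inr (by rw [e21]; omega)),
        TT_update_ne _ p2 n (Or.inr (by rw [e21]; omega))]
  · intro a ha q hq
    simp only [List.mem_cons, List.not_mem_nil, or_false] at hq
    rcases hq with rfl | rfl | rfl
    · have h4 : TT (co a) d 0 t = a p0 + TT (co (Function.update a p0 0)) d 0 t :=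
        TT_update a p0 t
      simp only [sub_neg_eq_add]
      rw [← h4]
      exact h0 a ha
    · have h4 : TT (co a) (d - 1) 0 t = a p1 + TT (co (Function.update a p1 0)) (d - 1) 0 t :=
        TT_update a p1 t
      have h5 := h1 a ha
      rw [h4, add_assoc] at h5
      simp only [sub_neg_eq_add]
      exact h5
    · have h4 : TT (co a) (d - 2) 0 t = a p2 + TT (co (Function.update a p2 0)) (d - 2) 0 t :=
        TT_update a p2 t
      have h5 := h2 a ha
      rw [h4, add_assoc, add_assoc, ← add_assoc (TT (co (Function.update a p2 0)) (d - 2) 0 t)] at h5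
      simp only [sub_neg_eq_add]
      exact h5

lemma co_le' {a : Cf d} (ha : a ∈ ibox ↥(I d) H) (k i : ℕ) : |(co a k i : ℝ)| ≤ (H : ℝ) := by
  have := co_le ha k i
  rw [← Int.cast_abs]
  exact_mod_cast this

lemma MM_ge (hd : 1 ≤ d) : 3 ≤ MM d := by
  rw [MM_eq]
  have h1 : (1 + 1) * (1 + 2) ≤ (d + 1) * (d + 2) := by gcongr
  omega

/-- **First genericity condition.** -/
theorem card_notG1 (hd : 1 ≤ d) (hw : 1 ≤ w) (hwH : w ≤ H) (S : Finset (Cf d))
    (hS : S ⊆ ibox ↥(I d) H) (hG : ∀ a ∈ S, ¬ G1 (co a) d (H / w)) :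
    (S.card : ℝ) ≤ 5 * (3 + 2 * d * c1 d) ^ 2 * (2 * (H : ℝ) + 1) ^ MM d / w := by
  have hc1 := c1_pos d
  have hw0 : 0 < w := by linarith
  have hH0 : (0 : ℝ) ≤ H := Nat.cast_nonneg H
  set δ : ℝ := (1 + d * c1 d) * (H / w) with hδ
  have hδ0 : 0 ≤ δ := by positivity
  have h1 := card_cover (S := S) (K := Icc (-⌊2 * w⌋) ⌊2 * w⌋)
    (fun k a => |TT (co a) d 0 ((k : ℝ) / w)| ≤ δ ∧ |TT (co a) d 1 ((k : ℝ) / w)| ≤ δ)
    (B := (2 * δ + 1) ^ 2 * (2 * (H : ℝ) + 1) ^ (MM d - 2)) ?_ ?_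
  · have h2 : ((Icc (-⌊2 * w⌋) ⌊2 * w⌋).card : ℝ) ≤ 5 * w :=
      (card_grid (by positivity)).trans (by linarith)
    have h3 : 2 * δ + 1 ≤ (3 + 2 * d * c1 d) * ((2 * (H : ℝ) + 1) / w) := by
      have e1 : 1 ≤ (H : ℝ) / w := by rw [le_div_iff₀ hw0]; linarith
      have e2 : (H : ℝ) / w ≤ (2 * (H : ℝ) + 1) / w := by gcongr; linarith
      have e3 : 0 ≤ d * c1 d := by positivity
      calc 2 * δ + 1 ≤ 2 * ((1 + d * c1 d) * (H / w)) + H / w := by linarith
        _ = (3 + 2 * d * c1 d) * (H / w) := by ring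
        _ ≤ _ := by gcongr
    have h4 : (2 * (H : ℝ) + 1) ^ MM d = (2 * (H : ℝ) + 1) ^ 2 * (2 * (H : ℝ) + 1) ^ (MM d - 2) := by
      rw [← pow_add]
      congr 1
      have := MM_ge hd
      omega
    refine h1.trans ?_
    calc ((Icc (-⌊2 * w⌋) ⌊2 * w⌋).card : ℝ) *
          ((2 * δ + 1) ^ 2 * (2 * (H : ℝ) + 1) ^ (MM d - 2))
        ≤ (5 * w) * (((3 + 2 * d * c1 d) * ((2 * (H : ℝ) + 1) / w)) ^ 2 *
          (2 * (H : ℝ) + 1) ^ (MM d - 2)) := by gcongr
      _ = _ := by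
        rw [h4]
        field_simp
  · intro a ha
    have h2 := hG a ha
    unfold G1 at h2
    push Not at h2
    obtain ⟨t, ht, h3, h4⟩ := h2
    obtain ⟨k, hk, h5, h6⟩ := grid ht hw0
    refine ⟨k, hk, ?_, ?_⟩
    · have h7 := TT_lip (co_le' (hS ha)) (le_refl d) 0 ht h6
      have h8 : |TT (co a) d 0 ((k : ℝ) / w)| ≤ |TT (co a) d 0 t| +
          |TT (co a) d 0 t - TT (co a) d 0 ((k : ℝ) / w)| := by
        have := abs_sub (TT (co a) d 0 t) (TT (co a) d 0 t - TT (co a) d 0 ((k : ℝ) / w))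
        simpa using this
      calc |TT (co a) d 0 ((k : ℝ) / w)| ≤ H / w + d * c1 d * H * (1 / w) := by
            refine h8.trans (add_le_add h3.le (h7.trans ?_))
            gcongr
        _ = δ := by rw [hδ]; ring
    · have h7 := TT_lip (co_le' (hS ha)) (le_refl d) 1 ht h6
      have h8 : |TT (co a) d 1 ((k : ℝ) / w)| ≤ |TT (co a) d 1 t| +
          |TT (co a) d 1 t - TT (co a) d 1 ((k : ℝ) / w)| := by
        have := abs_sub (TT (co a) d 1 t) (TT (co a) d 1 t - TT (co a) d 1 ((k : ℝ) / w))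
        simpa using this
      calc |TT (co a) d 1 ((k : ℝ) / w)| ≤ H / w + d * c1 d * H * (1 / w) := by
            refine h8.trans (add_le_add h4.le (h7.trans ?_))
            gcongr
        _ = δ := by rw [hδ]; ring
  · intro k _ T hT hTk
    exact G1_fixed hd _ hδ0 T (hT.trans hS) (fun a ha => (hTk a ha).1) (fun a ha => (hTk a ha).2)

end G1count

section lip

variable {c : ℕ → ℕ → ℤ} {H : ℝ} {d : ℕ} {t t' u u' U ε : ℝ}

lemma lip1 (hc : ∀ k i, |(c k i : ℝ)| ≤ H) {k : ℕ} (hk : k ≤ d) (i : ℕ) (ht : |t| ≤ 2)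
    (ht' : |t'| ≤ 2) (htt : |t - t'| ≤ ε) (hu : |u| ≤ U) (huu : |u - u'| ≤ ε) :
    |TT c k i t * u - TT c k i t' * u'| ≤ (d * c1 d * H * U + c1 d * H) * ε := by
  have hH : 0 ≤ H := (abs_nonneg _).trans (hc 0 0)
  have hc1 := c1_pos d
  have e : TT c k i t * u - TT c k i t' * u' =
      (TT c k i t - TT c k i t') * u + TT c k i t' * (u - u') := by ring
  rw [e]
  refine (abs_add_le _ _).trans ?_
  rw [abs_mul, abs_mul]
  have h1 := TT_lip hc hk i ht ht'
  have h2 := TT_le hc hk i ht'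
  have h3 : |TT c k i t - TT c k i t'| ≤ d * c1 d * H * ε := h1.trans (by gcongr)
  have hε : 0 ≤ ε := (abs_nonneg _).trans htt
  calc |TT c k i t - TT c k i t'| * |u| + |TT c k i t'| * |u - u'|
      ≤ (d * c1 d * H * ε) * U + (c1 d * H) * ε := by gcongr
    _ = _ := by ring

lemma lip2 (hc : ∀ k i, |(c k i : ℝ)| ≤ H) {k : ℕ} (hk : k ≤ d) (i : ℕ) (ht : |t| ≤ 2)
    (ht' : |t'| ≤ 2) (htt : |t - t'| ≤ ε) (hu : |u| ≤ U) (hu' : |u'| ≤ U) (huu : |u - u'| ≤ ε) :
    |TT c k i t * u ^ 2 - TT c k i t' * u' ^ 2| ≤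
      (d * c1 d * H * U ^ 2 + 2 * (c1 d * H * U)) * ε := by
  have hH : 0 ≤ H := (abs_nonneg _).trans (hc 0 0)
  have hc1 := c1_pos d
  have e : TT c k i t * u ^ 2 - TT c k i t' * u' ^ 2 =
      (TT c k i t - TT c k i t') * u ^ 2 + TT c k i t' * ((u - u') * (u + u')) := by ring
  rw [e]
  refine (abs_add_le _ _).trans ?_
  rw [abs_mul, abs_mul, abs_mul, abs_pow]
  have h1 := TT_lip hc hk i ht ht'
  have h2 := TT_le hc hk i ht'
  have h3 : |TT c k i t - TT c k i t'| ≤ d * c1 d * H * ε := h1.trans (by gcongr)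
  have hε : 0 ≤ ε := (abs_nonneg _).trans htt
  have h4 : |u + u'| ≤ 2 * U := (abs_add_le _ _).trans (by linarith)
  calc |TT c k i t - TT c k i t'| * |u| ^ 2 + |TT c k i t'| * (|u - u'| * |u + u'|)
      ≤ (d * c1 d * H * ε) * U ^ 2 + (c1 d * H) * (ε * (2 * U)) := by gcongr
    _ = _ := by ring

end lip

section G2count

variable {d H : ℕ} {w : ℝ}

lemma abs_le_of_diff {x y A B : ℝ} (hx : |x| ≤ A) (h : |x - y| ≤ B) : |y| ≤ A + B := by
  have := abs_sub x (x - y)
  have e : x - (x - y) = y := by ring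
  rw [e] at this
  linarith

/-- **Second genericity condition.** -/
theorem card_notG2 (hd : 2 ≤ d) (hw : 1 ≤ w) (hwH : w ^ 6 ≤ H) (S : Finset (Cf d))
    (hS : S ⊆ ibox ↥(I d) H) (hG : ∀ a ∈ S, ¬ G2 (co a) d (WW d w) (H / w ^ 6)) :
    (S.card : ℝ) ≤ 15 * (2 * d * c1 d) ^ 5 * (3 + 12 * d * c1 d) ^ 3 *
      (2 * (H : ℝ) + 1) ^ MM d / w := by
  have hc1 := c1_pos d
  have hw0 : 0 < w := by linarith
  have hH0 : (0 : ℝ) ≤ H := Nat.cast_nonneg H
  have hd1 : (1 : ℝ) ≤ d := by exact_mod_cast (by omega : 1 ≤ d)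
  have hU := WW_ge (by omega : 1 ≤ d) hw
  obtain ⟨U, hUd⟩ : ∃ U, U = WW d w := ⟨_, rfl⟩
  rw [← hUd] at hG hU
  have hU0 : 0 < U := by linarith
  obtain ⟨s, hs⟩ : ∃ s, s = w ^ 6 * U ^ 2 := ⟨_, rfl⟩
  have hs1 : 1 ≤ s := by
    rw [hs]
    exact one_le_mul_of_one_le_of_one_le (one_le_pow₀ hw) (one_le_pow₀ hU)
  have hs0 : 0 < s := by linarith
  obtain ⟨δ, hδ⟩ : ∃ δ, δ = (1 + 6 * d * c1 d) * (H / w ^ 6) := ⟨_, rfl⟩
  have hδ0 : 0 ≤ δ := by rw [hδ]; positivity
  have hεb : 6 * d * c1 d * H * U ^ 2 * (1 / s) = 6 * d * c1 d * (H / w ^ 6) := by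
    rw [hs]; field_simp
  have h1 := card_cover (S := S) (K := Icc (-⌊2 * s⌋) ⌊2 * s⌋ ×ˢ Icc (-⌊U * s⌋) ⌊U * s⌋)
    (fun k a => |TT (co a) d 0 ((k.1 : ℝ) / s)| ≤ δ ∧
      |TT (co a) (d - 1) 0 ((k.1 : ℝ) / s) + TT (co a) d 1 ((k.1 : ℝ) / s) * ((k.2 : ℝ) / s)| ≤ δ ∧
      |TT (co a) (d - 2) 0 ((k.1 : ℝ) / s) + TT (co a) (d - 1) 1 ((k.1 : ℝ) / s) * ((k.2 : ℝ) / s) +
        TT (co a) d 2 ((k.1 : ℝ) / s) * ((k.2 : ℝ) / s) ^ 2| ≤ δ)
    (B := (2 * δ + 1) ^ 3 * (2 * (H : ℝ) + 1) ^ (MM d - 3)) ?_ ?_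
  · have h2 : ((Icc (-⌊2 * s⌋) ⌊2 * s⌋).card : ℝ) ≤ 5 * s :=
      (card_grid (by positivity)).trans (by linarith)
    have h2' : ((Icc (-⌊U * s⌋) ⌊U * s⌋).card : ℝ) ≤ 3 * (U * s) := by
      refine (card_grid (by positivity)).trans ?_
      have : 1 ≤ U * s := one_le_mul_of_one_le_of_one_le hU hs1
      linarith
    have h3 : 2 * δ + 1 ≤ (3 + 12 * d * c1 d) * ((2 * (H : ℝ) + 1) / w ^ 6) := by
      have e1 : 1 ≤ (H : ℝ) / w ^ 6 := by rw [le_div_iff₀ (by positivity)]; linarith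
      have e2 : (H : ℝ) / w ^ 6 ≤ (2 * (H : ℝ) + 1) / w ^ 6 := by gcongr; linarith
      calc 2 * δ + 1 ≤ 2 * ((1 + 6 * d * c1 d) * (H / w ^ 6)) + H / w ^ 6 := by linarith
        _ = (3 + 12 * d * c1 d) * (H / w ^ 6) := by ring
        _ ≤ _ := by gcongr
    have h4 : (2 * (H : ℝ) + 1) ^ MM d = (2 * (H : ℝ) + 1) ^ 3 * (2 * (H : ℝ) + 1) ^ (MM d - 3) := by
      rw [← pow_add]
      congr 1
      have := MM_ge (by omega : 1 ≤ d)
      omega
    have h5 : U = 2 * d * c1 d * w := by rw [hUd]; rfl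
    refine h1.trans ?_
    rw [card_product]
    push_cast
    calc ((Icc (-⌊2 * s⌋) ⌊2 * s⌋).card : ℝ) * ((Icc (-⌊U * s⌋) ⌊U * s⌋).card : ℝ) *
          ((2 * δ + 1) ^ 3 * (2 * (H : ℝ) + 1) ^ (MM d - 3))
        ≤ (5 * s) * (3 * (U * s)) * (((3 + 12 * d * c1 d) * ((2 * (H : ℝ) + 1) / w ^ 6)) ^ 3 *
          (2 * (H : ℝ) + 1) ^ (MM d - 3)) := by gcongr
      _ = _ := by
        rw [h4, hs, h5]
        field_simp
        ring
  · intro a ha
    have h2 := hG a ha
    unfold G2 at h2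
    push Not at h2
    obtain ⟨t, u, ht, hu, h3, h4, h5⟩ := h2
    obtain ⟨k, hk, g1, g2⟩ := grid ht hs0
    obtain ⟨l, hl, g3, g4⟩ := grid hu hs0
    have hc := co_le' (hS ha)
    have hε0 : 0 ≤ 1 / s := by positivity
    have L0 : ∀ k' ≤ d, |TT (co a) k' 0 t - TT (co a) k' 0 ((k : ℝ) / s)| ≤
        d * c1 d * H * (1 / s) := by
      intro k' hk'
      refine (TT_lip hc hk' 0 ht g2).trans ?_
      gcongr
    have L1 : ∀ k' ≤ d, |TT (co a) k' 1 t * u - TT (co a) k' 1 ((k : ℝ) / s) * ((l : ℝ) / s)| ≤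
        (d * c1 d * H * U + c1 d * H) * (1 / s) := fun k' hk' => lip1 hc hk' 1 ht g2 g1 hu g3
    have L2 : |TT (co a) d 2 t * u ^ 2 - TT (co a) d 2 ((k : ℝ) / s) * ((l : ℝ) / s) ^ 2| ≤
        (d * c1 d * H * U ^ 2 + 2 * (c1 d * H * U)) * (1 / s) :=
      lip2 hc (le_refl d) 2 ht g2 g1 hu g4 g3
    have hδ' : δ = H / w ^ 6 + 6 * d * c1 d * H * U ^ 2 * (1 / s) := by
      rw [hεb, hδ]; ring
    have b1 : c1 d * H ≤ d * c1 d * H := by
      calc c1 d * H = 1 * (c1 d * H) := by ring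
        _ ≤ d * (c1 d * H) := by gcongr
        _ = _ := by ring
    have b2 : d * c1 d * H ≤ d * c1 d * H * U := le_mul_of_one_le_right (by positivity) hU
    have b3 : d * c1 d * H * U ≤ d * c1 d * H * U ^ 2 := by
      have : U ≤ U ^ 2 := by nlinarith
      gcongr
    have b4 : c1 d * H * U ≤ d * c1 d * H * U := by gcongr
    have b0 : 0 ≤ d * c1 d * H := by positivity
    refine ⟨(k, l), mem_product.2 ⟨hk, hl⟩, ?_, ?_, ?_⟩
    · rw [hδ']
      refine abs_le_of_diff h3.le ((L0 d le_rfl).trans ?_)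
      refine mul_le_mul_of_nonneg_right ?_ hε0
      linarith
    · rw [hδ']
      refine abs_le_of_diff h4.le ?_
      have e : TT (co a) (d - 1) 0 t + TT (co a) d 1 t * u -
          (TT (co a) (d - 1) 0 ((k : ℝ) / s) + TT (co a) d 1 ((k : ℝ) / s) * ((l : ℝ) / s)) =
          (TT (co a) (d - 1) 0 t - TT (co a) (d - 1) 0 ((k : ℝ) / s)) +
          (TT (co a) d 1 t * u - TT (co a) d 1 ((k : ℝ) / s) * ((l : ℝ) / s)) := by ring
      rw [e]
      refine (abs_add_le _ _).trans ((add_le_add (L0 _ (by omega)) (L1 d le_rfl)).trans ?_)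
      rw [← add_mul]
      refine mul_le_mul_of_nonneg_right ?_ hε0
      linarith
    · rw [hδ']
      refine abs_le_of_diff h5.le ?_
      have e : TT (co a) (d - 2) 0 t + TT (co a) (d - 1) 1 t * u + TT (co a) d 2 t * u ^ 2 -
          (TT (co a) (d - 2) 0 ((k : ℝ) / s) + TT (co a) (d - 1) 1 ((k : ℝ) / s) * ((l : ℝ) / s) +
            TT (co a) d 2 ((k : ℝ) / s) * ((l : ℝ) / s) ^ 2) =
          ((TT (co a) (d - 2) 0 t - TT (co a) (d - 2) 0 ((k : ℝ) / s)) +
          (TT (co a) (d - 1) 1 t * u - TT (co a) (d - 1) 1 ((k : ℝ) / s) * ((l : ℝ) / s))) +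
          (TT (co a) d 2 t * u ^ 2 - TT (co a) d 2 ((k : ℝ) / s) * ((l : ℝ) / s) ^ 2) := by ring
      rw [e]
      refine (abs_add_le _ _).trans ((add_le_add ((abs_add_le _ _).trans
        (add_le_add (L0 _ (by omega)) (L1 _ (by omega)))) L2).trans ?_)
      rw [← add_mul, ← add_mul]
      refine mul_le_mul_of_nonneg_right ?_ hε0
      linarith
  · intro k _ T hT hTk
    exact G2_fixed hd _ _ hδ0 T (hT.trans hS) (fun a ha => (hTk a ha).1)
      (fun a ha => (hTk a ha).2.1) (fun a ha => (hTk a ha).2.2)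

end G2count

end Pool.Agent.R414.DN
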