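import Pool.Agent.R414.DN.Lines

set_option autoImplicit false
set_option linter.unusedSectionVars false
set_option maxHeartbeats 400000

/-! Forms in two variables and their dehomogenisations. -/

open Finset Polynomial

namespace Pool.Agent.R414.DN

/-- dehomogenisation -/
noncomputable def DH : MvPolynomial (Fin 2) ℚ →ₐ[ℚ] ℚ[X] := MvPolynomial.aeval ![(X : ℚ[X]), 1]

/-- homogenisation to degree `a` -/
noncomputable def hg (a : ℕ) (g : ℚ[X]) : MvPolynomial (Fin 2) ℚ :=
  ∑ i ∈ range (a + 1), MvPolynomial.monomial (mo (a, i)) (g.coeff i)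

lemma DH_monomial (k i : ℕ) (c : ℚ) : DH (MvPolynomial.monomial (mo (k, i)) c) = C c * X ^ i := by
  unfold DH
  rw [MvPolynomial.aeval_monomial, Finsupp.prod_fintype _ _ (by intro i; exact pow_zero _),
    Fin.prod_univ_two, mo_zero, mo_one]
  simp

lemma DH_hg {a : ℕ} {g : ℚ[X]} (hg' : g.natDegree ≤ a) : DH (hg a g) = g := by
  unfold hg
  rw [map_sum]
  conv_rhs => rw [g.as_sum_range' (a + 1) (Nat.lt_succ_of_le hg')]
  refine sum_congr rfl fun i _ => ?_
  rw [DH_monomial, C_mul_X_pow_eq_monomial]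

lemma hg_homog (a : ℕ) (g : ℚ[X]) : (hg a g).IsHomogeneous a := by
  unfold hg
  apply MvPolynomial.IsHomogeneous.sum
  intro i hi
  rw [mem_range] at hi
  apply MvPolynomial.isHomogeneous_monomial
  rw [Finsupp.degree_eq_sum, Fin.sum_univ_two, mo_zero, mo_one]
  simp only
  omega

lemma mo_eq {m : Fin 2 →₀ ℕ} {d : ℕ} (h : m 0 + m 1 = d) : m = mo (d, m 0) := by
  ext i
  fin_cases i
  · show m 0 = mo _ 0
    rw [mo_zero]
  · show m 1 = mo _ 1
    rw [mo_one]
    simp only
    omega

lemma coeff_DH {φ : MvPolynomial (Fin 2) ℚ} {d : ℕ} (hφ : φ.IsHomogeneous d) (j : ℕ) :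
    (DH φ).coeff j = if j ≤ d then φ.coeff (mo (d, j)) else 0 := by
  have hm : ∀ m ∈ φ.support, m 0 + m 1 = d := by
    intro m hm
    have h1 : m.degree = d := by
      rw [Finsupp.degree_eq_weight_one]
      exact hφ (MvPolynomial.mem_support_iff.1 hm)
    rw [Finsupp.degree_eq_sum, Fin.sum_univ_two] at h1
    exact h1
  have h0 : DH φ = ∑ m ∈ φ.support, C (φ.coeff m) * X ^ (m 0) := by
    conv_lhs => rw [φ.as_sum]
    rw [map_sum]
    refine sum_congr rfl fun m hm' => ?_
    conv_lhs => rw [mo_eq (hm m hm'), ← mo_eq (hm m hm')]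
    unfold DH
    rw [MvPolynomial.aeval_monomial, Finsupp.prod_fintype _ _ (by intro i; exact pow_zero _),
      Fin.prod_univ_two]
    simp
  rw [h0, finsetSum_coeff]
  simp only [coeff_C_mul_X_pow]
  split_ifs with hj
  · by_cases hmem : mo (d, j) ∈ φ.support
    · rw [sum_eq_single_of_mem _ hmem]
      · rw [mo_zero, if_pos rfl]
      · intro m hm' hne
        rw [if_neg]
        intro h
        apply hne
        rw [mo_eq (hm m hm'), h]
    · rw [MvPolynomial.notMem_support_iff.1 hmem]
      apply sum_eq_zero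
      intro m hm'
      rw [if_neg]
      intro h
      apply hmem
      rw [h, ← mo_eq (hm m hm')]
      exact hm'
  · apply sum_eq_zero
    intro m hm'
    rw [if_neg]
    have := hm m hm'
    omega

lemma DH_inj {φ ψ : MvPolynomial (Fin 2) ℚ} {d : ℕ} (hφ : φ.IsHomogeneous d)
    (hψ : ψ.IsHomogeneous d) (h : DH φ = DH ψ) : φ = ψ := by
  ext m
  by_cases hm : m 0 + m 1 = d
  · have h1 : (DH φ).coeff (m 0) = (DH ψ).coeff (m 0) := by rw [h]
    rw [coeff_DH hφ, coeff_DH hψ, if_pos (by omega), if_pos (by omega), ← mo_eq hm] at h1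
    exact h1
  · have h1 : ∀ χ : MvPolynomial (Fin 2) ℚ, χ.IsHomogeneous d → χ.coeff m = 0 := by
      intro χ hχ
      by_contra h2
      have h3 : m.degree = d := by
        rw [Finsupp.degree_eq_weight_one]
        exact hχ h2
      rw [Finsupp.degree_eq_sum, Fin.sum_univ_two] at h3
      exact hm h3
    rw [h1 φ hφ, h1 ψ hψ]

lemma DH_natDegree_le (P : MvPolynomial (Fin 2) ℚ) : (DH P).natDegree ≤ P.totalDegree := by
  have h2 := MvPolynomial.aeval_natDegree_le (m := P.totalDegree) (n := 1) P le_rfl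
    (![(X : ℚ[X]), 1]) (by
      intro i
      fin_cases i <;> simp)
  rwa [mul_one] at h2

lemma factor_hom {φ : MvPolynomial (Fin 2) ℚ} {d a b : ℕ} (hφ : φ.IsHomogeneous d) {g h : ℚ[X]}
    (hgh : DH φ = g * h) (ha : g.natDegree ≤ a) (hb : h.natDegree ≤ b) (hab : a + b = d) :
    φ = hg a g * hg b h := by
  apply DH_inj hφ
  · rw [← hab]
    exact (hg_homog a g).mul (hg_homog b h)
  · rw [map_mul, DH_hg ha, DH_hg hb, hgh]

lemma unit_hg {a : ℕ} {g : ℚ[X]} (ha : g.natDegree ≤ a) (hg0 : g ≠ 0) (hu : IsUnit (hg a g)) :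
    a = 0 := by
  have h1 := Pool.Agent.H322R2.totalDegree_of_isUnit hu
  have h2 : hg a g ≠ 0 := by
    intro h
    apply hg0
    rw [← DH_hg ha, h, map_zero]
  rw [(hg_homog a g).totalDegree h2] at h1
  exact h1

/-- the leading form of the curve -/
noncomputable def LF {d : ℕ} (a : Cf d) : MvPolynomial (Fin 2) ℚ :=
  MvPolynomial.map (Int.castRingHom ℚ) (MvPolynomial.homogeneousComponent d (poly a))

lemma LF_homog {d : ℕ} (a : Cf d) : (LF a).IsHomogeneous d :=
  (MvPolynomial.homogeneousComponent_isHomogeneous d (poly a)).map _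

lemma DH_LF {d : ℕ} (a : Cf d) : DH (LF a) = (pl d (topRow a)).map (Int.castRingHom ℚ) :=
  dehom_poly a

lemma coeff_topRow {d : ℕ} (a : Cf d) {j : ℕ} (hj : j ≤ d) :
    ((pl d (topRow a)).map (Int.castRingHom ℚ)).coeff j = (co a d j : ℚ) := by
  have := coeff_pl d (topRow a) ⟨j, by omega⟩
  simp only at this
  rw [coeff_map, this]
  rfl

/-- an irreducible leading form -/
lemma lead_of_irr {d : ℕ} (hd : 2 ≤ d) {a : Cf d} (h : Irreducible (LF a)) : Lead a := by
  have hφ0 := h.ne_zero
  have hf0 : DH (LF a) ≠ 0 := by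
    intro h0
    apply hφ0
    exact DH_inj (LF_homog a) (MvPolynomial.isHomogeneous_zero _ _ _) (by rw [h0, map_zero])
  have hnd : (DH (LF a)).natDegree ≤ d := by
    rw [DH_LF]
    exact natDegree_map_le.trans (natDegree_pl_le _ _)
  have hdd : co a d d ≠ 0 := by
    intro h0
    have h1 : (DH (LF a)).natDegree ≤ d - 1 := by
      have h2 : (DH (LF a)).coeff d = 0 := by
        rw [DH_LF, coeff_topRow a le_rfl, h0, Int.cast_zero]
      by_contra hcon
      have h3 : (DH (LF a)).natDegree = d := by omega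
      have h4 := leadingCoeff_ne_zero.2 hf0
      rw [leadingCoeff, h3] at h4
      exact h4 h2
    have h2 := factor_hom (a := 1) (b := d - 1) (LF_homog a) (one_mul (DH (LF a))).symm
      (by simp) h1 (by omega)
    rcases h.isUnit_or_isUnit h2 with hu | hu
    · have := unit_hg (by simp) one_ne_zero hu
      omega
    · have := unit_hg h1 hf0 hu
      omega
  refine ⟨hdd, ?_⟩
  have hnd' := natDegree_map_pl hdd
  rw [← DH_LF] at hnd' ⊢
  constructor
  · intro hu
    have := natDegree_eq_zero_of_isUnit hu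
    omega
  · intro g k hgk
    have hg0 : g ≠ 0 := by rintro rfl; rw [zero_mul] at hgk; exact hf0 hgk
    have hk0 : k ≠ 0 := by rintro rfl; rw [mul_zero] at hgk; exact hf0 hgk
    have hsum : g.natDegree + k.natDegree = d := by rw [← hnd', hgk, natDegree_mul hg0 hk0]
    have h2 := factor_hom (LF_homog a) hgk le_rfl le_rfl hsum
    have key : ∀ q : ℚ[X], q ≠ 0 → IsUnit (hg q.natDegree q) → IsUnit q := by
      intro q hq0 hu
      have h3 := unit_hg le_rfl hq0 hu
      rw [natDegree_eq_zero] at h3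
      obtain ⟨c, rfl⟩ := h3
      rw [isUnit_C]
      apply Ne.isUnit
      rintro rfl
      exact hq0 C_0
    rcases h.isUnit_or_isUnit h2 with hu | hu
    · left; exact key g hg0 hu
    · right; exact key k hk0 hu

/-- a squarefree leading form -/
lemma squarefree_LF {d : ℕ} {a : Cf d} (h1 : co a d d ≠ 0 ∨ co a d (d - 1) ≠ 0)
    (hsq : Squarefree ((pl d (topRow a)).map (Int.castRingHom ℚ))) : Squarefree (LF a) := by
  rw [← DH_LF] at hsq
  have hf0 : DH (LF a) ≠ 0 := hsq.ne_zero
  have hφ0 : LF a ≠ 0 := by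
    intro h0
    apply hf0
    rw [h0, map_zero]
  have hnd : d ≤ (DH (LF a)).natDegree + 1 := by
    rcases h1 with h | h
    · have h2 : (DH (LF a)).coeff d ≠ 0 := by
        rw [DH_LF, coeff_topRow a le_rfl]
        exact_mod_cast h
      have := le_natDegree_of_ne_zero h2
      omega
    · have h2 : (DH (LF a)).coeff (d - 1) ≠ 0 := by
        rw [DH_LF, coeff_topRow a (Nat.sub_le _ _)]
        exact_mod_cast h
      have := le_natDegree_of_ne_zero h2
      omega
  intro A hA
  obtain ⟨B, hB⟩ := hA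
  have hAA0 : A * A ≠ 0 := by intro h; rw [h, zero_mul] at hB; exact hφ0 hB
  have hA0 : A ≠ 0 := left_ne_zero_of_mul hAA0
  have hB0 : B ≠ 0 := by rintro rfl; rw [mul_zero] at hB; exact hφ0 hB
  have e1 := MvPolynomial.totalDegree_mul_of_isDomain hA0 hA0
  have e2 := MvPolynomial.totalDegree_mul_of_isDomain hAA0 hB0
  rw [← hB, (LF_homog a).totalDegree hφ0] at e2
  have t1 := Pool.Agent.H322R2.homogeneousComponent_mul_top A A
  have t2 := Pool.Agent.H322R2.homogeneousComponent_mul_top (A * A) B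
  rw [← e1] at t1
  rw [← e2, ← hB, t1, MvPolynomial.homogeneousComponent_of_mem (LF_homog a), if_pos rfl] at t2
  have hu : IsUnit (DH (MvPolynomial.homogeneousComponent A.totalDegree A)) := by
    apply hsq
    rw [t2, map_mul, map_mul]
    exact dvd_mul_right _ _
  have hnu := natDegree_eq_zero_of_isUnit hu
  have h3 : (DH (LF a)).natDegree ≤ B.totalDegree := by
    rw [t2, map_mul, map_mul]
    refine natDegree_mul_le.trans ?_
    have h4 : (DH (MvPolynomial.homogeneousComponent A.totalDegree A) *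
        DH (MvPolynomial.homogeneousComponent A.totalDegree A)).natDegree ≤ 0 :=
      natDegree_mul_le.trans (by omega)
    have h5 := DH_natDegree_le (MvPolynomial.homogeneousComponent B.totalDegree B)
    have h6 := (MvPolynomial.homogeneousComponent_isHomogeneous B.totalDegree B).totalDegree_le
    omega
  apply Pool.Agent.H322R2.isUnit_of_totalDegree_zero hA0
  omega

end Pool.Agent.R414.DN
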