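import Pool.Agent.R414.DN.Small

set_option autoImplicit false
set_option linter.unusedSectionVars false

/-! Counting reducible polynomials in one variable. -/

open Finset Polynomial

namespace Pool.Agent.R414.DN

/-- the polynomial with given coefficients -/
noncomputable def pl (n : ℕ) (g : Fin (n + 1) → ℤ) : ℤ[X] := ∑ i, C (g i) * X ^ (i : ℕ)

lemma coeff_pl (n : ℕ) (g : Fin (n + 1) → ℤ) (j : Fin (n + 1)) : (pl n g).coeff j = g j := by
  unfold pl
  rw [finsetSum_coeff, sum_eq_single j]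
  · rw [coeff_C_mul_X_pow, if_pos rfl]
  · intro i _ hij
    rw [coeff_C_mul_X_pow, if_neg]
    intro h
    exact hij (Fin.ext h.symm)
  · intro h
    exact absurd (mem_univ j) h

lemma natDegree_pl_le (n : ℕ) (g : Fin (n + 1) → ℤ) : (pl n g).natDegree ≤ n := by
  unfold pl
  apply natDegree_sum_le_of_forall_le
  intro i _
  refine (natDegree_C_mul_X_pow_le _ _).trans ?_
  omega

lemma pl_coeff {n : ℕ} {p : ℤ[X]} (hp : p.natDegree ≤ n) :
    pl n (fun i => p.coeff i) = p := by
  ext j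
  by_cases hj : j ≤ n
  · exact coeff_pl n (fun i => p.coeff i) ⟨j, by omega⟩
  · rw [coeff_eq_zero_of_natDegree_lt (by have := natDegree_pl_le n fun i => p.coeff i; omega),
      coeff_eq_zero_of_natDegree_lt (by omega)]

lemma natDegree_pl {n : ℕ} {g : Fin (n + 1) → ℤ} (h : g (Fin.last n) ≠ 0) :
    (pl n g).natDegree = n := by
  apply le_antisymm (natDegree_pl_le n g)
  apply le_natDegree_of_ne_zero
  have := coeff_pl n g (Fin.last n)
  rw [Fin.val_last] at this
  rw [this]
  exact h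

/-- factorisation over the integers -/
lemma exists_factor {f : ℤ[X]} (hf : 0 < f.natDegree)
    (hirr : ¬ Irreducible (f.map (Int.castRingHom ℚ))) :
    ∃ g h : ℤ[X], f = g * h ∧ 0 < g.natDegree ∧ 0 < h.natDegree := by
  have hf0 : f ≠ 0 := by
    rintro rfl
    simp at hf
  have hc0 : f.content ≠ 0 := by
    rw [Ne, content_eq_zero_iff]
    exact hf0
  have hfp := f.eq_C_content_mul_primPart
  have hprim := f.isPrimitive_primPart
  have h1 : ¬ Irreducible f.primPart := by
    intro h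
    apply hirr
    rw [IsPrimitive.Int.irreducible_iff_irreducible_map_cast hprim] at h
    rw [hfp, Polynomial.map_mul, map_C]
    have hu : IsUnit (C ((Int.castRingHom ℚ) f.content) : ℚ[X]) := by
      rw [isUnit_C]
      exact Ne.isUnit (by simpa using hc0)
    exact (irreducible_isUnit_mul hu).2 h
  have hdeg : 0 < f.primPart.natDegree := by rw [natDegree_primPart]; exact hf
  have h2 : ¬ IsUnit f.primPart := by
    intro h
    rw [natDegree_eq_zero_of_isUnit h] at hdeg
    exact lt_irrefl 0 hdeg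
  rw [irreducible_iff, not_and_or] at h1
  rcases h1 with h1 | h1
  · exact absurd h2 h1
  · push Not at h1
    obtain ⟨u, v, huv, hu, hv⟩ := h1
    have hpos : ∀ {w : ℤ[X]}, w ∣ f.primPart → ¬ IsUnit w → 0 < w.natDegree := by
      intro w hw hwu
      rw [Nat.pos_iff_ne_zero]
      intro h0
      rw [natDegree_eq_zero] at h0
      obtain ⟨c, rfl⟩ := h0
      apply hwu
      rw [isUnit_C]
      exact hprim c hw
    refine ⟨C f.content * u, v, ?_, ?_, hpos ⟨u, by rw [huv, mul_comm]⟩ hv⟩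
    · rw [mul_assoc, ← huv]
      exact hfp
    · rw [natDegree_C_mul hc0]
      exact hpos ⟨v, huv⟩ hu

/-- coefficients of factors -/
lemma factor_bound {g h : ℤ[X]} {d : ℕ} (hgh : g * h ≠ 0) (hd : (g * h).natDegree = d) {H : ℕ}
    (hH : ∀ i, |(g * h).coeff i| ≤ H) (i j : ℕ) :
    |g.coeff i| * |h.coeff j| ≤ 2 ^ d * (d + 1) * H := by
  have hg0 : g ≠ 0 := left_ne_zero_of_mul hgh
  have hh0 : h ≠ 0 := right_ne_zero_of_mul hgh
  set v := Int.castRingHom ℂ with hv
  have hvn : ∀ n : ℤ, ‖v n‖ = (|n| : ℤ) := by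
    intro n
    rw [hv, Int.coe_castRingHom, Complex.norm_intCast, Int.cast_abs]
  have hinj : Function.Injective v := Int.cast_injective
  have h1 := norm_coeff_le_choose_mul_mahlerMeasure i (g.map v)
  have h2 := norm_coeff_le_choose_mul_mahlerMeasure j (h.map v)
  have h3 := mahlerMeasure_mul (g.map v) (h.map v)
  have h4 := mahlerMeasure_le_sum_norm_coeff ((g * h).map v)
  rw [Polynomial.map_mul, h3] at h4
  rw [coeff_map, hvn, natDegree_map_eq_of_injective hinj] at h1 h2
  have h5 : ((g.map v) * (h.map v)).sum (fun _ a => ‖a‖) ≤ (d + 1) * H := by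
    rw [← Polynomial.map_mul, sum_over_range' _ (fun _ => norm_zero) (d + 1)
      (by rw [natDegree_map_eq_of_injective hinj, hd]; exact Nat.lt_succ_self d)]
    calc ∑ a ∈ range (d + 1), ‖((g * h).map v).coeff a‖ ≤ ∑ a ∈ range (d + 1), (H : ℝ) := by
          apply sum_le_sum
          intro a _
          rw [coeff_map, hvn]
          exact_mod_cast hH a
      _ = (d + 1) * H := by
          rw [sum_const, card_range, nsmul_eq_mul]
          push_cast
          ring
  have h6 : g.natDegree + h.natDegree = d := by rw [← hd, natDegree_mul hg0 hh0]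
  have hM1 := mahlerMeasure_nonneg (g.map v)
  have hM2 := mahlerMeasure_nonneg (h.map v)
  have h7 : ((g.natDegree.choose i : ℕ) : ℝ) ≤ 2 ^ g.natDegree := by
    exact_mod_cast Nat.choose_le_two_pow _ _
  have h8 : ((h.natDegree.choose j : ℕ) : ℝ) ≤ 2 ^ h.natDegree := by
    exact_mod_cast Nat.choose_le_two_pow _ _
  have h9 : ((|g.coeff i| : ℤ) : ℝ) * (|h.coeff j| : ℤ) ≤ 2 ^ d * ((d + 1) * H) := by
    calc ((|g.coeff i| : ℤ) : ℝ) * (|h.coeff j| : ℤ)
        ≤ (2 ^ g.natDegree * (g.map v).mahlerMeasure) * (2 ^ h.natDegree * (h.map v).mahlerMeasure) := by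
          gcongr
          · exact h1.trans (mul_le_mul_of_nonneg_right h7 hM1)
          · exact h2.trans (mul_le_mul_of_nonneg_right h8 hM2)
      _ = 2 ^ d * ((g.map v).mahlerMeasure * (h.map v).mahlerMeasure) := by
          rw [← h6, pow_add]
          ring
      _ ≤ _ := mul_le_mul_of_nonneg_left (h4.trans h5) (by positivity)
  have h10 : ((|g.coeff i| * |h.coeff j| : ℤ) : ℝ) ≤ ((2 ^ d * (d + 1) * H : ℤ) : ℝ) := by
    push_cast at h9 ⊢
    linarith
  exact_mod_cast h10

/-- vectors with largest entry `m` -/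
lemma card_maxeq (n m : ℕ) :
    ((ibox (Fin (n + 1)) m).filter fun g => ∃ i, (g i).natAbs = m).card ≤
      (n + 1) * (2 * (2 * m + 1) ^ n) := by
  classical
  have hsub : ((ibox (Fin (n + 1)) m).filter fun g => ∃ i, (g i).natAbs = m) ⊆
      (univ : Finset (Fin (n + 1))).biUnion fun i =>
        (ibox (Fin (n + 1)) m).filter fun g => (g i).natAbs = m := by
    intro g hg
    rw [mem_filter] at hg
    obtain ⟨h1, i, h2⟩ := hg
    rw [mem_biUnion]
    exact ⟨i, mem_univ i, mem_filter.2 ⟨h1, h2⟩⟩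
  refine (card_le_card hsub).trans (card_biUnion_le.trans ?_)
  calc ∑ i : Fin (n + 1), ((ibox (Fin (n + 1)) m).filter fun g => (g i).natAbs = m).card
      ≤ ∑ _i : Fin (n + 1), 2 * (2 * m + 1) ^ n := by
        apply sum_le_sum
        intro i _
        have h := card_fiber (H := m) (S := (ibox (Fin (n + 1)) m).filter fun g => (g i).natAbs = m)
          (filter_subset _ _) {i} 2 ?_
        · rw [card_singleton, Fintype.card_fin, Nat.add_sub_cancel] at h
          exact h
        intro b T hT hTb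
        refine le_trans (card_le_card
          (t := {Function.update b i (m : ℤ), Function.update b i (-(m : ℤ))}) ?_) card_le_two
        intro a haT
        have ha := mem_filter.1 (hT haT)
        rw [mem_insert, mem_singleton]
        have h1 : ∀ j, j ≠ i → a j = b j := fun j hj => hTb a haT j (by rwa [mem_singleton])
        rcases Int.natAbs_eq (a i) with h2 | h2
        · left
          funext j
          by_cases hj : j = i
          · subst hj
            rw [Function.update_self, h2, ha.2]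
          · rw [Function.update_of_ne hj, h1 j hj]
        · right
          funext j
          by_cases hj : j = i
          · subst hj
            rw [Function.update_self, h2, ha.2]
          · rw [Function.update_of_ne hj, h1 j hj]
    _ = _ := by rw [sum_const, card_univ, Fintype.card_fin, smul_eq_mul]

/-- coefficient vectors of reducible polynomials of degree `d` -/
noncomputable def redS (d H : ℕ) : Finset (Fin (d + 1) → ℤ) := by
  classical
  exact (ibox (Fin (d + 1)) H).filter fun f => f (Fin.last d) ≠ 0 ∧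
    ¬ Irreducible ((pl d f).map (Int.castRingHom ℚ))

lemma natAbs_pos_of_lead {g : ℤ[X]} (hg : g ≠ 0) : 1 ≤ (g.coeff g.natDegree).natAbs := by
  rw [Nat.one_le_iff_ne_zero, Ne, Int.natAbs_eq_zero]
  exact leadingCoeff_ne_zero.2 hg

lemma redS_sub (d H : ℕ) (hd : 1 ≤ d) : redS d H ⊆
    (Icc 1 (d / 2)).biUnion fun a => (Icc 1 (2 ^ d * (d + 1) * H)).biUnion fun m =>
      ((((ibox (Fin (a + 1)) m).filter fun g => ∃ i, (g i).natAbs = m) ×ˢ
        ibox (Fin (d - a + 1)) (2 ^ d * (d + 1) * H / m)).image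
        fun p => fun i : Fin (d + 1) => (pl a p.1 * pl (d - a) p.2).coeff i) := by
  classical
  intro f hf
  unfold redS at hf
  rw [mem_filter, mem_ibox] at hf
  obtain ⟨hH, hlast, hirr⟩ := hf
  have hdeg := natDegree_pl hlast
  have hH' : ∀ i, |(pl d f).coeff i| ≤ H := by
    intro i
    by_cases hi : i ≤ d
    · have := coeff_pl d f ⟨i, by omega⟩
      simp only at this
      rw [this]
      exact hH _
    · rw [coeff_eq_zero_of_natDegree_lt (by omega)]
      simp
  obtain ⟨g, h, hgh, hg, hh, hle⟩ : ∃ g h : ℤ[X], pl d f = g * h ∧ 0 < g.natDegree ∧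
      0 < h.natDegree ∧ g.natDegree ≤ h.natDegree := by
    obtain ⟨g, h, h1, h2, h3⟩ := exists_factor (by omega : 0 < (pl d f).natDegree) hirr
    rcases le_total g.natDegree h.natDegree with h4 | h4
    · exact ⟨g, h, h1, h2, h3, h4⟩
    · exact ⟨h, g, by rw [h1, mul_comm], h3, h2, h4⟩
  have hne : g * h ≠ 0 := by
    intro h0
    rw [hgh, h0] at hdeg
    simp at hdeg
    omega
  have hg0 : g ≠ 0 := left_ne_zero_of_mul hne
  have hh0 : h ≠ 0 := right_ne_zero_of_mul hne
  have hsum : g.natDegree + h.natDegree = d := by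
    rw [← hdeg, hgh, natDegree_mul hg0 hh0]
  set a := g.natDegree with ha
  have hb : h.natDegree = d - a := by omega
  rw [hgh] at hH' hdeg
  have key := factor_bound hne hdeg hH'
  -- largest coefficient of `g`
  obtain ⟨i₀, -, hi₀⟩ := exists_max_image (univ : Finset (Fin (a + 1)))
    (fun i => (g.coeff i).natAbs) ⟨0, mem_univ 0⟩
  set m := (g.coeff i₀).natAbs with hm
  have hm1 : 1 ≤ m := by
    have h1 := hi₀ (Fin.last a) (mem_univ _)
    rw [Fin.val_last] at h1
    exact (natAbs_pos_of_lead hg0).trans h1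
  have key' : ∀ i j, (g.coeff i).natAbs * (h.coeff j).natAbs ≤ 2 ^ d * (d + 1) * H := by
    intro i j
    have h1 := key i j
    rw [Int.abs_eq_natAbs, Int.abs_eq_natAbs] at h1
    exact_mod_cast h1
  have hmH : m ≤ 2 ^ d * (d + 1) * H := by
    have h1 := key' i₀ h.natDegree
    calc m = m * 1 := (mul_one m).symm
      _ ≤ m * (h.coeff h.natDegree).natAbs := Nat.mul_le_mul_left _ (natAbs_pos_of_lead hh0)
      _ ≤ _ := h1
  rw [mem_biUnion]
  refine ⟨a, ?_, ?_⟩
  · rw [mem_Icc]
    omega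
  rw [mem_biUnion]
  refine ⟨m, ?_, ?_⟩
  · rw [mem_Icc]
    exact ⟨hm1, hmH⟩
  rw [mem_image]
  refine ⟨(fun i => g.coeff i, fun i => h.coeff i), ?_, ?_⟩
  · rw [mem_product, mem_filter, mem_ibox, mem_ibox]
    refine ⟨⟨?_, i₀, rfl⟩, ?_⟩
    · intro i
      have h1 := hi₀ i (mem_univ i)
      rw [Int.abs_eq_natAbs]
      exact_mod_cast h1
    · intro j
      have h1 := key' i₀ j
      rw [Int.abs_eq_natAbs]
      have h2 : (h.coeff j).natAbs ≤ 2 ^ d * (d + 1) * H / m := by
        rw [Nat.le_div_iff_mul_le (by omega), mul_comm]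
        exact h1
      exact_mod_cast h2
  · funext i
    simp only
    rw [pl_coeff ha.symm.le, pl_coeff hb.le, ← hgh]
    exact coeff_pl d f i

/-- the constant in the bound for reducible polynomials -/
def cR (d : ℕ) : ℕ := 2 ^ d * (d + 1)

theorem card_redS (d H : ℕ) (hd : 4 ≤ d) (hH : 1 ≤ H) :
    ((redS d H).card : ℝ) ≤ (4 * d * (d + 1) * 3 ^ d * (3 * cR d) ^ d) * (2 * H + 1) ^ d := by
  classical
  have hN : 1 ≤ cR d * H := Nat.mul_pos (Nat.mul_pos (pow_pos two_pos d) (Nat.succ_pos d)) hH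
  have h0 := (card_le_card (redS_sub d H (by omega))).trans
    (card_biUnion_le.trans (sum_le_sum fun a _ => card_biUnion_le))
  have h1 : (redS d H).card ≤ ∑ a ∈ Icc 1 (d / 2), ∑ m ∈ Icc 1 (cR d * H),
      ((a + 1) * (2 * (2 * m + 1) ^ a)) * (2 * (cR d * H / m) + 1) ^ (d - a + 1) := by
    refine h0.trans (sum_le_sum fun a _ => sum_le_sum fun m _ => ?_)
    refine card_image_le.trans ?_
    rw [card_product, card_ibox, Fintype.card_fin]
    exact Nat.mul_le_mul_right _ (card_maxeq a m)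
  have h2 : ((redS d H).card : ℝ) ≤ ∑ a ∈ Icc 1 (d / 2), ∑ m ∈ Icc 1 (cR d * H),
      (((a + 1 : ℕ) : ℝ) * (2 * (2 * m + 1) ^ a)) *
        (2 * ((cR d * H / m : ℕ) : ℝ) + 1) ^ (d - a + 1) := by
    have := @Nat.cast_le ℝ _ _ _ _ |>.2 h1
    refine this.trans (le_of_eq ?_)
    push_cast
    rfl
  refine h2.trans ?_
  set N : ℝ := ((cR d * H : ℕ) : ℝ) with hNd
  have hN1 : (1 : ℝ) ≤ N := by rw [hNd]; exact_mod_cast hN
  have hterm : ∀ a ∈ Icc 1 (d / 2), ∀ m ∈ Icc 1 (cR d * H),
      (((a + 1 : ℕ) : ℝ) * (2 * (2 * (m : ℝ) + 1) ^ a)) *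
        (2 * ((cR d * H / m : ℕ) : ℝ) + 1) ^ (d - a + 1) ≤
      (2 * (d + 1) * 3 ^ d * (3 * N) ^ d) * (1 / (m : ℝ) ^ 2) := by
    intro a ha m hm
    rw [mem_Icc] at ha hm
    have hm1 : (1 : ℝ) ≤ m := by exact_mod_cast hm.1
    have hmN : (m : ℝ) ≤ N := by rw [hNd]; exact_mod_cast hm.2
    have hm0 : (0 : ℝ) < m := by linarith
    have e1 : ((cR d * H / m : ℕ) : ℝ) ≤ N / m := Nat.cast_div_le
    have e2 : (1 : ℝ) ≤ N / m := by rw [le_div_iff₀ hm0]; linarith
    have e3 : (2 * ((cR d * H / m : ℕ) : ℝ) + 1) ^ (d - a + 1) ≤ (3 * (N / m)) ^ d := by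
      calc (2 * ((cR d * H / m : ℕ) : ℝ) + 1) ^ (d - a + 1) ≤ (3 * (N / m)) ^ (d - a + 1) := by
            gcongr
            linarith
        _ ≤ (3 * (N / m)) ^ d := by
            apply pow_le_pow_right₀ (by linarith)
            omega
    have e4 : (2 * (m : ℝ) + 1) ^ a ≤ 3 ^ d * (m : ℝ) ^ a := by
      calc (2 * (m : ℝ) + 1) ^ a ≤ (3 * (m : ℝ)) ^ a := by gcongr; linarith
        _ = 3 ^ a * (m : ℝ) ^ a := mul_pow _ _ _
        _ ≤ _ := by
            gcongr
            · norm_num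
            · omega
    have e5 : (((a + 1 : ℕ) : ℝ)) ≤ (d : ℝ) + 1 := by
      have : a ≤ d := by omega
      push_cast
      have : (a : ℝ) ≤ d := by exact_mod_cast this
      linarith
    calc (((a + 1 : ℕ) : ℝ) * (2 * (2 * (m : ℝ) + 1) ^ a)) *
        (2 * ((cR d * H / m : ℕ) : ℝ) + 1) ^ (d - a + 1)
        ≤ (((d : ℝ) + 1) * (2 * (3 ^ d * (m : ℝ) ^ a))) * (3 * (N / m)) ^ d := by gcongr
      _ = (2 * (d + 1) * 3 ^ d * (3 * N) ^ d) * ((m : ℝ) ^ a / (m : ℝ) ^ d) := by
          rw [← mul_div_assoc, div_pow]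
          ring
      _ ≤ _ := by
          apply mul_le_mul_of_nonneg_left _ (by positivity)
          rw [div_le_div_iff₀ (by positivity) (by positivity), one_mul, ← pow_add]
          apply pow_le_pow_right₀ hm1
          omega
  have hsum : ∀ a ∈ Icc 1 (d / 2), ∑ m ∈ Icc 1 (cR d * H),
      (((a + 1 : ℕ) : ℝ) * (2 * (2 * (m : ℝ) + 1) ^ a)) *
        (2 * ((cR d * H / m : ℕ) : ℝ) + 1) ^ (d - a + 1) ≤
      (2 * (d + 1) * 3 ^ d * (3 * N) ^ d) * 2 := by
    intro a ha
    refine (sum_le_sum (hterm a ha)).trans ?_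
    rw [← mul_sum]
    have : ∑ m ∈ Icc 1 (cR d * H), 1 / (m : ℝ) ^ 2 = ∑ Y ∈ range (cR d * H), 1 / (((Y : ℝ) + 1) ^ 2) := by
      have h3 : Icc 1 (cR d * H) = Ico (0 + 1) (cR d * H + 1) := by
        ext m
        rw [mem_Icc, mem_Ico]
        omega
      rw [h3, range_eq_Ico, ← sum_Ico_add' (fun m : ℕ => 1 / (m : ℝ) ^ 2)]
      refine sum_congr rfl fun m _ => ?_
      push_cast
      rfl
    rw [this]
    gcongr
    exact sum_inv_sq' _
  refine (sum_le_sum hsum).trans ?_
  rw [sum_const, nsmul_eq_mul, Nat.card_Icc]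
  have hcd : ((d / 2 + 1 - 1 : ℕ) : ℝ) ≤ d := by
    have : d / 2 + 1 - 1 ≤ d := by omega
    exact_mod_cast this
  have hNH : N ≤ cR d * (2 * H + 1) := by
    rw [hNd]
    push_cast
    have : (0 : ℝ) ≤ cR d := Nat.cast_nonneg _
    nlinarith [(Nat.cast_nonneg H : (0 : ℝ) ≤ H)]
  calc ((d / 2 + 1 - 1 : ℕ) : ℝ) * (2 * (d + 1) * 3 ^ d * (3 * N) ^ d * 2)
      ≤ (d : ℝ) * (2 * (d + 1) * 3 ^ d * (3 * (cR d * (2 * H + 1))) ^ d * 2) := by gcongr
    _ = _ := by
      rw [← mul_assoc 3 (cR d : ℝ), mul_pow (3 * (cR d : ℝ))]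
      ring

end Pool.Agent.R414.DN
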