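import Pool.Agent.R414.DN.Gen
import Pool.Agent.R414.DN.Red

set_option autoImplicit false
set_option linter.unusedSectionVars false

/-! Curves with irreducible leading form. -/

open Finset Polynomial

namespace Pool.Agent.R414.DN

/-- the top row of coefficients -/
def topRow {d : ℕ} (a : Cf d) : Fin (d + 1) → ℤ := fun j => co a d j

/-- the leading form is irreducible, with nonzero coefficient of `x ^ d` -/
def Lead {d : ℕ} (a : Cf d) : Prop :=
  co a d d ≠ 0 ∧ Irreducible ((pl d (topRow a)).map (Int.castRingHom ℚ))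

/-- the indices of the top row -/
def JT (d : ℕ) : Finset ↥(I d) := univ.filter fun p => p.1.1 = d

lemma card_JT (d : ℕ) : (JT d).card = d + 1 := by
  rw [← card_range (d + 1)]
  refine card_bij' (fun p _ => p.1.2)
    (fun k hk => ⟨(d, k), by rw [mem_range] at hk; rw [mem_I]; omega⟩) ?_ ?_ ?_ ?_
  · intro p _
    have := mem_I.1 p.2
    rw [mem_range]
    omega
  · intro k hk
    unfold JT
    rw [mem_filter]
    exact ⟨mem_univ _, rfl⟩
  · intro p hp
    unfold JT at hp
    rw [mem_filter] at hp
    apply Subtype.ext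
    apply Prod.ext
    · exact hp.2.symm
    · rfl
  · intro k hk
    rfl

theorem card_notLead {d H : ℕ} (hd : 4 ≤ d) (hH : 1 ≤ H) (S : Finset (Cf d))
    (hS : S ⊆ ibox ↥(I d) H) (h : ∀ a ∈ S, ¬ Lead a) :
    (S.card : ℝ) ≤ (1 + 4 * d * (d + 1) * 3 ^ d * (3 * cR d) ^ d) * (2 * H + 1) ^ (MM d - 1) := by
  classical
  have hsplit : S = S.filter (fun a => co a d d = 0) ∪ S.filter (fun a => ¬ co a d d = 0) :=
    (filter_union_filter_not_eq _ S).symm
  have h1 : (S.filter (fun a => co a d d = 0)).card ≤ 1 * (2 * H + 1) ^ (MM d - 1) := by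
    have hpd : (d, d) ∈ I d := by rw [mem_I]; exact ⟨le_rfl, le_rfl⟩
    have key := card_fiber (H := H) (S := S.filter (fun a => co a d d = 0))
      ((filter_subset _ _).trans hS) {⟨(d, d), hpd⟩} 1 ?_
    · rw [card_singleton] at key
      exact key
    · intro b T hT hTb
      rw [card_le_one]
      intro a ha a' ha'
      have e1 := (mem_filter.1 (hT ha)).2
      have e2 := (mem_filter.1 (hT ha')).2
      rw [co_of_mem _ hpd] at e1 e2
      funext p
      by_cases hp : p ∈ ({⟨(d, d), hpd⟩} : Finset ↥(I d))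
      · rw [mem_singleton] at hp
        rw [hp, e1, e2]
      · rw [hTb a ha p hp, hTb a' ha' p hp]
  have h2 : (S.filter (fun a => ¬ co a d d = 0)).card ≤
      (redS d H).card * (2 * H + 1) ^ (MM d - (d + 1)) := by
    have key := card_fiber (H := H) (S := S.filter (fun a => ¬ co a d d = 0))
      ((filter_subset _ _).trans hS) (JT d) (redS d H).card ?_
    · rw [card_JT] at key
      exact key
    · intro b T hT hTb
      apply card_le_card_of_injOn topRow
      · intro a ha
        rw [mem_coe] at ha ⊢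
        have e1 := mem_filter.1 (hT ha)
        unfold redS
        rw [mem_filter, mem_ibox]
        refine ⟨fun i => co_le (hS e1.1) _ _, ?_, ?_⟩
        · unfold topRow
          rw [Fin.val_last]
          exact e1.2
        · intro hirr
          exact h a e1.1 ⟨e1.2, hirr⟩
      · intro a ha a' ha' haa
        rw [mem_coe] at ha ha'
        funext p
        by_cases hp : p ∈ JT d
        · have hpI := mem_I.1 p.2
          unfold JT at hp
          rw [mem_filter] at hp
          have h3 := congrFun haa ⟨p.1.2, by omega⟩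
          unfold topRow at h3
          simp only at h3
          have h4 : (d, p.1.2) ∈ I d := by rw [mem_I]; omega
          have h5 : p = ⟨(d, p.1.2), h4⟩ := by
            apply Subtype.ext
            apply Prod.ext
            · exact hp.2
            · rfl
          rw [co_of_mem a h4, co_of_mem a' h4] at h3
          rw [h5]
          exact h3
        · rw [hTb a ha p hp, hTb a' ha' p hp]
  have h3 : (S.card : ℝ) ≤ 1 * (2 * H + 1) ^ (MM d - 1) +
      (redS d H).card * (2 * H + 1) ^ (MM d - (d + 1)) := by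
    have h4 : S.card ≤ 1 * (2 * H + 1) ^ (MM d - 1) +
        (redS d H).card * (2 * H + 1) ^ (MM d - (d + 1)) := by
      rw [hsplit]
      exact (card_union_le _ _).trans (add_le_add h1 h2)
    exact_mod_cast h4
  refine h3.trans ?_
  have hM := MM_pos d
  have h5 : (2 * (H : ℝ) + 1) ^ (MM d - 1) = (2 * (H : ℝ) + 1) ^ d *
      (2 * (H : ℝ) + 1) ^ (MM d - (d + 1)) := by
    rw [← pow_add]
    congr 1
    omega
  calc 1 * (2 * (H : ℝ) + 1) ^ (MM d - 1) +
        (redS d H).card * (2 * H + 1) ^ (MM d - (d + 1))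
      ≤ 1 * (2 * (H : ℝ) + 1) ^ (MM d - 1) +
        ((4 * d * (d + 1) * 3 ^ d * (3 * cR d) ^ d) * (2 * H + 1) ^ d) *
          (2 * H + 1) ^ (MM d - (d + 1)) := by
        have := card_redS d H hd hH
        gcongr
    _ = _ := by rw [h5]; ring

lemma natDegree_map_pl {d : ℕ} {a : Cf d} (h : co a d d ≠ 0) :
    ((pl d (topRow a)).map (Int.castRingHom ℚ)).natDegree = d := by
  rw [natDegree_map_eq_of_injective (RingHom.injective_int _)]
  exact natDegree_pl h

lemma eval_map_pl {d : ℕ} (a : Cf d) (s : ℚ) :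
    ((pl d (topRow a)).map (Int.castRingHom ℚ)).eval s =
      ∑ i ∈ range (d + 1), (co a d i : ℚ) * s ^ i := by
  unfold pl
  rw [Polynomial.map_sum, eval_finsetSum, ← Fin.sum_univ_eq_sum_range]
  refine sum_congr rfl fun i _ => ?_
  simp [topRow]

lemma lead_ne {d : ℕ} (hd : 2 ≤ d) {a : Cf d} (h : Lead a) (p q : ℤ) (hpq : p ≠ 0 ∨ q ≠ 0) :
    ∑ i ∈ range (d + 1), co a d i * (p ^ i * q ^ (d - i)) ≠ 0 := by
  by_cases hq : q = 0
  · have hp : p ≠ 0 := hpq.resolve_right (not_not.2 hq)
    rw [sum_eq_single_of_mem d (mem_range.2 (Nat.lt_succ_self d))]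
    · rw [Nat.sub_self, pow_zero, mul_one]
      exact mul_ne_zero h.1 (pow_ne_zero _ hp)
    · intro i hi hid
      rw [mem_range] at hi
      rw [hq, zero_pow (by omega), mul_zero, mul_zero]
  · intro h0
    have hq' : (q : ℚ) ≠ 0 := by exact_mod_cast hq
    have h1 : ((pl d (topRow a)).map (Int.castRingHom ℚ)).IsRoot ((p : ℚ) / q) := by
      rw [IsRoot, eval_map_pl]
      have h2 : (q : ℚ) ^ d * ∑ i ∈ range (d + 1), (co a d i : ℚ) * ((p : ℚ) / q) ^ i =
          ((∑ i ∈ range (d + 1), co a d i * (p ^ i * q ^ (d - i)) : ℤ) : ℚ) := by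
        rw [mul_sum]
        push_cast
        refine sum_congr rfl fun i hi => ?_
        rw [mem_range] at hi
        have : (q : ℚ) ^ d = (q : ℚ) ^ i * (q : ℚ) ^ (d - i) := by
          rw [← pow_add]
          congr 1
          omega
        rw [this, div_pow]
        field_simp
      rw [h0, Int.cast_zero] at h2
      exact (mul_eq_zero.1 h2).resolve_left (pow_ne_zero _ hq')
    have h2 := degree_eq_one_of_irreducible_of_root h.2 h1
    have h3 : ((pl d (topRow a)).map (Int.castRingHom ℚ)).natDegree = 1 :=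
      natDegree_eq_of_degree_eq_some (by rw [h2]; rfl)
    rw [natDegree_map_pl h.1] at h3
    omega

lemma noRoot_of_lead {d : ℕ} (hd : 2 ≤ d) {a : Cf d} (h : Lead a) : NoRoot (co a) d :=
  fun p q hq => lead_ne hd h p q (Or.inr hq.ne')

/-- the coefficient vector with `x` and `y` exchanged -/
def swV {d : ℕ} (a : Cf d) : Cf d := fun p => a (swE d p)

lemma co_swV {d : ℕ} (a : Cf d) {k i : ℕ} (h : (k, i) ∈ I d) : co (swV a) k i = co a k (k - i) :=
  co_sw a h

lemma swV_swV {d : ℕ} (a : Cf d) : swV (swV a) = a := by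
  funext p
  have h1 : swE d (swE d p) = p := (swE d).left_inv p
  show a (swE d (swE d p)) = a p
  rw [h1]

lemma swV_mem {d H : ℕ} {a : Cf d} (ha : a ∈ ibox ↥(I d) H) : swV a ∈ ibox ↥(I d) H := by
  rw [mem_ibox] at ha ⊢
  exact fun i => ha _

lemma Fv_swV {d : ℕ} (a : Cf d) (x y : ℤ) : Fv (co (swV a)) d y x = Fv (co a) d x y := by
  rw [← Fv_sw (co a)]
  exact Fv_congr (fun k i h => co_sw a h) y x

lemma noRoot_swV {d : ℕ} (hd : 2 ≤ d) {a : Cf d} (h : Lead a) : NoRoot (co (swV a)) d := by
  intro p q hq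
  have h1 := lead_ne hd h q p (Or.inl hq.ne')
  rw [← sum_range_reflect] at h1
  intro h2
  apply h1
  rw [← h2]
  refine sum_congr rfl fun i hi => ?_
  rw [mem_range] at hi
  rw [co_swV a (by rw [mem_I]; omega)]
  have e1 : d + 1 - 1 - i = d - i := by omega
  have e2 : d - (d - i) = i := by omega
  rw [e1, e2]
  ring

end Pool.Agent.R414.DN
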