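import Pool.Agent.R414.DN.MvP

set_option autoImplicit false
set_option linter.unusedSectionVars false

/-! Restrictions of generic curves to lines. -/

open Finset Polynomial

namespace Pool.Agent.R414.DN

/-- values in a commutative ring -/
def FR {R : Type} [CommRing R] (c : ℕ → ℕ → ℤ) (d : ℕ) (x y : R) : R :=
  ∑ k ∈ range (d + 1), ∑ i ∈ range (k + 1), (c k i : R) * (x ^ i * y ^ (k - i))

lemma FR_swV {R : Type} [CommRing R] {d : ℕ} (a : Cf d) (x y : R) :
    FR (co (swV a)) d y x = FR (co a) d x y := by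
  unfold FR
  refine sum_congr rfl fun k hk => ?_
  rw [mem_range] at hk
  rw [← sum_range_reflect]
  refine sum_congr rfl fun i hi => ?_
  rw [mem_range] at hi
  have h1 : k + 1 - 1 - i = k - i := by omega
  have h2 : k - (k - i) = i := by omega
  rw [h1, co_swV a (by rw [mem_I]; omega), h2, mul_comm (y ^ _)]

lemma line_row (c : ℕ → ℕ → ℤ) (k : ℕ) (t u : ℝ) :
    ∑ i ∈ range (k + 1), ((c k i : ℤ) : ℝ[X]) * ((C t * X + C u) ^ i * X ^ (k - i)) =
      ∑ j ∈ range (k + 1), C (TT c k j t * u ^ j) * X ^ (k - j) := by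
  have h1 : ∀ i ∈ range (k + 1), ((c k i : ℤ) : ℝ[X]) * ((C t * X + C u) ^ i * X ^ (k - i)) =
      ∑ j ∈ range (k + 1), C (((i.choose j : ℕ) : ℝ) * (c k i : ℝ) * t ^ (i - j) * u ^ j) *
        X ^ (k - j) := by
    intro i hi
    rw [mem_range] at hi
    rw [← sum_subset (range_subset_range.2 (by omega : i + 1 ≤ k + 1))]
    · rw [add_comm (C t * X), add_pow, sum_mul, mul_sum]
      refine sum_congr rfl fun j hj => ?_
      rw [mem_range] at hj
      have h2 : (X : ℝ[X]) ^ (k - j) = X ^ (i - j) * X ^ (k - i) := by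
        rw [← pow_add]
        congr 1
        omega
      rw [h2, mul_pow, ← C_pow, ← C_pow]
      simp only [C_mul, map_natCast, map_intCast]
      ring
    · intro j _ hj
      rw [mem_range] at hj
      rw [Nat.choose_eq_zero_of_lt (by omega)]
      simp
  rw [sum_congr rfl h1, sum_comm]
  refine sum_congr rfl fun j _ => ?_
  rw [← sum_mul, ← map_sum]
  unfold TT
  rw [sum_mul]

lemma coef_row (c : ℕ → ℕ → ℤ) (k n : ℕ) (t u : ℝ) :
    (∑ i ∈ range (k + 1), ((c k i : ℤ) : ℝ[X]) * ((C t * X + C u) ^ i * X ^ (k - i))).coeff n =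
      if n ≤ k then TT c k (k - n) t * u ^ (k - n) else 0 := by
  rw [line_row, finsetSum_coeff]
  simp only [coeff_C_mul_X_pow]
  split_ifs with h
  · rw [sum_eq_single_of_mem (k - n) (by rw [mem_range]; omega)]
    · rw [if_pos (by omega)]
    · intro j hj hjn
      rw [mem_range] at hj
      rw [if_neg (by omega)]
  · apply sum_eq_zero
    intro j _
    rw [if_neg (by omega)]

lemma line_aux {d : ℕ} {c : ℕ → ℕ → ℤ} {H w : ℝ} (hd : 2 ≤ d) (hc : ∀ k i, |(c k i : ℝ)| ≤ H)
    (hH : 1 ≤ H) (hw : 1 ≤ w) (hG1 : G1 c d (H / w)) (hG2 : G2 c d (WW d w) (H / w ^ 6))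
    {t : ℝ} (ht : |t| ≤ 2) (u : ℝ) :
    d ≤ (FR c d (C t * X + C u) (X : ℝ[X])).natDegree + 2 := by
  obtain ⟨e, rfl⟩ : ∃ e, d = e + 2 := ⟨d - 2, by omega⟩
  have hcoef : ∀ n, (FR c (e + 2) (C t * X + C u) (X : ℝ[X])).coeff n =
      ∑ k ∈ range (e + 2 + 1), if n ≤ k then TT c k (k - n) t * u ^ (k - n) else 0 := by
    intro n
    unfold FR
    rw [finsetSum_coeff]
    exact sum_congr rfl fun k _ => coef_row c k n t u
  have hlow : ∀ n, e ≤ n → ∑ k ∈ range e, (if n ≤ k then TT c k (k - n) t * u ^ (k - n) else 0) = 0 := by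
    intro n hn
    apply sum_eq_zero
    intro k hk
    rw [mem_range] at hk
    rw [if_neg (by omega)]
  have h0 : (FR c (e + 2) (C t * X + C u) (X : ℝ[X])).coeff (e + 2) = TT c (e + 2) 0 t := by
    rw [hcoef, sum_range_succ, sum_range_succ, sum_range_succ, hlow _ (by omega),
      if_neg (by omega), if_neg (by omega), if_pos le_rfl]
    simp
  have h1 : (FR c (e + 2) (C t * X + C u) (X : ℝ[X])).coeff (e + 1) =
      TT c (e + 1) 0 t + TT c (e + 2) 1 t * u := by
    rw [hcoef, sum_range_succ, sum_range_succ, sum_range_succ, hlow _ (by omega),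
      if_neg (by omega), if_pos le_rfl, if_pos (by omega)]
    have e1 : e + 2 - (e + 1) = 1 := by omega
    rw [e1, Nat.sub_self]
    simp
  have h2 : (FR c (e + 2) (C t * X + C u) (X : ℝ[X])).coeff e =
      TT c e 0 t + TT c (e + 1) 1 t * u + TT c (e + 2) 2 t * u ^ 2 := by
    rw [hcoef, sum_range_succ, sum_range_succ, sum_range_succ, hlow _ le_rfl,
      if_pos le_rfl, if_pos (by omega), if_pos (by omega)]
    have e1 : e + 1 - e = 1 := by omega
    have e2 : e + 2 - e = 2 := by omega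
    rw [e1, e2, Nat.sub_self]
    simp
  by_contra hcon
  have hlt : (FR c (e + 2) (C t * X + C u) (X : ℝ[X])).natDegree < e := by omega
  rw [coeff_eq_zero_of_natDegree_lt (by omega)] at h0 h1 h2
  have hpos1 : 0 < H / w := by positivity
  have hpos2 : 0 < H / w ^ 6 := by positivity
  have hT1 : H / w ≤ |TT c (e + 2) 1 t| := by
    rcases hG1 t ht with h | h
    · rw [← h0, abs_zero] at h
      linarith
    · exact h
  have hT1' : 0 < |TT c (e + 2) 1 t| := by linarith
  have hu : |u| ≤ WW (e + 2) w := by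
    have h3 : |TT c (e + 2) 1 t| * |u| ≤ c1 (e + 2) * H := by
      have h4 : TT c (e + 2) 1 t * u = -TT c (e + 1) 0 t := by linarith
      rw [← abs_mul, h4, abs_neg]
      exact TT_le hc (by omega) 0 ht
    have h4 : (H / w) * |u| ≤ c1 (e + 2) * H := le_trans (by gcongr) h3
    have h5 : |u| ≤ c1 (e + 2) * w := by
      have h6 : |u| = (H / w) * |u| * (w / H) := by field_simp
      rw [h6]
      calc (H / w) * |u| * (w / H) ≤ c1 (e + 2) * H * (w / H) := by gcongr
        _ = _ := by field_simp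
    refine h5.trans ?_
    unfold WW
    have h6 := c1_pos (e + 2)
    have h7 : (1 : ℝ) ≤ 2 * ((e + 2 : ℕ) : ℝ) := by push_cast; linarith [(Nat.cast_nonneg e : (0 : ℝ) ≤ e)]
    calc c1 (e + 2) * w = 1 * c1 (e + 2) * w := by ring
      _ ≤ 2 * ((e + 2 : ℕ) : ℝ) * c1 (e + 2) * w := by gcongr
  have e1 : e + 2 - 1 = e + 1 := by omega
  have e2 : e + 2 - 2 = e := by omega
  rcases hG2 t u ht hu with h | h | h
  · rw [← h0, abs_zero] at h
    linarith
  · rw [e1, ← h1, abs_zero] at h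
    linarith
  · rw [e1, e2, ← h2, abs_zero] at h
    linarith

lemma natDegree_lin {p q : ℝ} (hq : q ≠ 0) : (C p + C q * X : ℝ[X]).natDegree = 1 := by
  rw [add_comm]
  exact natDegree_linear hq

lemma FR_comp (c : ℕ → ℕ → ℤ) (d : ℕ) (P Q R : ℝ[X]) :
    (FR c d P Q).comp R = FR c d (P.comp R) (Q.comp R) := by
  unfold FR
  have h : ∀ (A : ℝ[X]), A.comp R = compRingHom R A := fun A => rfl
  rw [h, map_sum]
  refine sum_congr rfl fun k _ => ?_
  rw [map_sum]
  refine sum_congr rfl fun i _ => ?_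
  rw [map_mul, map_mul, map_pow, map_pow, map_intCast]
  rfl

lemma line_chart {d : ℕ} {c : ℕ → ℕ → ℤ} {H w : ℝ} (hd : 2 ≤ d) (hc : ∀ k i, |(c k i : ℝ)| ≤ H)
    (hH : 1 ≤ H) (hw : 1 ≤ w) (hG1 : G1 c d (H / w)) (hG2 : G2 c d (WW d w) (H / w ^ 6))
    {p0 p1 q0 q1 : ℝ} (hq : q1 ≠ 0) (hqq : |q0| ≤ |q1|) :
    d ≤ (FR c d (C p0 + C q0 * X) (C p1 + C q1 * X : ℝ[X])).natDegree + 2 := by
  have hpos : 0 < |q1| := abs_pos.2 hq
  have ht : |q0 / q1| ≤ 2 := by
    rw [abs_div, div_le_iff₀ hpos]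
    linarith
  have h1 := line_aux hd hc hH hw hG1 hG2 ht (p0 - q0 / q1 * p1)
  have h2 : FR c d (C p0 + C q0 * X) (C p1 + C q1 * X : ℝ[X]) =
      (FR c d (C (q0 / q1) * X + C (p0 - q0 / q1 * p1)) (X : ℝ[X])).comp (C p1 + C q1 * X) := by
    rw [FR_comp]
    congr 1
    · simp only [add_comp, mul_comp, C_comp, X_comp]
      have h3 : C (q0 / q1) * C q1 = (C q0 : ℝ[X]) := by
        rw [← C_mul]
        congr 1
        field_simp
      rw [C_sub, C_mul, mul_add, ← mul_assoc, h3]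
      ring
    · rw [X_comp]
  rw [h2, natDegree_comp, natDegree_lin hq, mul_one]
  exact h1

/-- the genericity conditions in both charts -/
structure Gen {d : ℕ} (H : ℕ) (w : ℝ) (a : Cf d) : Prop where
  lead : Lead a
  g1 : G1 (co a) d (H / w)
  g2 : G2 (co a) d (WW d w) (H / w ^ 6)
  g1' : G1 (co (swV a)) d (H / w)
  g2' : G2 (co (swV a)) d (WW d w) (H / w ^ 6)

lemma hlines_poly {d H : ℕ} {w : ℝ} {a : Cf d} (hd : 2 ≤ d) (ha : a ∈ ibox ↥(I d) H) (hH : 1 ≤ H)
    (hw : 1 ≤ w) (hg : Gen H w a) (p q : Fin 2 → ℝ) (hq : q ≠ 0) :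
    d ≤ (MvPolynomial.aeval (fun i => (C (p i) + C (q i) * X : ℝ[X])) (poly a)).natDegree + 2 := by
  have hH' : (1 : ℝ) ≤ H := by exact_mod_cast hH
  have h1 : MvPolynomial.aeval (fun i => (C (p i) + C (q i) * X : ℝ[X])) (poly a) =
      FR (co a) d (C (p 0) + C (q 0) * X) (C (p 1) + C (q 1) * X : ℝ[X]) := by
    rw [aeval_poly]
    rfl
  rw [h1]
  by_cases h : q 1 ≠ 0 ∧ |q 0| ≤ |q 1|
  · exact line_chart hd (co_le' ha) hH' hw hg.g1 hg.g2 h.1 h.2
  · have h2 : q 0 ≠ 0 ∧ |q 1| ≤ |q 0| := by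
      by_cases h3 : q 1 = 0
      · have h4 : q 0 ≠ 0 := by
          intro h4
          apply hq
          funext i
          fin_cases i
          · exact h4
          · exact h3
        refine ⟨h4, ?_⟩
        rw [h3, abs_zero]
        exact abs_nonneg _
      · have h4 : |q 1| < |q 0| := by
          by_contra h5
          exact h ⟨h3, not_lt.1 h5⟩
        refine ⟨?_, h4.le⟩
        intro h5
        rw [h5, abs_zero] at h4
        exact absurd h4 (not_lt.2 (abs_nonneg _))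
    rw [← FR_swV]
    exact line_chart hd (co_le' (swV_mem ha)) hH' hw hg.g1' hg.g2' h2.1 h2.2

end Pool.Agent.R414.DN
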