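import Pool.Agent.R414.DN.Lead
import Pool.Agent.H674R3.SiegelD

set_option autoImplicit false
set_option linter.unusedSectionVars false

/-! The polynomial with a given coefficient vector. -/

open Finset Polynomial

namespace Pool.Agent.R414.DN

/-- exponent of `x ^ i * y ^ (k - i)` -/
noncomputable def mo (p : ℕ × ℕ) : Fin 2 →₀ ℕ := Finsupp.single 0 p.2 + Finsupp.single 1 (p.1 - p.2)

lemma mo_zero (p : ℕ × ℕ) : mo p 0 = p.2 := by
  unfold mo
  simp

lemma mo_one (p : ℕ × ℕ) : mo p 1 = p.1 - p.2 := by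
  unfold mo
  simp

/-- the polynomial -/
noncomputable def poly {d : ℕ} (a : Cf d) : MvPolynomial (Fin 2) ℤ :=
  ∑ p : ↥(I d), MvPolynomial.monomial (mo p.1) (a p)

lemma coeff_poly {d : ℕ} (a : Cf d) (m : Fin 2 →₀ ℕ) :
    (poly a).coeff m = co a (m 0 + m 1) (m 0) := by
  unfold poly
  rw [MvPolynomial.coeff_sum]
  simp only [MvPolynomial.coeff_monomial]
  have huniq : ∀ p : ↥(I d), mo p.1 = m → p.1 = (m 0 + m 1, m 0) := by
    intro p hp
    have h1 := mo_zero p.1
    have h2 := mo_one p.1
    rw [hp] at h1 h2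
    have h3 := mem_I.1 p.2
    apply Prod.ext
    · simp only
      omega
    · exact h1.symm
  by_cases h : (m 0 + m 1, m 0) ∈ I d
  · rw [co_of_mem a h, sum_eq_single ⟨(m 0 + m 1, m 0), h⟩]
    · rw [if_pos]
      ext i
      fin_cases i
      · exact mo_zero _
      · show mo _ 1 = m 1
        rw [mo_one]
        simp
    · intro p _ hp
      rw [if_neg]
      intro h1
      exact hp (Subtype.ext (huniq p h1))
    · intro h1
      exact absurd (mem_univ _) h1
  · unfold co
    rw [dif_neg h]
    apply sum_eq_zero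
    intro p _
    rw [if_neg]
    intro h1
    apply h
    rw [← huniq p h1]
    exact p.2

lemma coeff_poly_mo {d : ℕ} (a : Cf d) (p : ↥(I d)) : (poly a).coeff (mo p.1) = a p := by
  have h3 := mem_I.1 p.2
  have h1 : (mo p.1 0 + mo p.1 1, mo p.1 0) = p.1 := by
    rw [mo_zero, mo_one]
    apply Prod.ext
    · simp only
      omega
    · rfl
  rw [coeff_poly]
  have h2 : (mo p.1 0 + mo p.1 1, mo p.1 0) ∈ I d := by rw [h1]; exact p.2
  rw [co_of_mem a h2]
  congr 1
  exact Subtype.ext h1

lemma poly_inj {d : ℕ} {a b : Cf d} (h : poly a = poly b) : a = b := by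
  funext p
  rw [← coeff_poly_mo a p, ← coeff_poly_mo b p, h]

lemma sum_I {d : ℕ} {R : Type} [AddCommMonoid R] (f : ℕ → ℕ → R) :
    ∑ p : ↥(I d), f p.1.1 p.1.2 = ∑ k ∈ range (d + 1), ∑ i ∈ range (k + 1), f k i := by
  have h1 : ∑ p : ↥(I d), f p.1.1 p.1.2 = ∑ p ∈ I d, f p.1 p.2 :=
    sum_coe_sort (I d) (fun p => f p.1 p.2)
  rw [h1]
  unfold I
  rw [sum_filter, sum_product]
  refine sum_congr rfl fun k hk => ?_
  rw [mem_range] at hk
  simp only
  rw [← sum_filter]
  refine sum_congr ?_ fun i _ => rfl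
  ext i
  rw [mem_filter, mem_range, mem_range]
  omega

lemma aeval_poly {d : ℕ} (a : Cf d) {R : Type} [CommRing R] [Algebra ℤ R] (g : Fin 2 → R) :
    MvPolynomial.aeval g (poly a) =
      ∑ k ∈ range (d + 1), ∑ i ∈ range (k + 1), (co a k i : R) * (g 0 ^ i * g 1 ^ (k - i)) := by
  rw [← sum_I fun k i => (co a k i : R) * (g 0 ^ i * g 1 ^ (k - i))]
  unfold poly
  rw [map_sum]
  refine sum_congr rfl fun p _ => ?_
  rw [MvPolynomial.aeval_monomial, Finsupp.prod_fintype _ _ (by intro i; exact pow_zero _),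
    Fin.prod_univ_two, mo_zero, mo_one, co_of_mem a p.2]
  simp

lemma eval_poly {d : ℕ} (a : Cf d) (x y : ℤ) :
    MvPolynomial.eval ![x, y] (poly a) = Fv (co a) d x y := by
  have h := aeval_poly a ![x, y]
  have h2 : MvPolynomial.eval ![x, y] (poly a) = MvPolynomial.aeval ![x, y] (poly a) := by
    rw [← MvPolynomial.coe_aeval_eq_eval]
    rfl
  rw [h2, h]
  unfold Fv
  simp

lemma totalDegree_poly_le {d : ℕ} (a : Cf d) : (poly a).totalDegree ≤ d := by
  unfold MvPolynomial.totalDegree
  apply Finset.sup_le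
  intro m hm
  rw [MvPolynomial.mem_support_iff, coeff_poly] at hm
  have h1 : m.sum (fun _ e => e) = m 0 + m 1 := by
    rw [Finsupp.sum_fintype _ _ (by intro i; rfl), Fin.sum_univ_two]
  rw [h1]
  by_contra hcon
  apply hm
  unfold co
  rw [dif_neg]
  rw [mem_I]
  simp only
  omega

lemma totalDegree_poly {d : ℕ} {a : Cf d} (h : co a d d ≠ 0) : (poly a).totalDegree = d := by
  apply le_antisymm (totalDegree_poly_le a)
  have h1 : (Finsupp.single (0 : Fin 2) d : Fin 2 →₀ ℕ) ∈ (poly a).support := by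
    rw [MvPolynomial.mem_support_iff, coeff_poly]
    simpa using h
  have h2 := MvPolynomial.le_totalDegree h1
  simpa using h2

lemma totalDegree_sub {d : ℕ} (hd : 4 ≤ d) {a b : Cf d} (h : ∀ p : ↥(I d), d < p.1.1 + 4 → a p = b p) :
    (poly a - poly b).totalDegree + 4 ≤ d := by
  have h0 : (poly a - poly b).totalDegree ≤ d - 4 := by
    unfold MvPolynomial.totalDegree
    apply Finset.sup_le
    intro m hm
    rw [MvPolynomial.mem_support_iff, MvPolynomial.coeff_sub, coeff_poly, coeff_poly] at hm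
    have h1 : m.sum (fun _ e => e) = m 0 + m 1 := by
      rw [Finsupp.sum_fintype _ _ (by intro i; rfl), Fin.sum_univ_two]
    rw [h1]
    by_contra hcon
    apply hm
    by_cases hmem : (m 0 + m 1, m 0) ∈ I d
    · rw [co_of_mem a hmem, co_of_mem b hmem, h _ (by simp only; omega), sub_self]
    · unfold co
      rw [dif_neg hmem, dif_neg hmem, sub_self]
  omega

lemma len_poly {d H : ℕ} {a : Cf d} (ha : a ∈ ibox ↥(I d) H) :
    Pool.Agent.H322R2.len (poly a) ≤ MM d * H := by
  classical
  unfold Pool.Agent.H322R2.len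
  have h1 : (poly a).support ⊆ (univ : Finset ↥(I d)).image fun p => mo p.1 := by
    intro m hm
    rw [MvPolynomial.mem_support_iff, coeff_poly] at hm
    have hmem : (m 0 + m 1, m 0) ∈ I d := by
      by_contra hcon
      apply hm
      unfold co
      rw [dif_neg hcon]
    rw [mem_image]
    refine ⟨⟨_, hmem⟩, mem_univ _, ?_⟩
    ext i
    fin_cases i
    · exact mo_zero _
    · show mo _ 1 = m 1
      rw [mo_one]
      simp
  calc ∑ m ∈ (poly a).support, ((poly a).coeff m).natAbs ≤ ∑ _m ∈ (poly a).support, H := by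
        refine sum_le_sum fun m _ => ?_
        rw [coeff_poly]
        have := co_le ha (m 0 + m 1) (m 0)
        rw [Int.abs_eq_natAbs] at this
        exact_mod_cast this
    _ = (poly a).support.card * H := by rw [sum_const, smul_eq_mul]
    _ ≤ MM d * H := by
        apply Nat.mul_le_mul_right
        refine (card_le_card h1).trans (card_image_le.trans ?_)
        rw [card_univ]
        rfl

/-- dehomogenisation of the leading form -/
lemma dehom_poly {d : ℕ} (a : Cf d) :
    MvPolynomial.aeval ![(X : ℚ[X]), 1] (MvPolynomial.map (Int.castRingHom ℚ)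
      (MvPolynomial.homogeneousComponent d (poly a))) =
      (pl d (topRow a)).map (Int.castRingHom ℚ) := by
  have h1 : MvPolynomial.homogeneousComponent d (poly a) =
      ∑ p : ↥(I d), if p.1.1 = d then MvPolynomial.monomial (mo p.1) (a p) else 0 := by
    unfold poly
    rw [map_sum]
    refine sum_congr rfl fun p _ => ?_
    have h2 : (MvPolynomial.monomial (mo p.1) (a p)).IsHomogeneous p.1.1 := by
      apply MvPolynomial.isHomogeneous_monomial
      rw [Finsupp.degree_eq_sum, Fin.sum_univ_two, mo_zero, mo_one]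
      have := mem_I.1 p.2
      omega
    rw [MvPolynomial.homogeneousComponent_of_mem h2]
    by_cases h3 : p.1.1 = d
    · rw [if_pos h3, if_pos h3.symm]
    · rw [if_neg h3, if_neg (fun h4 => h3 h4.symm)]
  have h2 : ∀ p : ↥(I d), MvPolynomial.aeval ![(X : ℚ[X]), 1] (MvPolynomial.map (Int.castRingHom ℚ)
      (if p.1.1 = d then MvPolynomial.monomial (mo p.1) (a p) else 0)) =
      if p.1.1 = d then C ((co a p.1.1 p.1.2 : ℤ) : ℚ) * X ^ p.1.2 else 0 := by
    intro p
    split_ifs with h3
    · rw [MvPolynomial.map_monomial, MvPolynomial.aeval_monomial,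
        Finsupp.prod_fintype _ _ (by intro i; exact pow_zero _),
        Fin.prod_univ_two, mo_zero, mo_one, co_of_mem a p.2]
      simp
    · simp
  rw [h1, map_sum, map_sum, sum_congr rfl fun p _ => h2 p,
    sum_I fun k i => if k = d then C ((co a k i : ℤ) : ℚ) * X ^ i else 0,
    sum_eq_single_of_mem d (mem_range.2 (Nat.lt_succ_self d))]
  · unfold pl
    rw [Polynomial.map_sum, ← Fin.sum_univ_eq_sum_range]
    refine sum_congr rfl fun i _ => ?_
    rw [if_pos rfl]
    simp [topRow]
  · intro k _ hk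
    apply sum_eq_zero
    intro i _
    rw [if_neg hk]

lemma irr_of_dehom {φ : MvPolynomial (Fin 2) ℚ} {d : ℕ} (hd : 1 ≤ d) (hφ : φ.IsHomogeneous d)
    (hirr : Irreducible (MvPolynomial.aeval ![(X : ℚ[X]), 1] φ))
    (hnd : (MvPolynomial.aeval ![(X : ℚ[X]), 1] φ).natDegree = d) : Irreducible φ := by
  have hφ0 : φ ≠ 0 := by
    rintro rfl
    rw [map_zero] at hirr
    exact not_irreducible_zero hirr
  have hdeg : φ.totalDegree = d := hφ.totalDegree hφ0
  have hle : ∀ P : MvPolynomial (Fin 2) ℚ,
      (MvPolynomial.aeval ![(X : ℚ[X]), 1] P).natDegree ≤ P.totalDegree := by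
    intro P
    have h2 := MvPolynomial.aeval_natDegree_le (m := P.totalDegree) (n := 1) P le_rfl
      (![(X : ℚ[X]), 1]) (by
        intro i
        fin_cases i <;> simp)
    rwa [mul_one] at h2
  constructor
  · intro hu
    have := Pool.Agent.H322R2.totalDegree_of_isUnit hu
    omega
  · intro A B hAB
    have hA0 : A ≠ 0 := by rintro rfl; rw [zero_mul] at hAB; exact hφ0 hAB
    have hB0 : B ≠ 0 := by rintro rfl; rw [mul_zero] at hAB; exact hφ0 hAB
    have h1 := MvPolynomial.totalDegree_mul_of_isDomain hA0 hB0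
    rw [← hAB, hdeg] at h1
    have h2 : MvPolynomial.aeval ![(X : ℚ[X]), 1] φ =
        MvPolynomial.aeval ![(X : ℚ[X]), 1] A * MvPolynomial.aeval ![(X : ℚ[X]), 1] B := by
      rw [hAB, map_mul]
    have h3 : MvPolynomial.aeval ![(X : ℚ[X]), 1] φ ≠ 0 := hirr.ne_zero
    have h4 : MvPolynomial.aeval ![(X : ℚ[X]), 1] A ≠ 0 := by
      intro h; rw [h, zero_mul] at h2; exact h3 h2
    have h5 : MvPolynomial.aeval ![(X : ℚ[X]), 1] B ≠ 0 := by
      intro h; rw [h, mul_zero] at h2; exact h3 h2
    have h6 := congrArg natDegree h2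
    rw [natDegree_mul h4 h5, hnd] at h6
    have h7 := hle A
    have h8 := hle B
    rcases hirr.isUnit_or_isUnit h2 with h | h
    · left
      apply Pool.Agent.H322R2.isUnit_of_totalDegree_zero hA0
      have := natDegree_eq_zero_of_isUnit h
      omega
    · right
      apply Pool.Agent.H322R2.isUnit_of_totalDegree_zero hB0
      have := natDegree_eq_zero_of_isUnit h
      omega

lemma irr_poly {d : ℕ} (hd : 1 ≤ d) {a : Cf d} (h : Lead a) :
    Irreducible (MvPolynomial.map (Int.castRingHom ℚ)
      (MvPolynomial.homogeneousComponent d (poly a))) := by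
  apply irr_of_dehom hd
  · exact (MvPolynomial.homogeneousComponent_isHomogeneous d (poly a)).map _
  · rw [dehom_poly]
    exact h.2
  · rw [dehom_poly]
    exact natDegree_map_pl h.1

end Pool.Agent.R414.DN
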