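import Pool.Agent.R414.DN.Box

set_option autoImplicit false
set_option linter.unusedSectionVars false

/-! Coefficient vectors of plane curves. `c k i` is the coefficient of `x ^ i * y ^ (k - i)`. -/

open Finset

namespace Pool.Agent.R414.DN

/-- the index set of the monomials of degree at most `d` -/
def I (d : ℕ) : Finset (ℕ × ℕ) := (range (d + 1) ×ˢ range (d + 1)).filter fun p => p.2 ≤ p.1

lemma mem_I {d : ℕ} {p : ℕ × ℕ} : p ∈ I d ↔ p.1 ≤ d ∧ p.2 ≤ p.1 := by
  unfold I
  rw [mem_filter, mem_product, mem_range, mem_range]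
  omega

/-- the number of monomials of degree at most `d` -/
def MM (d : ℕ) : ℕ := Fintype.card ↥(I d)

lemma card_I (d : ℕ) : (I d).card * 2 = (d + 1) * (d + 2) := by
  have h1 : I d = (range (d + 1)).biUnion fun k => (range (k + 1)).image fun i => (k, i) := by
    ext ⟨k, i⟩
    simp only [mem_I, mem_biUnion, mem_range, mem_image, Prod.mk.injEq]
    constructor
    · rintro ⟨h1, h2⟩
      exact ⟨k, by omega, i, by omega, rfl, rfl⟩
    · rintro ⟨k', h1, i', h2, rfl, rfl⟩
      omega
  have h2 : (I d).card = ∑ k ∈ range (d + 1), (k + 1) := by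
    rw [h1, card_biUnion]
    · refine sum_congr rfl fun k _ => ?_
      rw [card_image_of_injective _ (fun i i' h => (Prod.mk.inj h).2), card_range]
    · intro k _ k' _ hne
      rw [Function.onFun, disjoint_left]
      rintro ⟨a, b⟩ h h'
      simp only [mem_image, Prod.mk.injEq] at h h'
      obtain ⟨_, _, h3, _⟩ := h
      obtain ⟨_, _, h4, _⟩ := h'
      exact hne (h3.trans h4.symm)
  rw [h2, sum_add_distrib, sum_const, card_range, smul_eq_mul, mul_one, add_mul,
    Finset.sum_range_id_mul_two]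
  simp only [Nat.add_sub_cancel]
  ring

lemma MM_eq (d : ℕ) : MM d = (d + 1) * (d + 2) / 2 := by
  have h := card_I d
  unfold MM
  rw [Fintype.card_coe]
  omega

/-- coefficient vectors -/
abbrev Cf (d : ℕ) : Type := ↥(I d) → ℤ

/-- the coefficients as a function on pairs of natural numbers -/
def co {d : ℕ} (a : Cf d) (k i : ℕ) : ℤ := if h : (k, i) ∈ I d then a ⟨(k, i), h⟩ else 0

lemma co_of_mem {d : ℕ} (a : Cf d) {k i : ℕ} (h : (k, i) ∈ I d) : co a k i = a ⟨(k, i), h⟩ :=
  dif_pos h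

lemma co_le {d H : ℕ} {a : Cf d} (ha : a ∈ ibox ↥(I d) H) (k i : ℕ) : |co a k i| ≤ H := by
  unfold co
  split_ifs with h
  · exact mem_ibox.1 ha _
  · simp

/-- the value of the polynomial at `(x, y)` -/
def Fv (c : ℕ → ℕ → ℤ) (d : ℕ) (x y : ℤ) : ℤ :=
  ∑ k ∈ range (d + 1), ∑ i ∈ range (k + 1), c k i * (x ^ i * y ^ (k - i))

/-- exchange of `x` and `y` -/
def sw (c : ℕ → ℕ → ℤ) (k i : ℕ) : ℤ := c k (k - i)

lemma Fv_sw (c : ℕ → ℕ → ℤ) (d : ℕ) (x y : ℤ) : Fv (sw c) d y x = Fv c d x y := by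
  unfold Fv
  refine sum_congr rfl fun k _ => ?_
  rw [← sum_range_reflect]
  refine sum_congr rfl fun i hi => ?_
  rw [mem_range] at hi
  unfold sw
  have h1 : k + 1 - 1 - i = k - i := by omega
  have h2 : k - (k - i) = i := by omega
  rw [h1, h2, mul_comm (y ^ _)]

/-- exchange of `x` and `y` on coefficient vectors -/
def swE (d : ℕ) : ↥(I d) ≃ ↥(I d) where
  toFun p := ⟨(p.1.1, p.1.1 - p.1.2), by
    have := mem_I.1 p.2
    rw [mem_I]
    exact ⟨this.1, Nat.sub_le _ _⟩⟩
  invFun p := ⟨(p.1.1, p.1.1 - p.1.2), by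
    have := mem_I.1 p.2
    rw [mem_I]
    exact ⟨this.1, Nat.sub_le _ _⟩⟩
  left_inv p := by
    have := mem_I.1 p.2
    apply Subtype.ext
    apply Prod.ext
    · rfl
    · exact Nat.sub_sub_self this.2
  right_inv p := by
    have := mem_I.1 p.2
    apply Subtype.ext
    apply Prod.ext
    · rfl
    · exact Nat.sub_sub_self this.2

lemma co_sw {d : ℕ} (a : Cf d) {k i : ℕ} (h : (k, i) ∈ I d) :
    co (fun p => a (swE d p)) k i = sw (co a) k i := by
  rw [co_of_mem _ h]
  unfold sw
  rw [co_of_mem _ (by rw [mem_I] at h ⊢; exact ⟨h.1, Nat.sub_le _ _⟩)]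
  rfl

lemma Fv_congr {c c' : ℕ → ℕ → ℤ} {d : ℕ} (h : ∀ k i, (k, i) ∈ I d → c k i = c' k i) (x y : ℤ) :
    Fv c d x y = Fv c' d x y := by
  unfold Fv
  refine sum_congr rfl fun k hk => sum_congr rfl fun i hi => ?_
  rw [mem_range] at hk hi
  rw [h k i (by rw [mem_I]; omega)]

/-- the index of the pure power `y ^ k` -/
def ip (d k : ℕ) (h : k ≤ d) : ↥(I d) := ⟨(k, 0), by rw [mem_I]; exact ⟨h, Nat.zero_le _⟩⟩

/-- the indices of the powers of `y` -/
def JJ (d : ℕ) : Finset ↥(I d) := univ.filter fun p => p.1.2 = 0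

lemma card_JJ (d : ℕ) : (JJ d).card = d + 1 := by
  rw [← card_range (d + 1)]
  refine card_bij' (fun p _ => p.1.1) (fun k hk => ip d k (by rw [mem_range] at hk; omega)) ?_ ?_
    ?_ ?_
  · intro p _
    have := mem_I.1 p.2
    rw [mem_range]
    omega
  · intro k hk
    unfold JJ
    rw [mem_filter]
    exact ⟨mem_univ _, rfl⟩
  · intro p hp
    unfold JJ at hp
    rw [mem_filter] at hp
    apply Subtype.ext
    apply Prod.ext
    · rfl
    · exact hp.2.symm
  · intro k hk
    rfl

lemma card_zero_at_y (d H : ℕ) (x y : ℤ) (hy : y ≠ 0) :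
    ((ibox ↥(I d) H).filter fun a => Fv (co a) d x y = 0).card ≤
      (2 * H / y.natAbs + 1) ^ d * (2 * H + 1) ^ (MM d - (d + 1)) := by
  classical
  have h := card_fiber (H := H) (S := (ibox ↥(I d) H).filter fun a => Fv (co a) d x y = 0)
    (filter_subset _ _) (JJ d) ((2 * H / y.natAbs + 1) ^ d) ?_
  · rw [card_JJ] at h
    exact h
  intro b T hT hTb
  rcases T.eq_empty_or_nonempty with h0 | ⟨a₀, h0⟩
  · rw [h0, card_empty]
    exact Nat.zero_le _
  have hT0 := mem_filter.1 (hT h0)
  refine le_trans ?_ (card_digits H y hy d (∑ j : Fin (d + 1), co a₀ j 0 * y ^ (j : ℕ)))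
  apply card_le_card_of_injOn (fun a (j : Fin (d + 1)) => co a j 0)
  · intro a ha
    rw [mem_coe] at ha
    have ha1 := mem_filter.1 (hT ha)
    rw [mem_coe, mem_filter, mem_ibox]
    refine ⟨fun i => co_le ha1.1 _ _, ?_⟩
    have h1 : Fv (co a) d x y - Fv (co a₀) d x y =
        ∑ k ∈ range (d + 1), (co a k 0 * y ^ k - co a₀ k 0 * y ^ k) := by
      unfold Fv
      rw [← sum_sub_distrib]
      refine sum_congr rfl fun k hk => ?_
      rw [← sum_sub_distrib, sum_eq_single_of_mem 0 (mem_range.2 (Nat.succ_pos k))]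
      · simp
      · intro i hi hi0
        rw [mem_range] at hk hi
        have hmem : (k, i) ∈ I d := by rw [mem_I]; omega
        have hnJ : (⟨(k, i), hmem⟩ : ↥(I d)) ∉ JJ d := by
          unfold JJ
          rw [mem_filter]
          rintro ⟨-, h⟩
          exact hi0 h
        rw [co_of_mem a hmem, co_of_mem a₀ hmem, hTb a ha _ hnJ, hTb a₀ h0 _ hnJ, sub_self]
    rw [ha1.2, hT0.2, sub_zero, sum_sub_distrib] at h1
    rw [Fin.sum_univ_eq_sum_range (fun k => co a k 0 * y ^ k),
      Fin.sum_univ_eq_sum_range (fun k => co a₀ k 0 * y ^ k)]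
    linarith
  · intro a ha a' ha' haa
    rw [mem_coe] at ha ha'
    ext p
    by_cases hp : p ∈ JJ d
    · have hpI := mem_I.1 p.2
      have h2 := congrFun haa ⟨p.1.1, by omega⟩
      simp only at h2
      unfold JJ at hp
      rw [mem_filter] at hp
      have h3 : p = ip d p.1.1 hpI.1 := by
        apply Subtype.ext
        apply Prod.ext
        · rfl
        · exact hp.2
      rw [co_of_mem a (ip d p.1.1 hpI.1).2, co_of_mem a' (ip d p.1.1 hpI.1).2] at h2
      rw [h3]
      exact h2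
    · rw [hTb a ha p hp, hTb a' ha' p hp]

/-- the box is invariant under the exchange -/
lemma card_filter_sw (d H : ℕ) (P : (ℕ → ℕ → ℤ) → Prop) [DecidablePred fun a : Cf d => P (co a)]
    [DecidablePred fun a : Cf d => P (co (fun p => a (swE d p)))] :
    ((ibox ↥(I d) H).filter fun a => P (co (fun p => a (swE d p)))).card =
      ((ibox ↥(I d) H).filter fun a => P (co a)).card := by
  refine card_bij' (fun a _ p => a (swE d p)) (fun a _ p => a ((swE d).symm p)) ?_ ?_ ?_ ?_
  · intro a ha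
    rw [mem_filter, mem_ibox] at ha ⊢
    exact ⟨fun i => ha.1 _, ha.2⟩
  · intro a ha
    rw [mem_filter, mem_ibox] at ha ⊢
    refine ⟨fun i => ha.1 _, ?_⟩
    have : (fun p => (fun p => a ((swE d).symm p)) (swE d p)) = a := by
      funext p
      simp
    rw [this]
    exact ha.2
  · intro a _
    funext p
    simp
  · intro a _
    funext p
    simp

lemma card_zero_at_x (d H : ℕ) (x y : ℤ) (hx : x ≠ 0) :
    ((ibox ↥(I d) H).filter fun a => Fv (co a) d x y = 0).card ≤
      (2 * H / x.natAbs + 1) ^ d * (2 * H + 1) ^ (MM d - (d + 1)) := by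
  classical
  rw [← card_filter_sw d H (fun c => Fv c d x y = 0)]
  refine le_trans (card_le_card ?_) (card_zero_at_y d H y x hx)
  intro a ha
  rw [mem_filter] at ha ⊢
  refine ⟨ha.1, ?_⟩
  rw [← Fv_sw] at ha
  rw [← Fv_congr (fun k i h => co_sw (fun p => a (swE d p)) h)] at ha
  have : (fun p => (fun p => a (swE d p)) (swE d p)) = a := by
    funext p
    have h1 : swE d (swE d p) = p := (swE d).left_inv p
    show a (swE d (swE d p)) = a p
    rw [h1]
  rw [this] at ha
  exact ha.2

end Pool.Agent.R414.DN
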