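import Pool.Agent.R414.DN.Poly

set_option autoImplicit false
set_option linter.unusedSectionVars false

/-! Taylor expansion of the homogeneous parts. -/

open Finset

namespace Pool.Agent.R414.DN

/-- the Taylor coefficients of `f_k (X, 1)` -/
noncomputable def TT (c : ℕ → ℕ → ℤ) (k i : ℕ) (t : ℝ) : ℝ :=
  ∑ j ∈ range (k + 1), ((j.choose i : ℕ) : ℝ) * (c k j : ℝ) * t ^ (j - i)

lemma TT_of_lt (c : ℕ → ℕ → ℤ) {k i : ℕ} (h : k < i) (t : ℝ) : TT c k i t = 0 := by
  unfold TT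
  apply sum_eq_zero
  intro j hj
  rw [mem_range] at hj
  rw [Nat.choose_eq_zero_of_lt (by omega), Nat.cast_zero, zero_mul, zero_mul]

lemma TT_zero (c : ℕ → ℕ → ℤ) (k : ℕ) (t : ℝ) :
    TT c k 0 t = ∑ j ∈ range (k + 1), (c k j : ℝ) * t ^ j := by
  unfold TT
  refine sum_congr rfl fun j _ => ?_
  simp

lemma TT_taylor (c : ℕ → ℕ → ℤ) {k n : ℕ} (hn : k ≤ n) (t h : ℝ) :
    TT c k 0 (t + h) = ∑ i ∈ range (n + 1), TT c k i t * h ^ i := by
  rw [TT_zero]
  unfold TT
  simp_rw [sum_mul]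
  rw [sum_comm]
  refine sum_congr rfl fun j hj => ?_
  rw [mem_range] at hj
  rw [add_comm t h, add_pow, mul_sum]
  rw [← sum_subset (range_subset_range.2 (by omega : j + 1 ≤ n + 1))
    (f := fun i => ((j.choose i : ℕ) : ℝ) * (c k j : ℝ) * t ^ (j - i) * h ^ i)]
  · refine sum_congr rfl fun i _ => ?_
    ring
  · intro i _ hi
    rw [mem_range] at hi
    rw [Nat.choose_eq_zero_of_lt (by omega), Nat.cast_zero]
    ring

/-- the constant in the bounds of the Taylor coefficients -/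
noncomputable def c1 (d : ℕ) : ℝ := (d + 1) * 4 ^ d

lemma c1_pos (d : ℕ) : 1 ≤ c1 d := by
  unfold c1
  have h1 : (1 : ℝ) ≤ (d : ℝ) + 1 := by linarith [(Nat.cast_nonneg d : (0 : ℝ) ≤ d)]
  have h2 : (1 : ℝ) ≤ 4 ^ d := one_le_pow₀ (by norm_num)
  nlinarith

lemma TT_le {c : ℕ → ℕ → ℤ} {H : ℝ} (hc : ∀ k i, |(c k i : ℝ)| ≤ H) {d k : ℕ} (hk : k ≤ d)
    (i : ℕ) {t : ℝ} (ht : |t| ≤ 2) : |TT c k i t| ≤ c1 d * H := by
  have hH : 0 ≤ H := (abs_nonneg _).trans (hc 0 0)
  unfold TT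
  calc |∑ j ∈ range (k + 1), ((j.choose i : ℕ) : ℝ) * (c k j : ℝ) * t ^ (j - i)|
      ≤ ∑ j ∈ range (k + 1), |((j.choose i : ℕ) : ℝ) * (c k j : ℝ) * t ^ (j - i)| :=
        abs_sum_le_sum_abs _ _
    _ ≤ ∑ _j ∈ range (k + 1), 2 ^ d * H * 2 ^ d := by
        apply sum_le_sum
        intro j hj
        rw [mem_range] at hj
        rw [abs_mul, abs_mul, abs_pow, Nat.abs_cast]
        have h1 : ((j.choose i : ℕ) : ℝ) ≤ 2 ^ d := by
          have := (Nat.choose_le_two_pow j i).trans (Nat.pow_le_pow_right two_pos (by omega : j ≤ d))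
          exact_mod_cast this
        have h2 : |t| ^ (j - i) ≤ 2 ^ d := by
          calc |t| ^ (j - i) ≤ (2 : ℝ) ^ (j - i) := by gcongr
            _ ≤ 2 ^ d := by
              apply pow_le_pow_right₀ (by norm_num)
              omega
        gcongr
        exact hc k j
    _ = (k + 1) * (2 ^ d * H * 2 ^ d) := by
        rw [sum_const, card_range, nsmul_eq_mul]
        push_cast
        ring
    _ ≤ (d + 1) * (2 ^ d * H * 2 ^ d) := by
        have : (k : ℝ) ≤ d := by exact_mod_cast hk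
        gcongr
    _ = c1 d * H := by
        unfold c1
        have : (4 : ℝ) ^ d = 2 ^ d * 2 ^ d := by rw [← mul_pow]; norm_num
        rw [this]
        ring

lemma pow_lip {t t' : ℝ} (ht : |t| ≤ 2) (ht' : |t'| ≤ 2) (n : ℕ) :
    |t ^ n - t' ^ n| ≤ n * 2 ^ n * |t - t'| := by
  induction n with
  | zero => simp
  | succ n ih =>
    have h1 : t ^ (n + 1) - t' ^ (n + 1) = t * (t ^ n - t' ^ n) + (t - t') * t' ^ n := by ring
    rw [h1]
    have h2 : |t' ^ n| ≤ 2 ^ n := by rw [abs_pow]; gcongr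
    calc |t * (t ^ n - t' ^ n) + (t - t') * t' ^ n|
        ≤ |t| * |t ^ n - t' ^ n| + |t - t'| * |t' ^ n| := by
          rw [← abs_mul, ← abs_mul]; exact abs_add_le _ _
      _ ≤ 2 * (n * 2 ^ n * |t - t'|) + |t - t'| * 2 ^ n := by gcongr
      _ ≤ _ := by
          push_cast
          rw [pow_succ]
          have : 0 ≤ (2 : ℝ) ^ n * |t - t'| := by positivity
          nlinarith

lemma TT_lip {c : ℕ → ℕ → ℤ} {H : ℝ} (hc : ∀ k i, |(c k i : ℝ)| ≤ H) {d k : ℕ} (hk : k ≤ d)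
    (i : ℕ) {t t' : ℝ} (ht : |t| ≤ 2) (ht' : |t'| ≤ 2) :
    |TT c k i t - TT c k i t'| ≤ d * c1 d * H * |t - t'| := by
  have hH : 0 ≤ H := (abs_nonneg _).trans (hc 0 0)
  unfold TT
  rw [← sum_sub_distrib]
  calc |∑ j ∈ range (k + 1), (((j.choose i : ℕ) : ℝ) * (c k j : ℝ) * t ^ (j - i) -
          ((j.choose i : ℕ) : ℝ) * (c k j : ℝ) * t' ^ (j - i))|
      ≤ ∑ j ∈ range (k + 1), |((j.choose i : ℕ) : ℝ) * (c k j : ℝ) * t ^ (j - i) -
          ((j.choose i : ℕ) : ℝ) * (c k j : ℝ) * t' ^ (j - i)| :=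
        abs_sum_le_sum_abs _ _
    _ ≤ ∑ _j ∈ range (k + 1), 2 ^ d * H * (d * 2 ^ d * |t - t'|) := by
        apply sum_le_sum
        intro j hj
        rw [mem_range] at hj
        rw [← mul_sub, abs_mul, abs_mul, Nat.abs_cast]
        have h1 : ((j.choose i : ℕ) : ℝ) ≤ 2 ^ d := by
          have := (Nat.choose_le_two_pow j i).trans (Nat.pow_le_pow_right two_pos (by omega : j ≤ d))
          exact_mod_cast this
        have h2 : |t ^ (j - i) - t' ^ (j - i)| ≤ d * 2 ^ d * |t - t'| := by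
          refine (pow_lip ht ht' (j - i)).trans ?_
          have h3 : ((j - i : ℕ) : ℝ) ≤ d := by
            have : j - i ≤ d := by omega
            exact_mod_cast this
          have h4 : (2 : ℝ) ^ (j - i) ≤ 2 ^ d := pow_le_pow_right₀ (by norm_num) (by omega)
          gcongr
        gcongr
        exact hc k j
    _ = (k + 1) * (2 ^ d * H * (d * 2 ^ d * |t - t'|)) := by
        rw [sum_const, card_range, nsmul_eq_mul]
        push_cast
        ring
    _ ≤ (d + 1) * (2 ^ d * H * (d * 2 ^ d * |t - t'|)) := by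
        have : (k : ℝ) ≤ d := by exact_mod_cast hk
        gcongr
    _ = d * c1 d * H * |t - t'| := by
        unfold c1
        have : (4 : ℝ) ^ d = 2 ^ d * 2 ^ d := by rw [← mul_pow]; norm_num
        rw [this]
        ring

lemma TT_cont (c : ℕ → ℕ → ℤ) (k i : ℕ) : Continuous (TT c k i) := by
  unfold TT
  exact continuous_finsetSum _ fun j _ => by fun_prop

/-- the value in terms of the homogeneous parts -/
lemma Fv_eq (c : ℕ → ℕ → ℤ) (d : ℕ) (x y : ℤ) (hy : y ≠ 0) :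
    (Fv c d x y : ℝ) = ∑ k ∈ range (d + 1), (y : ℝ) ^ k * TT c k 0 ((x : ℝ) / y) := by
  have hy' : (y : ℝ) ≠ 0 := by exact_mod_cast hy
  unfold Fv
  push_cast
  refine sum_congr rfl fun k _ => ?_
  rw [TT_zero, mul_sum]
  refine sum_congr rfl fun i hi => ?_
  rw [mem_range] at hi
  have : (y : ℝ) ^ k = (y : ℝ) ^ i * (y : ℝ) ^ (k - i) := by
    rw [← pow_add]
    congr 1
    omega
  rw [this, div_pow]
  field_simp

/-- expansion at an asymptote -/
lemma Fv_expand (c : ℕ → ℕ → ℤ) (d : ℕ) (x y : ℤ) (hy : y ≠ 0) (α u : ℝ)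
    (hx : (x : ℝ) = α * y + u) :
    (Fv c d x y : ℝ) = (y : ℝ) ^ d * ∑ p ∈ range (d + 1) ×ˢ range (d + 1),
      TT c (d - p.1) p.2 α * u ^ p.2 * (1 / (y : ℝ)) ^ (p.1 + p.2) := by
  have hy' : (y : ℝ) ≠ 0 := by exact_mod_cast hy
  rw [Fv_eq c d x y hy, ← sum_range_reflect, mul_sum, sum_product]
  refine sum_congr rfl fun m hm => ?_
  rw [mem_range] at hm
  have h1 : d + 1 - 1 - m = d - m := by omega
  have h2 : (x : ℝ) / y = α + u * (1 / y) := by
    rw [hx]
    field_simp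
  have h3 : (y : ℝ) ^ d = (y : ℝ) ^ (d - m) * (y : ℝ) ^ m := by
    rw [← pow_add]
    congr 1
    omega
  rw [h1, h2, TT_taylor c (Nat.sub_le d m), mul_sum]
  refine sum_congr rfl fun i _ => ?_
  rw [h3, mul_pow, pow_add, one_div, inv_pow, inv_pow]
  field_simp

end Pool.Agent.R414.DN
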