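import Pool.Agent.R414.DN.Br

set_option autoImplicit false
set_option linter.unusedSectionVars false

/-! Few integer points in the middle range for given leading forms. -/

open Finset

namespace Pool.Agent.R414.DN

/-- the four leading rows agree -/
def TopEq (d : ℕ) (c c' : ℕ → ℕ → ℤ) : Prop := ∀ k i, d ≤ k + 3 → c k i = c' k i

lemma TT_top {d : ℕ} {c c' : ℕ → ℕ → ℤ} (h : TopEq d c c') {k : ℕ} (hk : d ≤ k + 3) (i : ℕ)
    (t : ℝ) : TT c k i t = TT c' k i t := by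
  unfold TT
  refine sum_congr rfl fun j _ => ?_
  rw [h k j hk]

lemma bet_top {d : ℕ} {c c' : ℕ → ℕ → ℤ} (h : TopEq d c c') (α : ℝ) : bet c d α = bet c' d α := by
  unfold bet
  rw [TT_top h (by omega), TT_top h (by omega)]

lemma gam_top {d : ℕ} {c c' : ℕ → ℕ → ℤ} (h : TopEq d c c') (α : ℝ) : gam c d α = gam c' d α := by
  unfold gam
  rw [TT_top h (by omega), TT_top h (by omega), TT_top h (by omega), TT_top h (by omega),
    bet_top h]

lemma del_top {d : ℕ} {c c' : ℕ → ℕ → ℤ} (h : TopEq d c c') (α : ℝ) : del c d α = del c' d α := by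
  unfold del
  rw [TT_top h (by omega), TT_top h (by omega), TT_top h (by omega), TT_top h (by omega),
    TT_top h (by omega), TT_top h (by omega), TT_top h (by omega), bet_top h, gam_top h]

/-- the leading form has no rational zero with positive second coordinate -/
def NoRoot (c : ℕ → ℕ → ℤ) (d : ℕ) : Prop :=
  ∀ p q : ℤ, 0 < q → ∑ i ∈ range (d + 1), c d i * (p ^ i * q ^ (d - i)) ≠ 0

lemma form_zero {c : ℕ → ℕ → ℤ} {d : ℕ} {H : ℝ} (hc : ∀ k i, |(c k i : ℝ)| ≤ H) {p q : ℤ}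
    (hq : 0 < q) {α ε : ℝ} (hα : |α| ≤ 2) (hroot : TT c d 0 α = 0)
    (hpq : |(p : ℝ) - α * q| ≤ ε) (hε : ε ≤ 1) (hlt : (q : ℝ) ^ d * (d * c1 d * H * ε) < 1) :
    ∑ i ∈ range (d + 1), c d i * (p ^ i * q ^ (d - i)) = 0 := by
  have hH : 0 ≤ H := (abs_nonneg _).trans (hc 0 0)
  have hq0 : (0 : ℝ) < q := by exact_mod_cast hq
  have hq1 : (1 : ℝ) ≤ q := by exact_mod_cast hq
  have h1 : ((∑ i ∈ range (d + 1), c d i * (p ^ i * q ^ (d - i)) : ℤ) : ℝ) =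
      (q : ℝ) ^ d * TT c d 0 ((p : ℝ) / q) := by
    rw [TT_zero, mul_sum]
    push_cast
    refine sum_congr rfl fun i hi => ?_
    rw [mem_range] at hi
    have : (q : ℝ) ^ d = (q : ℝ) ^ i * (q : ℝ) ^ (d - i) := by
      rw [← pow_add]
      congr 1
      omega
    rw [this, div_pow]
    field_simp
  set h : ℝ := ((p : ℝ) - α * q) / q with hh
  have hh1 : |h| ≤ ε := by
    rw [hh, abs_div, abs_of_pos hq0, div_le_iff₀ hq0]
    have h0 : 0 ≤ ε := (abs_nonneg _).trans hpq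
    nlinarith
  have h2 : (p : ℝ) / q = α + h := by
    rw [hh]; field_simp; ring
  have h3 : |TT c d 0 ((p : ℝ) / q)| ≤ d * c1 d * H * ε := by
    rw [h2, TT_taylor c (le_refl d) α h, sum_range_succ', hroot, zero_mul, add_zero]
    have hε0 : 0 ≤ ε := (abs_nonneg _).trans hh1
    calc |∑ k ∈ range d, TT c d (k + 1) α * h ^ (k + 1)|
        ≤ ∑ k ∈ range d, |TT c d (k + 1) α * h ^ (k + 1)| := abs_sum_le_sum_abs _ _
      _ ≤ ∑ _k ∈ range d, (c1 d * H) * ε := by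
          apply sum_le_sum
          intro k _
          rw [abs_mul, abs_pow]
          have h5 := TT_le hc (le_refl d) (k + 1) hα
          have h6 : |h| ^ (k + 1) ≤ ε := by
            calc |h| ^ (k + 1) ≤ |h| ^ 1 := pow_le_pow_of_le_one (abs_nonneg _) (by linarith) (by omega)
              _ ≤ ε := by rw [pow_one]; exact hh1
          have h7 : 0 ≤ c1 d * H := mul_nonneg (by linarith [c1_pos d]) hH
          gcongr
      _ = _ := by
          rw [sum_const, card_range, nsmul_eq_mul]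
          ring
  have h4 : |((∑ i ∈ range (d + 1), c d i * (p ^ i * q ^ (d - i)) : ℤ) : ℝ)| < 1 := by
    rw [h1, abs_mul, abs_pow, abs_of_pos hq0]
    refine lt_of_le_of_lt ?_ hlt
    gcongr
  rw [← Int.cast_abs] at h4
  have h5 : |∑ i ∈ range (d + 1), c d i * (p ^ i * q ^ (d - i))| < 1 := by exact_mod_cast h4
  exact Int.abs_lt_one_iff.1 h5

/-- bound for the denominators -/
noncomputable def QQ (d : ℕ) (w : ℝ) : ℝ := 12800 * KK d w ^ 9 * (c1 d * w ^ 6)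

/-- lower limit of the middle range (over `H`) -/
noncomputable def Th (d : ℕ) (w : ℝ) : ℝ := QQ d w ^ d * (d * c1 d * (432 * KK d w ^ 9))

section

variable {d : ℕ} {w H Y : ℝ} (hd : 4 ≤ d) (hw : 1 ≤ w) (hH : 1 ≤ H) (hY : H * Th d w < Y)

include hd hw hH hY

lemma QQ_ge : 12800 * KK d w ^ 9 ≤ QQ d w := by
  unfold QQ
  have h1 := c1_pos d
  have h2 := KK_one (by omega : 1 ≤ d) hw
  have h3 : 1 ≤ w ^ 6 := one_le_pow₀ hw
  calc 12800 * KK d w ^ 9 = 12800 * KK d w ^ 9 * (1 * 1) := by ring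
    _ ≤ _ := by gcongr

lemma Th_le : Th d w < Y := by
  refine lt_of_le_of_lt ?_ hY
  have h1 := c1_pos d
  have h2 := KK_one (by omega : 1 ≤ d) hw
  have h3 : 0 ≤ Th d w := by unfold Th QQ; positivity
  nlinarith

lemma big1 : 4 * d ^ 2 * c1 d ^ 2 * w ^ 2 ≤ Y := by
  refine le_trans ?_ (Th_le hd hw hH hY).le
  have h1 := c1_pos d
  have hd1 : (1 : ℝ) ≤ d := by exact_mod_cast (by omega : 1 ≤ d)
  have h2 := KK_one (by omega : 1 ≤ d) hw
  have h4 : WW d w ≤ KK d w := (KK_ge (by omega) hw).1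
  have h5 : 4 * d ^ 2 * c1 d ^ 2 * w ^ 2 = WW d w ^ 2 := by unfold WW; ring
  rw [h5]
  have h6 : 1 ≤ QQ d w := by
    refine le_trans ?_ (QQ_ge hd hw hH hY)
    have : 1 ≤ KK d w ^ 9 := one_le_pow₀ h2
    linarith
  have h7 : 1 ≤ QQ d w ^ d := one_le_pow₀ h6
  have h8 := WW_ge (by omega : 1 ≤ d) hw
  unfold Th
  calc WW d w ^ 2 ≤ KK d w ^ 2 := by gcongr
    _ ≤ KK d w ^ 9 := pow_le_pow_right₀ h2 (by norm_num)
    _ = 1 * (1 * 1 * (1 * KK d w ^ 9)) := by ring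
    _ ≤ _ := by gcongr; norm_num

lemma big2 : 156 * KK d w ^ 4 ≤ Y := by
  refine le_trans ?_ (Th_le hd hw hH hY).le
  have h1 := c1_pos d
  have hd1 : (1 : ℝ) ≤ d := by exact_mod_cast (by omega : 1 ≤ d)
  have h2 := KK_one (by omega : 1 ≤ d) hw
  have h6 : 1 ≤ QQ d w := by
    refine le_trans ?_ (QQ_ge hd hw hH hY)
    have : 1 ≤ KK d w ^ 9 := one_le_pow₀ h2
    linarith
  have h7 : 1 ≤ QQ d w ^ d := one_le_pow₀ h6
  unfold Th
  calc 156 * KK d w ^ 4 ≤ 156 * KK d w ^ 9 := by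
        gcongr
        norm_num
    _ = 1 * (1 * 1 * (156 * KK d w ^ 9)) := by ring
    _ ≤ _ := by gcongr; norm_num

lemma big3 : 312 * KK d w ^ 5 ≤ 1 / (c1 d * w ^ 6) * Y := by
  have h1 := c1_pos d
  have hd1 : (1 : ℝ) ≤ d := by exact_mod_cast (by omega : 1 ≤ d)
  have h2 := KK_one (by omega : 1 ≤ d) hw
  rw [one_div, inv_mul_eq_div, le_div_iff₀ (by positivity)]
  refine le_trans ?_ (Th_le hd hw hH hY).le
  have h6 : 1 ≤ QQ d w := by
    refine le_trans ?_ (QQ_ge hd hw hH hY)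
    have : 1 ≤ KK d w ^ 9 := one_le_pow₀ h2
    linarith
  have h7 : QQ d w ≤ QQ d w ^ d := le_self_pow₀ h6 (by omega)
  have h8 : 1 ≤ KK d w ^ 9 := one_le_pow₀ h2
  unfold Th
  calc 312 * KK d w ^ 5 * (c1 d * w ^ 6) ≤ 12800 * KK d w ^ 9 * (c1 d * w ^ 6) := by
        gcongr <;> norm_num
    _ = QQ d w * (1 * 1 * (1 * 1)) := by unfold QQ; ring
    _ ≤ QQ d w ^ d * (d * c1 d * (432 * KK d w ^ 9)) := by gcongr; norm_num

end

/-- **No three points in a window.** -/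
lemma no_three {d : ℕ} {w H Y : ℝ} (hd : 4 ≤ d) (hw : 1 ≤ w) (hH : 1 ≤ H) (hY : H * Th d w < Y)
    {c : ℕ → ℕ → ℤ} (hc : ∀ k i, |(c k i : ℝ)| ≤ H) (hG2 : G2 c d (WW d w) (H / w ^ 6))
    (hNR : NoRoot c d) {α : ℝ} (hα : |α| ≤ 2) (hroot : TT c d 0 α = 0)
    (hD : H / (2 * w) ≤ |TT c d 1 α|) {x1 x2 x3 y1 y2 y3 : ℤ} (h12 : y1 < y2) (h23 : y2 < y3)
    (hY1 : Y ≤ |(y1 : ℝ)| ∧ |(y1 : ℝ)| ≤ 2 * Y) (hY2 : Y ≤ |(y2 : ℝ)| ∧ |(y2 : ℝ)| ≤ 2 * Y)
    (hY3 : Y ≤ |(y3 : ℝ)| ∧ |(y3 : ℝ)| ≤ 2 * Y)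
    (hL : ((y3 : ℝ) - y1) * (2 * KK d w) ≤ Y)
    (hx1 : |(x1 : ℝ) - (α * y1 + bet c d α + gam c d α / y1 + del c d α / (y1 : ℝ) ^ 2)| ≤
      200 * KK d w ^ 9 / |(y1 : ℝ)| ^ 3)
    (hx2 : |(x2 : ℝ) - (α * y2 + bet c d α + gam c d α / y2 + del c d α / (y2 : ℝ) ^ 2)| ≤
      200 * KK d w ^ 9 / |(y2 : ℝ)| ^ 3)
    (hx3 : |(x3 : ℝ) - (α * y3 + bet c d α + gam c d α / y3 + del c d α / (y3 : ℝ) ^ 2)| ≤
      200 * KK d w ^ 9 / |(y3 : ℝ)| ^ 3) : False := by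
  have hd1 : 1 ≤ d := by omega
  have h1 := c1_pos d
  have hdr : (1 : ℝ) ≤ d := by exact_mod_cast hd1
  have hK := KK_one hd1 hw
  have hK0 : 0 < KK d w := by linarith
  have hY0 : 0 < Y := lt_of_lt_of_le (by positivity) (big2 hd hw hH hY)
  have hκ : 0 < 1 / (c1 d * w ^ 6) := by positivity
  have hκγ : 1 / (c1 d * w ^ 6) ≤ |gam c d α| := by
    have := gam_ge hc hH hw hd1 (by positivity : 0 < H / w ^ 6) hα hroot hD hG2
    refine le_trans (le_of_eq ?_) this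
    field_simp
  have hE : ∀ z : ℤ, Y ≤ |(z : ℝ)| → 200 * KK d w ^ 9 / |(z : ℝ)| ^ 3 ≤ 200 * KK d w ^ 9 / Y ^ 3 := by
    intro z hz
    gcongr
  have key := three_points hK (gam_le hc hH hw hd1 hα hD) (del_le hc hH hw hd1 hα hD) hκ hκγ h12 h23
    hY1 hY2 hY3 hL (big2 hd hw hH hY) (big3 hd hw hH hY) (hx1.trans (hE y1 hY1.1))
    (hx2.trans (hE y2 hY2.1)) (hx3.trans (hE y3 hY3.1)) (α := α) (β := bet c d α)
    (x1 := x1) (x2 := x2) (x3 := x3) (by ring) (by ring) (by ring)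
  obtain ⟨hq, hp⟩ := key
  have hqQ : ((y2 : ℝ) - y1) ≤ QQ d w := by
    unfold QQ
    have : (y2 : ℝ) - y1 = (1 / (c1 d * w ^ 6) * ((y2 : ℝ) - y1)) * (c1 d * w ^ 6) := by field_simp
    rw [this]
    gcongr
  have hq0 : 0 < y2 - y1 := by omega
  have hq0r : (0 : ℝ) < (y2 : ℝ) - y1 := by exact_mod_cast hq0
  have hlt : H * Th d w / Y < 1 := by rw [div_lt_one hY0]; exact hY
  have hQ1 : 1 ≤ QQ d w := by
    refine le_trans ?_ (QQ_ge hd hw hH hY)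
    have : 1 ≤ KK d w ^ 9 := one_le_pow₀ hK
    linarith
  have hQd : 1 ≤ QQ d w ^ d := one_le_pow₀ hQ1
  apply hNR (x2 - x1) (y2 - y1) hq0
  apply form_zero hc hq0 hα hroot (ε := 432 * KK d w ^ 9 / Y)
  · push_cast
    exact hp
  · refine le_trans (div_le_div_of_nonneg_right ?_ hY0.le) hlt.le
    unfold Th
    calc 432 * KK d w ^ 9 = 1 * (1 * (1 * 1 * (432 * KK d w ^ 9))) := by ring
      _ ≤ _ := by gcongr
  · refine lt_of_le_of_lt ?_ hlt
    push_cast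
    calc ((y2 : ℝ) - y1) ^ d * (d * c1 d * H * (432 * KK d w ^ 9 / Y))
        ≤ QQ d w ^ d * (d * c1 d * H * (432 * KK d w ^ 9 / Y)) := by gcongr
      _ = H * Th d w / Y := by unfold Th; ring

end Pool.Agent.R414.DN
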